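import Pool.Agent.Lib.MP_44a765_co.XV.Pair

/-!
# MP_44a765: counting edges around a vertex of minimum degree
-/

set_option autoImplicit false

namespace Pool.Agent.Lib.MP44a765.XV

open Finset Pool.Agent.Lib.MP44a765

section

variable {V : Type} [Fintype V] [DecidableEq V]

theorem two_edges (G : SimpleGraph V) : 2 * G.edgeSet.ncard = ∑ v, (nb G v).card := by
  classical
  have h := G.sum_degrees_eq_twice_card_edges
  have h1 : G.edgeSet.ncard = G.edgeFinset.card := by
    rw [Set.ncard_eq_toFinset_card']; rfl
  rw [h1, ← h]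
  refine Finset.sum_congr rfl fun v _ => ?_
  rw [← SimpleGraph.card_neighborFinset_eq_degree]
  congr 1
  ext w
  simp [mem_nb]

/-- the vertices which are neither `x` nor adjacent to `x` -/
noncomputable def rest (G : SimpleGraph V) (x : V) : Finset V := univ \ insert x (nb G x)

theorem mem_rest {G : SimpleGraph V} {x y : V} : y ∈ rest G x ↔ y ≠ x ∧ ¬ G.Adj x y := by
  simp [rest, mem_nb, not_or]

theorem card_rest (G : SimpleGraph V) (x : V) :
    (rest G x).card + (nb G x).card + 1 = Fintype.card V := by
  unfold rest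
  have h := Finset.card_sdiff_add_card_eq_card (Finset.subset_univ (insert x (nb G x)))
  rw [Finset.card_insert_of_notMem (notMem_nb G x), Finset.card_univ] at h
  omega

theorem nb_split_rest (G : SimpleGraph V) (x y : V) (hy : y ∈ rest G x) :
    (nb G y).card = (nb G y ∩ nb G x).card + (nb G y ∩ rest G x).card := by
  rw [← Finset.card_union_of_disjoint]
  · congr 1
    ext w
    simp only [Finset.mem_union, Finset.mem_inter, mem_nb, mem_rest]
    rw [mem_rest] at hy
    constructor
    · intro h
      by_cases hx : G.Adj x w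
      · exact Or.inl ⟨h, hx⟩
      · exact Or.inr ⟨h, fun h' => hy.2 (h' ▸ h.symm), hx⟩
    · rintro (h | h)
      · exact h.1
      · exact h.1
  · rw [Finset.disjoint_left]
    intro w hw hw'
    exact (mem_rest.mp (Finset.mem_inter.mp hw').2).2 (mem_nb.mp (Finset.mem_inter.mp hw).2)

theorem nb_split_nb (G : SimpleGraph V) (x v : V) (hv : v ∈ nb G x) :
    (nb G v).card = 1 + (nb G v ∩ nb G x).card + (nb G v ∩ rest G x).card := by
  have hxv : x ∈ nb G v := mem_nb.mpr (mem_nb.mp hv).symm
  have h0 : (nb G v).card = ((nb G v).erase x).card + 1 := by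
    rw [Finset.card_erase_add_one hxv]
  have h1 : ((nb G v).erase x).card = (nb G v ∩ nb G x).card + (nb G v ∩ rest G x).card := by
    rw [← Finset.card_union_of_disjoint]
    · congr 1
      ext w
      simp only [Finset.mem_union, Finset.mem_inter, mem_nb, mem_rest, Finset.mem_erase]
      constructor
      · intro h
        by_cases hx : G.Adj x w
        · exact Or.inl ⟨h.2, hx⟩
        · exact Or.inr ⟨h.2, h.1, hx⟩
      · rintro (h | h)
        · exact ⟨fun h' => G.loopless.irrefl x (h' ▸ h.2), h.1⟩
        · exact ⟨h.2.1, h.1⟩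
    · rw [Finset.disjoint_left]
      intro w hw hw'
      exact (mem_rest.mp (Finset.mem_inter.mp hw').2).2 (mem_nb.mp (Finset.mem_inter.mp hw).2)
  omega

theorem double_count (G : SimpleGraph V) (A B : Finset V) :
    ∑ v ∈ A, (nb G v ∩ B).card = ∑ y ∈ B, (nb G y ∩ A).card := by
  classical
  have h : ∀ (v : V) (S : Finset V), (nb G v ∩ S).card = ∑ y ∈ S, if G.Adj v y then 1 else 0 := by
    intro v S
    rw [← Finset.card_filter]
    congr 1
    ext w
    simp only [Finset.mem_inter, mem_nb, Finset.mem_filter]
    tauto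
  simp only [h]
  rw [Finset.sum_comm]
  refine Finset.sum_congr rfl fun y _ => Finset.sum_congr rfl fun v _ => ?_
  simp only [G.adj_comm]

/-- the sum of the degrees, sorted around `x` -/
theorem count (G : SimpleGraph V) (x : V) :
    2 * G.edgeSet.ncard = 2 * (nb G x).card + ∑ v ∈ nb G x, (nb G v ∩ nb G x).card +
      ∑ y ∈ rest G x, ((nb G y ∩ nb G x).card + (nb G y).card) := by
  rw [two_edges]
  have h1 : ∑ v, (nb G v).card = ∑ v ∈ rest G x, (nb G v).card +
      ∑ v ∈ insert x (nb G x), (nb G v).card := by
    unfold rest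
    exact (Finset.sum_sdiff (Finset.subset_univ _)).symm
  rw [h1, Finset.sum_insert (notMem_nb G x)]
  have h2 : ∑ v ∈ nb G x, (nb G v).card = (nb G x).card +
      ∑ v ∈ nb G x, (nb G v ∩ nb G x).card + ∑ v ∈ nb G x, (nb G v ∩ rest G x).card := by
    rw [Finset.card_eq_sum_ones (nb G x), ← Finset.sum_add_distrib, ← Finset.sum_add_distrib]
    exact Finset.sum_congr rfl fun v hv => nb_split_nb G x v hv
  rw [h2, double_count G (nb G x) (rest G x), Finset.sum_add_distrib]
  ring

/-- the lower bound for the number of edges -/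
theorem murty (G : SimpleGraph V) (lam : ℕ) (x : V)
    (hcom : ∀ y ∈ rest G x, lam ≤ (nb G y ∩ nb G x).card)
    (hmin : ∀ v, (nb G x).card ≤ (nb G v).card) :
    2 * (nb G x).card + ∑ v ∈ nb G x, (nb G v ∩ nb G x).card +
      (rest G x).card * (lam + (nb G x).card) ≤ 2 * G.edgeSet.ncard := by
  rw [count G x]
  refine Nat.add_le_add_left ?_ _
  rw [← smul_eq_mul, ← Finset.sum_const]
  exact Finset.sum_le_sum fun y hy => Nat.add_le_add (hcom y hy) (hmin y)

theorem deg_sum (G : SimpleGraph V) (x : V) (hmin : ∀ v, (nb G x).card ≤ (nb G v).card) :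
    Fintype.card V * (nb G x).card ≤ 2 * G.edgeSet.ncard := by
  rw [two_edges, ← Finset.card_univ, ← smul_eq_mul, ← Finset.sum_const]
  exact Finset.sum_le_sum fun v _ => hmin v

/-- general dichotomy: complete graph, or a vertex of minimum degree with a non-neighbour -/
theorem min_vertex (G : SimpleGraph V) [Nonempty V] :
    ∃ x : V, (∀ v, (nb G x).card ≤ (nb G v).card) ∧
      (2 * G.edgeSet.ncard ≥ Fintype.card V * (Fintype.card V - 1) ∨ (rest G x).Nonempty) := by
  obtain ⟨x, -, hx⟩ := Finset.exists_min_image (univ : Finset V) (fun v => (nb G v).card)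
    Finset.univ_nonempty
  have hmin : ∀ v, (nb G x).card ≤ (nb G v).card := fun v => hx v (Finset.mem_univ v)
  refine ⟨x, hmin, ?_⟩
  by_cases h : (rest G x).Nonempty
  · exact Or.inr h
  · left
    rw [Finset.not_nonempty_iff_eq_empty] at h
    have h1 := card_rest G x
    rw [h, Finset.card_empty] at h1
    have h2 := deg_sum G x hmin
    have h3 : (nb G x).card = Fintype.card V - 1 := by omega
    rwa [h3] at h2

end

end Pool.Agent.Lib.MP44a765.XV
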