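import Pool.Agent.Lib.MP_44a765_co.XV.Count

/-!
# MP_44a765: the neighbourhood of a vertex of degree 5 in a rainbow `K_5` saturated graph
-/

set_option autoImplicit false

namespace Pool.Agent.Lib.MP44a765.XV

open Finset Pool.Agent.Lib.MP44a765

section

variable {V : Type} [Fintype V] [DecidableEq V]

/-- a set of three elements of `{e, a, b, d}` cannot avoid all three pairs of `e, a, b` -/
theorem card_le_two_of' {T : Finset V} {e a b d : V} (hTs : T ⊆ {e, a, b, d})
    (m1 : ¬ (e ∈ T ∧ a ∈ T)) (m2 : ¬ (e ∈ T ∧ b ∈ T)) (m3 : ¬ (a ∈ T ∧ b ∈ T)) :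
    T.card ≤ 2 := by
  have e2 : ∃ q, T ⊆ {q, d} := by
    by_cases h : e ∈ T
    · refine ⟨e, fun t ht => ?_⟩
      have := hTs ht
      have h1 : t ≠ a := fun h' => m1 ⟨h, h' ▸ ht⟩
      have h2 : t ≠ b := fun h' => m2 ⟨h, h' ▸ ht⟩
      simp only [Finset.mem_insert, Finset.mem_singleton] at this ⊢
      tauto
    · by_cases h' : a ∈ T
      · refine ⟨a, fun t ht => ?_⟩
        have := hTs ht
        have h1 : t ≠ e := fun h'' => h (h'' ▸ ht)
        have h2 : t ≠ b := fun h'' => m3 ⟨h', h'' ▸ ht⟩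
        simp only [Finset.mem_insert, Finset.mem_singleton] at this ⊢
        tauto
      · refine ⟨b, fun t ht => ?_⟩
        have := hTs ht
        have h1 : t ≠ e := fun h'' => h (h'' ▸ ht)
        have h2 : t ≠ a := fun h'' => h' (h'' ▸ ht)
        simp only [Finset.mem_insert, Finset.mem_singleton] at this ⊢
        tauto
  obtain ⟨q, hq⟩ := e2
  exact (Finset.card_le_card hq).trans Finset.card_le_two

theorem not_both {G : SimpleGraph V} {c : Sym2 V → ℕ} {x p q : V} {T : Finset V}
    (hT : RainbowClique G c (insert x T)) (hpq : p ≠ q) (hn : ¬ G.Adj p q) :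
    ¬ (p ∈ T ∧ q ∈ T) := fun h =>
  hn (hT.1 p (Finset.mem_insert_of_mem h.1) q (Finset.mem_insert_of_mem h.2) hpq)

/-- the triangles in the neighbourhood `N` of `x` -/
structure Tri (G : SimpleGraph V) (c : Sym2 V → ℕ) (x : V) (N : Finset V) : Prop where
  five : N.card = 5
  notMem : x ∉ N
  no : ¬ HasRainbow G c 5
  tri : ∀ α : ℕ, ∃ T : Finset V, T.card = 3 ∧ T ⊆ N ∧ RainbowClique G c (insert x T) ∧
      ∀ a ∈ insert x T, ∀ b ∈ insert x T, a ≠ b → c s(a, b) ≠ α

theorem Tri.avoid {G : SimpleGraph V} {c : Sym2 V → ℕ} {x : V} {N : Finset V}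
    (h : Tri G c x N) : ∀ w ∈ N, ∃ T : Finset V, T.card = 3 ∧ T ⊆ N.erase w ∧
      RainbowClique G c (insert x T) := by
  intro w hw
  obtain ⟨T, h1, h2, h3, h4⟩ := h.tri (c s(x, w))
  refine ⟨T, h1, fun t ht => Finset.mem_erase.mpr ⟨fun h' => ?_, h2 ht⟩, h3⟩
  subst h'
  exact h4 x (Finset.mem_insert_self _ _) t (Finset.mem_insert_of_mem ht)
    (fun h' => h.notMem (h' ▸ hw)) rfl

theorem card_four {p q s t : V} (hpq : p ≠ q) (hst : s ≠ t) (hps : p ≠ s) (hpt : p ≠ t)
    (hqs : q ≠ s) (hqt : q ≠ t) : ({p, q, s, t} : Finset V).card = 4 := by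
  rw [Finset.card_insert_of_notMem, Finset.card_insert_of_notMem,
    Finset.card_insert_of_notMem, Finset.card_singleton]
  · simpa using hst
  · simp [hqs, hqt]
  · simp [hpq, hps, hpt]

theorem sub_four {N : Finset V} {p q s t : V} (hp : p ∈ N) (hq : q ∈ N) (hs : s ∈ N)
    (ht : t ∈ N) : ({p, q, s, t} : Finset V) ⊆ N := by
  intro z hz
  simp only [Finset.mem_insert, Finset.mem_singleton] at hz
  rcases hz with rfl | rfl | rfl | rfl <;> assumption

/-- two disjoint non-edges are impossible -/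
theorem Tri.disj {G : SimpleGraph V} {c : Sym2 V → ℕ} {x : V} {N : Finset V}
    (h : Tri G c x N) {p q s t : V} (hp : p ∈ N) (hq : q ∈ N) (hs : s ∈ N) (ht : t ∈ N)
    (hpq : p ≠ q) (hst : s ≠ t) (hps : p ≠ s) (hpt : p ≠ t) (hqs : q ≠ s) (hqt : q ≠ t)
    (hn1 : ¬ G.Adj p q) (hn2 : ¬ G.Adj s t) : False := by
  have hc := card_four hpq hst hps hpt hqs hqt
  have hsub := sub_four hp hq hs ht
  have h5 := h.five
  obtain ⟨w, hwN, hw⟩ : ∃ w ∈ N, w ∉ ({p, q, s, t} : Finset V) := by
    by_contra hcon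
    push Not at hcon
    have := Finset.card_le_card (show N ⊆ {p, q, s, t} from hcon)
    omega
  obtain ⟨T, h1, h2, h3⟩ := h.avoid w hwN
  have hEq : N.erase w = {p, q, s, t} := by
    symm
    apply Finset.eq_of_subset_of_card_le
    · intro z hz
      exact Finset.mem_erase.mpr ⟨fun h' => hw (h' ▸ hz), hsub hz⟩
    · rw [Finset.card_erase_of_mem hwN, hc]; omega
  rw [hEq] at h2
  have := card_le_two_of h2 (not_both h3 hpq hn1) (not_both h3 hst hn2)
  omega

/-- `N = {e, a, b, g, d}` with all different elements -/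
structure Names (N : Finset V) (e a b g d : V) : Prop where
  he : e ∈ N
  ha : a ∈ N
  hb : b ∈ N
  hg : g ∈ N
  hd : d ∈ N
  hea : e ≠ a
  heb : e ≠ b
  heg : e ≠ g
  hed : e ≠ d
  hab : a ≠ b
  hag : a ≠ g
  had : a ≠ d
  hbg : b ≠ g
  hbd : b ≠ d
  hgd : g ≠ d
  all : ∀ z ∈ N, z = e ∨ z = a ∨ z = b ∨ z = g ∨ z = d

theorem Names.swap {N : Finset V} {e a b g d : V} (h : Names N e a b g d) :
    Names N e a b d g where
  he := h.he
  ha := h.ha
  hb := h.hb
  hg := h.hd
  hd := h.hg
  hea := h.hea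
  heb := h.heb
  heg := h.hed
  hed := h.heg
  hab := h.hab
  hag := h.had
  had := h.hag
  hbg := h.hbd
  hbd := h.hbg
  hgd := h.hgd.symm
  all := fun z hz => by
    rcases h.all z hz with h | h | h | h | h
    · exact Or.inl h
    · exact Or.inr (Or.inl h)
    · exact Or.inr (Or.inr (Or.inl h))
    · exact Or.inr (Or.inr (Or.inr (Or.inr h)))
    · exact Or.inr (Or.inr (Or.inr (Or.inl h)))

theorem names {N : Finset V} {e a b : V} (h5 : N.card = 5) (he : e ∈ N) (ha : a ∈ N) (hb : b ∈ N)
    (hea : e ≠ a) (heb : e ≠ b) (hab : a ≠ b) : ∃ g d, Names N e a b g d := by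
  have hc3 : ((((N.erase e).erase a).erase b)).card = 2 := by
    rw [Finset.card_erase_of_mem, Finset.card_erase_of_mem, Finset.card_erase_of_mem he, h5]
    · exact Finset.mem_erase.mpr ⟨hea.symm, ha⟩
    · exact Finset.mem_erase.mpr ⟨hab.symm, Finset.mem_erase.mpr ⟨heb.symm, hb⟩⟩
  obtain ⟨g, d, hgd, hgd'⟩ := Finset.card_eq_two.mp hc3
  have hg : g ∈ ((N.erase e).erase a).erase b := by rw [hgd']; simp
  have hd : d ∈ ((N.erase e).erase a).erase b := by rw [hgd']; simp
  simp only [Finset.mem_erase] at hg hd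
  obtain ⟨hgb, hga, hge', hgN⟩ := hg
  obtain ⟨hdb, hda, hde, hdN⟩ := hd
  refine ⟨g, d, he, ha, hb, hgN, hdN, hea, heb, hge'.symm, hde.symm, hab, hga.symm, hda.symm,
    hgb.symm, hdb.symm, hgd, ?_⟩
  intro z hz
  by_contra hcon
  push Not at hcon
  have hz' : z ∈ ((N.erase e).erase a).erase b :=
    Finset.mem_erase.mpr ⟨hcon.2.2.1, Finset.mem_erase.mpr ⟨hcon.2.1,
      Finset.mem_erase.mpr ⟨hcon.1, hz⟩⟩⟩
  rw [hgd', Finset.mem_insert, Finset.mem_singleton] at hz'
  rcases hz' with h | h
  · exact hcon.2.2.2.1 h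
  · exact hcon.2.2.2.2 h

/-- three pairwise non-adjacent vertices are impossible -/
theorem Tri.adj_ab {G : SimpleGraph V} {c : Sym2 V → ℕ} {x : V} {N : Finset V}
    (h : Tri G c x N) {e a b g d : V} (nm : Names N e a b g d) (hnea : ¬ G.Adj e a)
    (hneb : ¬ G.Adj e b) : G.Adj a b := by
  by_contra hn
  obtain ⟨T, h1, h2, h3⟩ := h.avoid g nm.hg
  have hTs : T ⊆ {e, a, b, d} := by
    intro z hz
    have hz' := h2 hz
    have hzg := Finset.ne_of_mem_erase hz'
    simp only [Finset.mem_insert, Finset.mem_singleton]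
    rcases nm.all z (Finset.mem_of_mem_erase hz') with h | h | h | h | h
    · exact Or.inl h
    · exact Or.inr (Or.inl h)
    · exact Or.inr (Or.inr (Or.inl h))
    · exact absurd h hzg
    · exact Or.inr (Or.inr (Or.inr h))
  have := card_le_two_of' hTs (not_both h3 nm.hea hnea) (not_both h3 nm.heb hneb)
    (not_both h3 nm.hab hn)
  omega

/-- the centre of the non-edges is adjacent to the other vertices -/
theorem Tri.adj_eg {G : SimpleGraph V} {c : Sym2 V → ℕ} {x : V} {N : Finset V}
    (h : Tri G c x N) {e a b g d : V} (nm : Names N e a b g d) (hnea : ¬ G.Adj e a)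
    (hneb : ¬ G.Adj e b) : G.Adj e g := by
  by_contra hn
  -- no triangle contains e
  have hnoe : ∀ T : Finset V, T.card = 3 → T ⊆ N → RainbowClique G c (insert x T) →
      T ⊆ {a, b, g, d} := by
    intro T h1 h2 h3
    have heT : e ∉ T := by
      intro heT
      have m1 := not_both h3 nm.hea hnea
      have m2 := not_both h3 nm.heb hneb
      have m3 := not_both h3 nm.heg hn
      have : T ⊆ {e, d} := by
        intro z hz
        rw [Finset.mem_insert, Finset.mem_singleton]
        rcases nm.all z (h2 hz) with h' | h' | h' | h' | h'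
        · exact Or.inl h'
        · exact absurd ⟨heT, h' ▸ hz⟩ m1
        · exact absurd ⟨heT, h' ▸ hz⟩ m2
        · exact absurd ⟨heT, h' ▸ hz⟩ m3
        · exact Or.inr h'
      have := (Finset.card_le_card this).trans Finset.card_le_two
      omega
    intro z hz
    simp only [Finset.mem_insert, Finset.mem_singleton]
    rcases nm.all z (h2 hz) with h' | h' | h' | h' | h'
    · exact absurd (h' ▸ hz) heT
    · exact Or.inl h'
    · exact Or.inr (Or.inl h')
    · exact Or.inr (Or.inr (Or.inl h'))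
    · exact Or.inr (Or.inr (Or.inr h'))
  have hK4 : ({a, b, g, d} : Finset V).card = 4 :=
    card_four nm.hab nm.hgd nm.hag nm.had nm.hbg nm.hbd
  have hKN : ({a, b, g, d} : Finset V) ⊆ N := sub_four nm.ha nm.hb nm.hg nm.hd
  have hF : ∀ w ∈ ({a, b, g, d} : Finset V),
      RainbowClique G c (insert x (({a, b, g, d} : Finset V).erase w)) := by
    intro w hw
    obtain ⟨T, h1, h2, h3⟩ := h.avoid w (hKN hw)
    have h4 := hnoe T h1 (h2.trans (Finset.erase_subset _ _)) h3
    have h6 : T = ({a, b, g, d} : Finset V).erase w := by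
      apply Finset.eq_of_subset_of_card_le
      · intro z hz
        exact Finset.mem_erase.mpr ⟨Finset.ne_of_mem_erase (h2 hz), h4 hz⟩
      · rw [Finset.card_erase_of_mem hw, hK4]; omega
    rw [← h6]; exact h3
  obtain ⟨a1, -, b1, -, a2, -, b2, -, hab1, hab2, hcc, hsub⟩ :=
    quad_pair h.no (le_refl 5) (fun h' => h.notMem (hKN h')) (by rw [hK4]) hF
  obtain ⟨T, h1, h2, h3, h4⟩ := h.tri (c s(a1, b1))
  have := quad_two hab1 hab2 hcc ((hnoe T h1 h2 h3).trans hsub) h4
  omega

theorem cnt {G : SimpleGraph V} {N : Finset V} (h5 : N.card = 5) (g : V → ℕ) (k : ℕ)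
    (h1 : ∀ v ∈ N, 4 ≤ (nb G v ∩ N).card + g v) (h2 : ∑ v ∈ N, g v ≤ k) :
    20 ≤ ∑ v ∈ N, (nb G v ∩ N).card + k := by
  have h3 : ∑ v ∈ N, 4 ≤ ∑ v ∈ N, ((nb G v ∩ N).card + g v) := Finset.sum_le_sum h1
  rw [Finset.sum_add_distrib, Finset.sum_const, h5, smul_eq_mul] at h3
  omega

theorem nb_ge {G : SimpleGraph V} {N : Finset V} (S : Finset V) (v : V) (h1 : S ⊆ N)
    (h2 : ∀ w ∈ S, G.Adj v w) : S.card ≤ (nb G v ∩ N).card :=
  Finset.card_le_card fun w hw => Finset.mem_inter.mpr ⟨mem_nb.mpr (h2 w hw), h1 hw⟩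

/-- no non-edge -/
theorem cnt0 {G : SimpleGraph V} {N : Finset V} (h5 : N.card = 5)
    (h1 : ∀ p ∈ N, ∀ q ∈ N, p ≠ q → G.Adj p q) : 18 ≤ ∑ v ∈ N, (nb G v ∩ N).card := by
  have := cnt (G := G) h5 (fun _ => 0) 0 (fun v hv => by
    have h2 := nb_ge (N.erase v) v (Finset.erase_subset _ _) fun w hw =>
      h1 v hv w (Finset.mem_of_mem_erase hw) (Finset.ne_of_mem_erase hw).symm
    rw [Finset.card_erase_of_mem hv, h5] at h2
    simpa using h2) (by simp)
  omega

/-- one non-edge -/
theorem cnt1 {G : SimpleGraph V} {N : Finset V} (h5 : N.card = 5) {p q : V} (hp : p ∈ N)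
    (hq : q ∈ N) (hpq : p ≠ q)
    (h2 : ∀ s ∈ N, ∀ t ∈ N, s ≠ t → ¬ G.Adj s t → (s = p ∧ t = q) ∨ (s = q ∧ t = p)) :
    18 ≤ ∑ v ∈ N, (nb G v ∩ N).card := by
  have hgen : ∀ p' q' : V, p' ∈ N → q' ∈ N → p' ≠ q' →
      (∀ s ∈ N, ∀ t ∈ N, s ≠ t → ¬ G.Adj s t → (s = p' ∧ t = q') ∨ (s = q' ∧ t = p')) →
      3 ≤ (nb G p' ∩ N).card := by
    intro p' q' hp' hq' hne h2'
    have h3 := nb_ge (G := G) ((N.erase p').erase q') p'
      ((Finset.erase_subset _ _).trans (Finset.erase_subset _ _)) fun w hw => by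
        by_contra hn
        have hw1 := Finset.mem_of_mem_erase hw
        rcases h2' p' hp' w (Finset.mem_of_mem_erase hw1) (Finset.ne_of_mem_erase hw1).symm hn
          with h | h
        · exact Finset.ne_of_mem_erase hw h.2
        · exact hne h.1
    rw [Finset.card_erase_of_mem (Finset.mem_erase.mpr ⟨hne.symm, hq'⟩),
      Finset.card_erase_of_mem hp', h5] at h3
    exact h3
  have := cnt (G := G) h5 (fun v => (if v = p then 1 else 0) + (if v = q then 1 else 0)) 2
    (fun v hv => by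
      by_cases hvp : v = p
      · subst hvp
        have h3 := hgen v q hv hq hpq h2
        simp only [if_true]
        omega
      · by_cases hvq : v = q
        · subst hvq
          have h3 := hgen v p hv hp hpq.symm fun s hs t ht hst hn => (h2 s hs t ht hst hn).symm
          simp only [if_true]
          omega
        · have h3 := nb_ge (G := G) (N.erase v) v (Finset.erase_subset _ _) fun w hw => by
            by_contra hn
            rcases h2 v hv w (Finset.mem_of_mem_erase hw) (Finset.ne_of_mem_erase hw).symm hn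
              with h | h
            · exact hvp h.1
            · exact hvq h.1
          rw [Finset.card_erase_of_mem hv, h5] at h3
          omega) (by
      rw [Finset.sum_add_distrib, Finset.sum_ite_eq', Finset.sum_ite_eq', if_pos hp, if_pos hq])
  omega

/-- two non-edges with a common vertex -/
theorem cnt2 {G : SimpleGraph V} {N : Finset V} (h5 : N.card = 5) {e a b g d : V}
    (nm : Names N e a b g d) (hab : G.Adj a b) (hag : G.Adj a g) (had : G.Adj a d)
    (hbg : G.Adj b g) (hbd : G.Adj b d) (hgd : G.Adj g d) (heg : G.Adj e g) (hed : G.Adj e d) :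
    16 ≤ ∑ v ∈ N, (nb G v ∩ N).card := by
  have b1 : 2 ≤ (nb G e ∩ N).card := by
    have h3 := nb_ge (G := G) (N := N) {g, d} e (by
      intro z hz
      simp only [Finset.mem_insert, Finset.mem_singleton] at hz
      rcases hz with rfl | rfl
      · exact nm.hg
      · exact nm.hd) (by
      intro z hz
      simp only [Finset.mem_insert, Finset.mem_singleton] at hz
      rcases hz with rfl | rfl <;> assumption)
    rwa [Finset.card_pair nm.hgd] at h3
  have b2 : 3 ≤ (nb G a ∩ N).card := by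
    have h3 := nb_ge (G := G) (N := N) {b, g, d} a (by
      intro z hz
      simp only [Finset.mem_insert, Finset.mem_singleton] at hz
      rcases hz with rfl | rfl | rfl
      · exact nm.hb
      · exact nm.hg
      · exact nm.hd) (by
      intro z hz
      simp only [Finset.mem_insert, Finset.mem_singleton] at hz
      rcases hz with rfl | rfl | rfl <;> assumption)
    have hc3' : ({b, g, d} : Finset V).card = 3 := by
      rw [Finset.card_insert_of_notMem, Finset.card_pair nm.hgd]
      simp [nm.hbg, nm.hbd]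
    rwa [hc3'] at h3
  have b3 : 3 ≤ (nb G b ∩ N).card := by
    have h3 := nb_ge (G := G) (N := N) {a, g, d} b (by
      intro z hz
      simp only [Finset.mem_insert, Finset.mem_singleton] at hz
      rcases hz with rfl | rfl | rfl
      · exact nm.ha
      · exact nm.hg
      · exact nm.hd) (by
      intro z hz
      simp only [Finset.mem_insert, Finset.mem_singleton] at hz
      rcases hz with rfl | rfl | rfl
      · exact hab.symm
      · assumption
      · assumption)
    have hc3' : ({a, g, d} : Finset V).card = 3 := by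
      rw [Finset.card_insert_of_notMem, Finset.card_pair nm.hgd]
      simp [nm.hag, nm.had]
    rwa [hc3'] at h3
  have b4 : 4 ≤ (nb G g ∩ N).card := by
    have h3 := nb_ge (G := G) (N.erase g) g (Finset.erase_subset _ _) (by
      intro z hz
      have hz' := Finset.ne_of_mem_erase hz
      rcases nm.all z (Finset.mem_of_mem_erase hz) with rfl | rfl | rfl | rfl | rfl
      · exact heg.symm
      · exact hag.symm
      · exact hbg.symm
      · exact absurd rfl hz'
      · exact hgd)
    rw [Finset.card_erase_of_mem nm.hg, h5] at h3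
    exact h3
  have b5 : 4 ≤ (nb G d ∩ N).card := by
    have h3 := nb_ge (G := G) (N.erase d) d (Finset.erase_subset _ _) (by
      intro z hz
      have hz' := Finset.ne_of_mem_erase hz
      rcases nm.all z (Finset.mem_of_mem_erase hz) with rfl | rfl | rfl | rfl | rfl
      · exact hed.symm
      · exact had.symm
      · exact hbd.symm
      · exact hgd.symm
      · exact absurd rfl hz')
    rw [Finset.card_erase_of_mem nm.hd, h5] at h3
    exact h3
  have hM := cnt (G := G) h5 (fun v => (if v = e then 2 else 0) + (if v = a then 1 else 0) +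
      (if v = b then 1 else 0)) 4 (fun v hv => by
    rcases nm.all v hv with h | h | h | h | h
    · subst h; simp only [if_true]; omega
    · subst h; simp only [if_true]; omega
    · subst h; simp only [if_true]; omega
    · subst h; omega
    · subst h; omega) (by
    rw [Finset.sum_add_distrib, Finset.sum_add_distrib, Finset.sum_ite_eq', Finset.sum_ite_eq',
      Finset.sum_ite_eq', if_pos nm.he, if_pos nm.ha, if_pos nm.hb])
  omega

/-- in the case of two non-edges there is an edge outside `N` -/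
theorem rest_edge {G : SimpleGraph V} {c : Sym2 V → ℕ} (hS : Saturated 5 G c) {x : V}
    {e a b g d : V} (nm : Names (nb G x) e a b g d) (hnea : ¬ G.Adj e a)
    (hneb : ¬ G.Adj e b) : 2 ≤ ∑ v ∈ rest G x, (nb G v ∩ rest G x).card := by
  obtain ⟨T, hT1, hT2, hT3, hT4⟩ := sat_pair hS nm.hea hnea (c s(g, d))
  have hgdT : ¬ (g ∈ T ∧ d ∈ T) := fun h =>
    hT4 g (Finset.mem_insert_of_mem h.1) d (Finset.mem_insert_of_mem h.2) nm.hgd rfl
  have key : ∀ w ∈ T ∩ nb G x, w = g ∨ w = d := by
    intro w hw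
    have hw1 := Finset.mem_inter.mp hw
    have hw2 := Finset.mem_inter.mp (hT2 hw1.1)
    rcases nm.all w hw1.2 with rfl | rfl | rfl | rfl | rfl
    · exact absurd (mem_nb.mp hw2.1) (G.loopless.irrefl _)
    · exact absurd (mem_nb.mp hw2.2) (G.loopless.irrefl _)
    · exact absurd (mem_nb.mp hw2.1) hneb
    · exact Or.inl rfl
    · exact Or.inr rfl
  have hTN : (T ∩ nb G x).card ≤ 1 := by
    rw [Finset.card_le_one]
    intro z hz z' hz'
    have hzT := (Finset.mem_inter.mp hz).1
    have hzT' := (Finset.mem_inter.mp hz').1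
    rcases key z hz with h | h <;> rcases key z' hz' with h' | h'
    · rw [h, h']
    · exact absurd ⟨h ▸ hzT, h' ▸ hzT'⟩ hgdT
    · exact absurd ⟨h' ▸ hzT', h ▸ hzT⟩ hgdT
    · rw [h, h']
  have hTo : 1 < (T \ nb G x).card := by
    have := Finset.card_sdiff_add_card_inter T (nb G x)
    omega
  obtain ⟨z, hz, z', hz', hzz⟩ := Finset.one_lt_card.mp hTo
  rw [Finset.mem_sdiff] at hz hz'
  have hadj : G.Adj z z' := hT3.1 z (Finset.mem_insert_of_mem hz.1) z'
    (Finset.mem_insert_of_mem hz'.1) hzz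
  have hzx : z ≠ x := fun h => hz'.2 (mem_nb.mpr (h ▸ hadj))
  have hzx' : z' ≠ x := fun h => hz.2 (mem_nb.mpr (h ▸ hadj.symm))
  have hzR : z ∈ rest G x := mem_rest.mpr ⟨hzx, fun h => hz.2 (mem_nb.mpr h)⟩
  have hzR' : z' ∈ rest G x := mem_rest.mpr ⟨hzx', fun h => hz'.2 (mem_nb.mpr h)⟩
  have h3 : ∑ v ∈ ({z, z'} : Finset V), (nb G v ∩ rest G x).card ≤
      ∑ v ∈ rest G x, (nb G v ∩ rest G x).card := by
    apply Finset.sum_le_sum_of_subset
    intro w hw
    simp only [Finset.mem_insert, Finset.mem_singleton] at hw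
    rcases hw with rfl | rfl <;> assumption
  rw [Finset.sum_pair hzz] at h3
  have h4 : 0 < (nb G z ∩ rest G x).card :=
    Finset.card_pos.mpr ⟨z', Finset.mem_inter.mpr ⟨mem_nb.mpr hadj, hzR'⟩⟩
  have h6 : 0 < (nb G z' ∩ rest G x).card :=
    Finset.card_pos.mpr ⟨z, Finset.mem_inter.mpr ⟨mem_nb.mpr hadj.symm, hzR⟩⟩
  omega

/-- the case of a vertex of degree 5 for `r = 5` -/
theorem five {G : SimpleGraph V} {c : Sym2 V → ℕ} (hS : Saturated 5 G c) {x y : V}
    (hy : y ∈ rest G x) (h5 : (nb G x).card = 5) :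
    18 ≤ ∑ v ∈ nb G x, (nb G v ∩ nb G x).card + ∑ v ∈ rest G x, (nb G v ∩ rest G x).card := by
  have hxy : x ≠ y := (mem_rest.mp hy).1.symm
  have hnxy : ¬ G.Adj x y := (mem_rest.mp hy).2
  have hTri : Tri G c x (nb G x) := by
    refine ⟨h5, notMem_nb G x, hS.1, fun α => ?_⟩
    obtain ⟨T, h1, h2, h3, h4⟩ := sat_pair hS hxy hnxy α
    exact ⟨T, by omega, h2.trans Finset.inter_subset_left, h3, h4⟩
  by_cases h1 : ∃ p ∈ nb G x, ∃ q ∈ nb G x, p ≠ q ∧ ¬ G.Adj p q
  swap
  · push Not at h1
    have := cnt0 h5 h1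
    omega
  obtain ⟨p, hp, q, hq, hpq, hnpq⟩ := h1
  by_cases h2 : ∀ s ∈ nb G x, ∀ t ∈ nb G x, s ≠ t → ¬ G.Adj s t →
      (s = p ∧ t = q) ∨ (s = q ∧ t = p)
  · have := cnt1 h5 hp hq hpq h2
    omega
  · push Not at h2
    obtain ⟨s, hs, t, ht, hst, hnst, h2⟩ := h2
    obtain ⟨e, he, a, ha, b, hb, hea, heb, hab, hnea, hneb⟩ : ∃ e ∈ nb G x, ∃ a ∈ nb G x,
        ∃ b ∈ nb G x, e ≠ a ∧ e ≠ b ∧ a ≠ b ∧ ¬ G.Adj e a ∧ ¬ G.Adj e b := by
      by_cases hps : p = s
      · subst hps
        refine ⟨p, hp, q, hq, t, ht, hpq, hst, fun h => ?_, hnpq, hnst⟩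
        exact h2.1 rfl h.symm
      · by_cases hpt : p = t
        · subst hpt
          refine ⟨p, hp, q, hq, s, hs, hpq, hst.symm, fun h => ?_, hnpq, fun h => hnst h.symm⟩
          exact h2.2 h.symm rfl
        · by_cases hqs : q = s
          · subst hqs
            exact ⟨q, hq, p, hp, t, ht, hpq.symm, hst, hpt, fun h => hnpq h.symm, hnst⟩
          · by_cases hqt : q = t
            · subst hqt
              exact ⟨q, hq, p, hp, s, hs, hpq.symm, hst.symm, hps, fun h => hnpq h.symm,
                fun h => hnst h.symm⟩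
            · exact (hTri.disj hp hq hs ht hpq hst hps hpt hqs hqt hnpq hnst).elim
    obtain ⟨g, d, nm⟩ := names h5 he ha hb hea heb hab
    have hab' : G.Adj a b := hTri.adj_ab nm hnea hneb
    have hag : G.Adj a g := by
      by_contra hn
      exact hTri.disj ha nm.hg he hb nm.hag nm.heb nm.hea.symm nm.hab nm.heg.symm nm.hbg.symm
        hn hneb
    have had : G.Adj a d := by
      by_contra hn
      exact hTri.disj ha nm.hd he hb nm.had nm.heb nm.hea.symm nm.hab nm.hed.symm nm.hbd.symm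
        hn hneb
    have hbg : G.Adj b g := by
      by_contra hn
      exact hTri.disj hb nm.hg he ha nm.hbg nm.hea nm.heb.symm nm.hab.symm nm.heg.symm
        nm.hag.symm hn hnea
    have hbd : G.Adj b d := by
      by_contra hn
      exact hTri.disj hb nm.hd he ha nm.hbd nm.hea nm.heb.symm nm.hab.symm nm.hed.symm
        nm.had.symm hn hnea
    have hgd : G.Adj g d := by
      by_contra hn
      exact hTri.disj nm.hg nm.hd he ha nm.hgd nm.hea nm.heg.symm nm.hag.symm nm.hed.symm
        nm.had.symm hn hnea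
    have heg : G.Adj e g := hTri.adj_eg nm hnea hneb
    have hed : G.Adj e d := hTri.adj_eg nm.swap hnea hneb
    have h7 := cnt2 h5 nm hab' hag had hbg hbd hgd heg hed
    have h8 := rest_edge hS nm hnea hneb
    omega

end

end Pool.Agent.Lib.MP44a765.XV
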