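import Pool.Agent.Lib.MP_44a765_co.XV.Join

/-!
# MP_44a765: the basic gadgets
-/

set_option autoImplicit false
set_option synthInstance.maxSize 100000

namespace Pool.Agent.Lib.MP44a765.XV

open Finset Pool.Agent.Lib.MP44a765

/-- the empty graph -/
theorem good_zero : Good 0 (⊥ : SimpleGraph (Fin 0)) (fun _ => 0) where
  sat := by
    refine ⟨?_, fun u => u.elim0⟩
    rintro ⟨K, hK, -⟩
    obtain ⟨x, -⟩ := Finset.card_pos.mp (show 0 < K.card by omega)
    exact x.elim0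
  avoid := fun w => w.elim0
  col := fun α => ⟨∅, rfl, ⟨fun a => a.elim0, fun a => a.elim0⟩, fun a => a.elim0⟩

/-- the colouring of a complete graph given by a function on increasing pairs -/
def kc (d : ℕ) (f : ℕ → ℕ → ℕ) : Sym2 (Fin d) → ℕ :=
  Sym2.lift ⟨fun a b => f (min a.val b.val) (max a.val b.val), fun a b => by
    show f (min a.val b.val) (max a.val b.val) = f (min b.val a.val) (max b.val a.val)
    rw [min_comm, max_comm]⟩

theorem kc_lt {d : ℕ} (f : ℕ → ℕ → ℕ) {a b : Fin d} (h : a.val < b.val) :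
    kc d f s(a, b) = f a b := by
  show f (min a.val b.val) (max a.val b.val) = f a b
  rw [min_eq_left h.le, max_eq_right h.le]

/-- sorting a pair -/
theorem sort {d : ℕ} {a b : Fin d} (h : a ≠ b) :
    ∃ p q : Fin d, p.val < q.val ∧ s(a, b) = s(p, q) ∧ (p = a ∨ p = b) ∧ (q = a ∨ q = b) := by
  have h' : a.val ≠ b.val := fun he => h (Fin.ext he)
  rcases Nat.lt_or_gt_of_ne h' with h1 | h1
  · exact ⟨a, b, h1, rfl, Or.inl rfl, Or.inr rfl⟩
  · exact ⟨b, a, h1, Sym2.eq_swap, Or.inr rfl, Or.inl rfl⟩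

/-- decidable conditions for a coloured complete graph -/
structure KG (d s : ℕ) (f : ℕ → ℕ → ℕ) (L : List (List ℕ)) (Q : List (ℕ × ℕ × ℕ × ℕ)) :
    Prop where
  hd : d = s + 2 ∨ d = s + 3
  pa : ∀ v < d, ∀ v' < d, (d = s + 2 → v = v') → ∃ q ∈ Q,
    q.1 < q.2.1 ∧ q.2.1 < d ∧ q.2.2.1 < q.2.2.2 ∧ q.2.2.2 < d ∧
    (q.1 ≠ v ∧ q.2.1 ≠ v ∧ q.2.2.1 ≠ v ∧ q.2.2.2 ≠ v) ∧
    (q.1 ≠ v' ∧ q.2.1 ≠ v' ∧ q.2.2.1 ≠ v' ∧ q.2.2.2 ≠ v') ∧
    f q.1 q.2.1 = f q.2.2.1 q.2.2.2 ∧ ¬ (q.1 = q.2.2.1 ∧ q.2.1 = q.2.2.2)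
  pc : ∀ P ∈ L, (univ.filter (fun a : Fin d => a.val ∉ P)).card = s
  pt : ∀ P ∈ L, ∀ a < d, a ∉ P → ∀ b < d, b ∉ P → a < b → ∀ a' < d, a' ∉ P → ∀ b' < d, b' ∉ P →
    a' < b' → f a b = f a' b' → a = a' ∧ b = b'
  pw : ∀ w < d, ∃ P ∈ L, w ∈ P
  pcol : ∀ a < d, ∀ b < d, a < b → ∃ P ∈ L, ∀ a' < d, a' ∉ P → ∀ b' < d, b' ∉ P → a' < b' →
    f a' b' ≠ f a b

/-- the kept vertices -/
def kept (d : ℕ) (P : List ℕ) : Finset (Fin d) := univ.filter (fun a : Fin d => a.val ∉ P)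

theorem mem_kept {d : ℕ} {P : List ℕ} {a : Fin d} : a ∈ kept d P ↔ a.val ∉ P := by
  simp [kept]

theorem kept_rc {d s : ℕ} {f : ℕ → ℕ → ℕ} {L : List (List ℕ)} {Q : List (ℕ × ℕ × ℕ × ℕ)}
    (h : KG d s f L Q) {P : List ℕ} (hP : P ∈ L) :
    RainbowClique (⊤ : SimpleGraph (Fin d)) (kc d f) (kept d P) := by
  refine ⟨fun a _ b _ hab => hab, fun a ha b hb a' ha' b' hb' hab hab' he => ?_⟩
  obtain ⟨p, q, hpq, e1, hp, hq⟩ := sort hab
  obtain ⟨p', q', hpq', e2, hp', hq'⟩ := sort hab'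
  rw [e1, e2] at he ⊢
  rw [kc_lt f hpq, kc_lt f hpq'] at he
  have hpm : p.val ∉ P := by
    rcases hp with rfl | rfl
    · exact mem_kept.mp ha
    · exact mem_kept.mp hb
  have hqm : q.val ∉ P := by
    rcases hq with rfl | rfl
    · exact mem_kept.mp ha
    · exact mem_kept.mp hb
  have hpm' : p'.val ∉ P := by
    rcases hp' with rfl | rfl
    · exact mem_kept.mp ha'
    · exact mem_kept.mp hb'
  have hqm' : q'.val ∉ P := by
    rcases hq' with rfl | rfl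
    · exact mem_kept.mp ha'
    · exact mem_kept.mp hb'
  obtain ⟨h1, h2⟩ := h.pt P hP p p.isLt hpm q q.isLt hqm hpq p' p'.isLt hpm' q' q'.isLt hqm'
    hpq' he
  rw [Fin.ext h1, Fin.ext h2]

theorem kg_good {d s : ℕ} {f : ℕ → ℕ → ℕ} {L : List (List ℕ)} {Q : List (ℕ × ℕ × ℕ × ℕ)}
    (h : KG d s f L Q) : Good s (⊤ : SimpleGraph (Fin d)) (kc d f) := by
  have hd0 : 0 < d := by rcases h.hd with h1 | h1 <;> omega
  refine ⟨⟨?_, fun u v huv hn => absurd huv hn⟩, fun w => ?_, fun α => ?_⟩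
  · rintro ⟨K, hK, -, hcol⟩
    have hc : Kᶜ.card + K.card = d := by
      rw [Finset.card_compl_add_card, Fintype.card_fin]
    obtain ⟨v, v', hvv, hv'⟩ : ∃ v v' : Fin d, (d = s + 2 → v.val = v'.val) ∧
        ∀ z : Fin d, z ≠ v → z ≠ v' → z ∈ K := by
      rcases h.hd with h1 | h1
      · obtain ⟨v, hv⟩ := Finset.card_eq_one.mp (show Kᶜ.card = 1 by omega)
        refine ⟨v, v, fun _ => rfl, fun z hz _ => ?_⟩
        by_contra hzK
        have := Finset.mem_compl.mpr hzK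
        rw [hv, Finset.mem_singleton] at this
        exact hz this
      · obtain ⟨v, v', -, hv⟩ := Finset.card_eq_two.mp (show Kᶜ.card = 2 by omega)
        refine ⟨v, v', fun h2 => by omega, fun z hz hz' => ?_⟩
        by_contra hzK
        have := Finset.mem_compl.mpr hzK
        rw [hv, Finset.mem_insert, Finset.mem_singleton] at this
        exact this.elim hz hz'
    obtain ⟨q, -, h1, h2, h3, h4, ⟨a1, a2, a3, a4⟩, ⟨b1, b2, b3, b4⟩, h5, h6⟩ :=
      h.pa v v.isLt v' v'.isLt hvv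
    have m1 := hv' ⟨q.1, by omega⟩ (fun he => a1 (congrArg Fin.val he))
      (fun he => b1 (congrArg Fin.val he))
    have m2 := hv' ⟨q.2.1, by omega⟩ (fun he => a2 (congrArg Fin.val he))
      (fun he => b2 (congrArg Fin.val he))
    have m3 := hv' ⟨q.2.2.1, by omega⟩ (fun he => a3 (congrArg Fin.val he))
      (fun he => b3 (congrArg Fin.val he))
    have m4 := hv' ⟨q.2.2.2, by omega⟩ (fun he => a4 (congrArg Fin.val he))
      (fun he => b4 (congrArg Fin.val he))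
    have h7 := hcol _ m1 _ m2 _ m3 _ m4
      (fun he => by have := congrArg Fin.val he; simp only at this; omega)
      (fun he => by have := congrArg Fin.val he; simp only at this; omega)
      (by rw [kc_lt f (show (⟨q.1, by omega⟩ : Fin d).val < (⟨q.2.1, by omega⟩ : Fin d).val
            from h1),
          kc_lt f (show (⟨q.2.2.1, by omega⟩ : Fin d).val < (⟨q.2.2.2, by omega⟩ : Fin d).val
            from h3)]
          exact h5)
    rcases Sym2.eq_iff.mp h7 with ⟨h8, h9⟩ | ⟨h8, h9⟩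
    · exact h6 ⟨congrArg Fin.val h8, congrArg Fin.val h9⟩
    · have e1 : q.1 = q.2.2.2 := congrArg Fin.val h8
      have e2 : q.2.1 = q.2.2.1 := congrArg Fin.val h9
      omega
  · obtain ⟨P, hP, hw⟩ := h.pw w w.isLt
    exact ⟨kept d P, h.pc P hP, fun hm => mem_kept.mp hm hw, kept_rc h hP⟩
  · by_cases hα : ∃ a b : Fin d, a.val < b.val ∧ f a b = α
    · obtain ⟨a, b, hab, rfl⟩ := hα
      obtain ⟨P, hP, hPc⟩ := h.pcol a a.isLt b b.isLt hab
      refine ⟨kept d P, h.pc P hP, kept_rc h hP, fun x hx y hy hxy => ?_⟩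
      obtain ⟨p, q, hpq, e1, hp, hq⟩ := sort hxy
      rw [e1, kc_lt f hpq]
      have hpm : p.val ∉ P := by
        rcases hp with rfl | rfl
        · exact mem_kept.mp hx
        · exact mem_kept.mp hy
      have hqm : q.val ∉ P := by
        rcases hq with rfl | rfl
        · exact mem_kept.mp hx
        · exact mem_kept.mp hy
      exact hPc p p.isLt hpm q q.isLt hqm hpq
    · push Not at hα
      obtain ⟨P, hP, -⟩ := h.pw 0 hd0
      refine ⟨kept d P, h.pc P hP, kept_rc h hP, fun x hx y hy hxy => ?_⟩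
      obtain ⟨p, q, hpq, e1, hp, hq⟩ := sort hxy
      rw [e1, kc_lt f hpq]
      exact hα p q hpq

/-- colourings with given special pairs -/
def spc (S : List (ℕ × ℕ × ℕ)) (a b : ℕ) : ℕ :=
  match S.find? (fun t => t.1 == a && t.2.1 == b) with
  | some t => t.2.2
  | none => 100 + 20 * a + b

/-- triangle -/
def S3 : List (ℕ × ℕ × ℕ) := [(0, 1, 1), (1, 2, 1)]

/-- the gadget for `r = 6` -/
def S6 : List (ℕ × ℕ × ℕ) := [(2, 4, 1), (3, 5, 1), (0, 4, 2), (1, 5, 2), (0, 2, 3), (1, 3, 3)]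

def L6 : List (List ℕ) := [[0, 2], [1, 3], [0, 4], [2, 5], [0, 5], [0, 3]]

def Q6 : List (ℕ × ℕ × ℕ × ℕ) := [(2, 4, 3, 5), (0, 4, 1, 5), (0, 2, 1, 3)]

theorem kg6 : KG 6 4 (spc S6) L6 Q6 where
  hd := by decide
  pa := by decide +kernel
  pc := by decide +kernel
  pt := by decide +kernel
  pw := by decide +kernel
  pcol := by decide +kernel

/-- the gadget for `r = 7` -/
def S7 : List (ℕ × ℕ × ℕ) := [(3, 4, 1), (5, 6, 1), (0, 1, 2), (2, 6, 2), (1, 4, 3), (2, 5, 3)]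

def L7 : List (List ℕ) := [[4, 6], [1, 6], [1, 5], [0, 4], [2, 3]]

def Q7 : List (ℕ × ℕ × ℕ × ℕ) := [(3, 4, 5, 6), (0, 1, 2, 6), (1, 4, 2, 5)]

theorem kg7 : KG 7 5 (spc S7) L7 Q7 where
  hd := by decide
  pa := by decide +kernel
  pc := by decide +kernel
  pt := by decide +kernel
  pw := by decide +kernel
  pcol := by decide +kernel

/-- the gadget for `r = 8` -/
def S8 : List (ℕ × ℕ × ℕ) := [(3, 4, 1), (1, 2, 1), (0, 5, 2), (2, 3, 2), (1, 6, 3), (0, 3, 3),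
  (2, 7, 4), (0, 1, 4)]

def L8 : List (List ℕ) := [[1, 3], [0, 2], [0, 4], [1, 5], [2, 6], [3, 7]]

def Q8 : List (ℕ × ℕ × ℕ × ℕ) := [(3, 4, 1, 2), (0, 5, 2, 3), (1, 6, 0, 3), (2, 7, 0, 1)]

theorem kg8 : KG 8 6 (spc S8) L8 Q8 where
  hd := by decide
  pa := by decide +kernel
  pc := by decide +kernel
  pt := by decide +kernel
  pw := by decide +kernel
  pcol := by decide +kernel

/-- the gadget for `r = 9` -/
def S9 : List (ℕ × ℕ × ℕ) := [(1, 3, 1), (2, 4, 1), (0, 5, 2), (2, 6, 2), (0, 7, 3), (1, 8, 3)]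

def L9 : List (List ℕ) := [[1, 2], [0, 2], [0, 1], [0, 3], [0, 4], [1, 5], [1, 6], [2, 7], [2, 8]]

def Q9 : List (ℕ × ℕ × ℕ × ℕ) := [(1, 3, 2, 4), (0, 5, 2, 6), (0, 7, 1, 8)]

theorem kg9 : KG 9 7 (spc S9) L9 Q9 where
  hd := by decide
  pa := by decide +kernel
  pc := by decide +kernel
  pt := by decide +kernel
  pw := by decide +kernel
  pcol := by decide +kernel

/-- the gadget for `r = 11`: nine vertices as for `r = 9` and a triangle with two equal colours -/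
def S12 : List (ℕ × ℕ × ℕ) := [(1, 3, 1), (2, 4, 1), (0, 5, 2), (2, 6, 2), (0, 7, 3), (1, 8, 3),
  (9, 10, 4), (10, 11, 4)]

def L12 : List (List ℕ) := [[1, 2, 10], [0, 2, 10], [0, 1, 10], [0, 3, 10], [0, 4, 10],
  [1, 5, 10], [1, 6, 10], [2, 7, 10], [2, 8, 10], [0, 1, 9], [0, 1, 11]]

def Q12 : List (ℕ × ℕ × ℕ × ℕ) := [(1, 3, 2, 4), (0, 5, 2, 6), (0, 7, 1, 8), (9, 10, 10, 11)]

theorem kg12 : KG 12 9 (spc S12) L12 Q12 where
  hd := by decide
  pa := by decide +kernel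
  pc := by decide +kernel
  pt := by decide +kernel
  pw := by decide +kernel
  pcol := by decide +kernel

end Pool.Agent.Lib.MP44a765.XV
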