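import Pool.Agent.Lib.MP_44a765_co.XV.Gad

/-!
# MP_44a765: gadgets of order `r + 1` for `10 ≤ r ≤ 15`: four vertices, for each pair of them two
equally coloured edges which join them to one or two private vertices
-/

set_option autoImplicit false
set_option synthInstance.maxSize 100000

namespace Pool.Agent.Lib.MP44a765.XV

open Finset Pool.Agent.Lib.MP44a765

/-- conditions for a colouring given by a list of special pairs -/
structure KS (d s : ℕ) (S : List (ℕ × ℕ × ℕ)) (L : List (List ℕ)) (Q : List (ℕ × ℕ × ℕ × ℕ)) :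
    Prop where
  hd : d = s + 2 ∨ d = s + 3
  h20 : d ≤ 20
  pa : ∀ v < d, ∀ v' < d, (d = s + 2 → v = v') → ∃ q ∈ Q,
    q.1 < q.2.1 ∧ q.2.1 < d ∧ q.2.2.1 < q.2.2.2 ∧ q.2.2.2 < d ∧
    (q.1 ≠ v ∧ q.2.1 ≠ v ∧ q.2.2.1 ≠ v ∧ q.2.2.2 ≠ v) ∧
    (q.1 ≠ v' ∧ q.2.1 ≠ v' ∧ q.2.2.1 ≠ v' ∧ q.2.2.2 ≠ v') ∧
    spc S q.1 q.2.1 = spc S q.2.2.1 q.2.2.2 ∧ ¬ (q.1 = q.2.2.1 ∧ q.2.1 = q.2.2.2)
  pc : ∀ P ∈ L, (univ.filter (fun a : Fin d => a.val ∉ P)).card = s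
  sp : ∀ t ∈ S, t.2.2 < 100
  pt : ∀ P ∈ L, ∀ t ∈ S, t.1 ∉ P → t.2.1 ∉ P → ∀ t' ∈ S, t'.1 ∉ P → t'.2.1 ∉ P →
    t.2.2 = t'.2.2 → t = t'
  pw : ∀ w < d, ∃ P ∈ L, w ∈ P
  pcol : ∀ t ∈ S, ∃ P ∈ L, ∀ t' ∈ S, t'.2.2 = t.2.2 → t'.1 ∈ P ∨ t'.2.1 ∈ P

/-- the two kinds of pairs -/
theorem spc_cases (S : List (ℕ × ℕ × ℕ)) (a b : ℕ) :
    (∃ t ∈ S, t.1 = a ∧ t.2.1 = b ∧ spc S a b = t.2.2) ∨ spc S a b = 100 + 20 * a + b := by
  unfold spc
  cases h : S.find? (fun t => t.1 == a && t.2.1 == b) with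
  | none => right; rfl
  | some t =>
    left
    have h1 := List.find?_some h
    have h2 := List.mem_of_find?_eq_some h
    simp only [Bool.and_eq_true, beq_iff_eq] at h1
    exact ⟨t, h2, h1.1, h1.2, rfl⟩

theorem ks_kg {d s : ℕ} {S : List (ℕ × ℕ × ℕ)} {L : List (List ℕ)}
    {Q : List (ℕ × ℕ × ℕ × ℕ)} (h : KS d s S L Q) : KG d s (spc S) L Q where
  hd := h.hd
  pa := h.pa
  pc := h.pc
  pt := by
    intro P hP a ha haP b hb hbP _ a' ha' haP' b' hb' hbP' _ he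
    have h20 := h.h20
    rcases spc_cases S a b with ⟨t, ht, t1, t2, t3⟩ | h1 <;>
      rcases spc_cases S a' b' with ⟨t', ht', t1', t2', t3'⟩ | h2
    · have := h.pt P hP t ht (t1 ▸ haP) (t2 ▸ hbP) t' ht' (t1' ▸ haP') (t2' ▸ hbP')
        (by rw [← t3, ← t3', he])
      subst this
      exact ⟨t1.symm.trans t1', t2.symm.trans t2'⟩
    · have := h.sp t ht
      omega
    · have := h.sp t' ht'
      omega
    · omega
  pw := h.pw
  pcol := by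
    intro a ha b hb hab
    have h20 := h.h20
    rcases spc_cases S a b with ⟨t, ht, t1, t2, t3⟩ | h1
    · obtain ⟨P, hP, hPc⟩ := h.pcol t ht
      refine ⟨P, hP, fun a' ha' haP' b' hb' hbP' _ he => ?_⟩
      rcases spc_cases S a' b' with ⟨t', ht', t1', t2', t3'⟩ | h2
      · rcases hPc t' ht' (by rw [← t3, ← t3', he]) with h3 | h3
        · exact haP' (t1' ▸ h3)
        · exact hbP' (t2' ▸ h3)
      · have := h.sp t ht
        omega
    · obtain ⟨P, hP, haP⟩ := h.pw a ha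
      refine ⟨P, hP, fun a' ha' haP' b' hb' hbP' _ he => ?_⟩
      rcases spc_cases S a' b' with ⟨t', ht', t1', t2', t3'⟩ | h2
      · have := h.sp t' ht'
        omega
      · have : a' = a := by omega
        exact haP' (this ▸ haP)

/-- the gadget of order `11` -/
def T11 : List (ℕ × ℕ × ℕ) :=
  [(0, 4, 1), (1, 5, 1), (0, 6, 2), (2, 6, 2), (0, 7, 3), (3, 7, 3), (1, 8, 4), (2, 8, 4),
    (1, 9, 5), (3, 9, 5), (2, 10, 6), (3, 10, 6)]

def M11 : List (List ℕ) :=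
  [[0, 1, 2], [0, 1, 3], [0, 2, 3], [1, 2, 3], [2, 3, 4], [2, 3, 5], [1, 3, 6], [1, 2, 7],
    [0, 3, 8], [0, 2, 9], [0, 1, 10]]

def R11 : List (ℕ × ℕ × ℕ × ℕ) :=
  [(0, 4, 1, 5), (0, 6, 2, 6), (0, 7, 3, 7), (1, 8, 2, 8), (1, 9, 3, 9), (2, 10, 3, 10)]

theorem ks11 : KS 11 8 T11 M11 R11 where
  hd := by decide
  h20 := by decide
  pa := by decide +kernel
  pc := by decide +kernel
  sp := by decide +kernel
  pt := by decide +kernel
  pw := by decide +kernel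
  pcol := by decide +kernel

/-- the gadget of order `12` -/
def T12 : List (ℕ × ℕ × ℕ) :=
  [(0, 4, 1), (1, 5, 1), (0, 6, 2), (2, 7, 2), (0, 8, 3), (3, 8, 3), (1, 9, 4), (2, 9, 4),
    (1, 10, 5), (3, 10, 5), (2, 11, 6), (3, 11, 6)]

def M12 : List (List ℕ) :=
  [[0, 1, 2], [0, 1, 3], [0, 2, 3], [1, 2, 3], [2, 3, 4], [2, 3, 5], [1, 3, 6], [1, 3, 7],
    [1, 2, 8], [0, 3, 9], [0, 2, 10], [0, 1, 11]]

def R12 : List (ℕ × ℕ × ℕ × ℕ) :=
  [(0, 4, 1, 5), (0, 6, 2, 7), (0, 8, 3, 8), (1, 9, 2, 9), (1, 10, 3, 10), (2, 11, 3, 11)]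

theorem ks12 : KS 12 9 T12 M12 R12 where
  hd := by decide
  h20 := by decide
  pa := by decide +kernel
  pc := by decide +kernel
  sp := by decide +kernel
  pt := by decide +kernel
  pw := by decide +kernel
  pcol := by decide +kernel

/-- the gadget of order `13` -/
def T13 : List (ℕ × ℕ × ℕ) :=
  [(0, 4, 1), (1, 5, 1), (0, 6, 2), (2, 7, 2), (0, 8, 3), (3, 9, 3), (1, 10, 4), (2, 10, 4),
    (1, 11, 5), (3, 11, 5), (2, 12, 6), (3, 12, 6)]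

def M13 : List (List ℕ) :=
  [[0, 1, 2], [0, 1, 3], [0, 2, 3], [1, 2, 3], [2, 3, 4], [2, 3, 5], [1, 3, 6], [1, 3, 7],
    [1, 2, 8], [1, 2, 9], [0, 3, 10], [0, 2, 11], [0, 1, 12]]

def R13 : List (ℕ × ℕ × ℕ × ℕ) :=
  [(0, 4, 1, 5), (0, 6, 2, 7), (0, 8, 3, 9), (1, 10, 2, 10), (1, 11, 3, 11), (2, 12, 3, 12)]

theorem ks13 : KS 13 10 T13 M13 R13 where
  hd := by decide
  h20 := by decide
  pa := by decide +kernel
  pc := by decide +kernel
  sp := by decide +kernel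
  pt := by decide +kernel
  pw := by decide +kernel
  pcol := by decide +kernel

/-- the gadget of order `14` -/
def T14 : List (ℕ × ℕ × ℕ) :=
  [(0, 4, 1), (1, 5, 1), (0, 6, 2), (2, 7, 2), (0, 8, 3), (3, 9, 3), (1, 10, 4), (2, 11, 4),
    (1, 12, 5), (3, 12, 5), (2, 13, 6), (3, 13, 6)]

def M14 : List (List ℕ) :=
  [[0, 1, 2], [0, 1, 3], [0, 2, 3], [1, 2, 3], [2, 3, 4], [2, 3, 5], [1, 3, 6], [1, 3, 7],
    [1, 2, 8], [1, 2, 9], [0, 3, 10], [0, 3, 11], [0, 2, 12], [0, 1, 13]]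

def R14 : List (ℕ × ℕ × ℕ × ℕ) :=
  [(0, 4, 1, 5), (0, 6, 2, 7), (0, 8, 3, 9), (1, 10, 2, 11), (1, 12, 3, 12), (2, 13, 3, 13)]

theorem ks14 : KS 14 11 T14 M14 R14 where
  hd := by decide
  h20 := by decide
  pa := by decide +kernel
  pc := by decide +kernel
  sp := by decide +kernel
  pt := by decide +kernel
  pw := by decide +kernel
  pcol := by decide +kernel

/-- the gadget of order `15` -/
def T15 : List (ℕ × ℕ × ℕ) :=
  [(0, 4, 1), (1, 5, 1), (0, 6, 2), (2, 7, 2), (0, 8, 3), (3, 9, 3), (1, 10, 4), (2, 11, 4),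
    (1, 12, 5), (3, 13, 5), (2, 14, 6), (3, 14, 6)]

def M15 : List (List ℕ) :=
  [[0, 1, 2], [0, 1, 3], [0, 2, 3], [1, 2, 3], [2, 3, 4], [2, 3, 5], [1, 3, 6], [1, 3, 7],
    [1, 2, 8], [1, 2, 9], [0, 3, 10], [0, 3, 11], [0, 2, 12], [0, 2, 13], [0, 1, 14]]

def R15 : List (ℕ × ℕ × ℕ × ℕ) :=
  [(0, 4, 1, 5), (0, 6, 2, 7), (0, 8, 3, 9), (1, 10, 2, 11), (1, 12, 3, 13), (2, 14, 3, 14)]

theorem ks15 : KS 15 12 T15 M15 R15 where
  hd := by decide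
  h20 := by decide
  pa := by decide +kernel
  pc := by decide +kernel
  sp := by decide +kernel
  pt := by decide +kernel
  pw := by decide +kernel
  pcol := by decide +kernel

/-- the gadget of order `16` -/
def T16 : List (ℕ × ℕ × ℕ) :=
  [(0, 4, 1), (1, 5, 1), (0, 6, 2), (2, 7, 2), (0, 8, 3), (3, 9, 3), (1, 10, 4), (2, 11, 4),
    (1, 12, 5), (3, 13, 5), (2, 14, 6), (3, 15, 6)]

def M16 : List (List ℕ) :=
  [[0, 1, 2], [0, 1, 3], [0, 2, 3], [1, 2, 3], [2, 3, 4], [2, 3, 5], [1, 3, 6], [1, 3, 7],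
    [1, 2, 8], [1, 2, 9], [0, 3, 10], [0, 3, 11], [0, 2, 12], [0, 2, 13], [0, 1, 14], [0, 1, 15]]

def R16 : List (ℕ × ℕ × ℕ × ℕ) :=
  [(0, 4, 1, 5), (0, 6, 2, 7), (0, 8, 3, 9), (1, 10, 2, 11), (1, 12, 3, 13), (2, 14, 3, 15)]

theorem ks16 : KS 16 13 T16 M16 R16 where
  hd := by decide
  h20 := by decide
  pa := by decide +kernel
  pc := by decide +kernel
  sp := by decide +kernel
  pt := by decide +kernel
  pw := by decide +kernel
  pcol := by decide +kernel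

end Pool.Agent.Lib.MP44a765.XV
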