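import Pool.Agent.Lib.MP_44a765_co.XV.Count

/-!
# MP_44a765: joining an independent set with new colours
-/

set_option autoImplicit false

namespace Pool.Agent.Lib.MP44a765.XV

open Finset Pool.Agent.Lib.MP44a765

section

variable {V : Type}

/-- a rainbow `K_(s+1)` saturated graph whose rainbow `K_s` are robust -/
structure Good (s : ℕ) (G : SimpleGraph V) (c : Sym2 V → ℕ) : Prop where
  sat : Saturated (s + 1) G c
  avoid : ∀ w : V, ∃ T : Finset V, T.card = s ∧ w ∉ T ∧ RainbowClique G c T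
  col : ∀ α : ℕ, ∃ T : Finset V, T.card = s ∧ RainbowClique G c T ∧
    ∀ a ∈ T, ∀ b ∈ T, a ≠ b → c s(a, b) ≠ α

/-- the join with an independent set of size `m` -/
def JG (G : SimpleGraph V) (m : ℕ) : SimpleGraph (V ⊕ Fin m) where
  Adj x y := match x, y with
    | Sum.inl a, Sum.inl b => G.Adj a b
    | Sum.inl _, Sum.inr _ => True
    | Sum.inr _, Sum.inl _ => True
    | Sum.inr _, Sum.inr _ => False
  symm := ⟨by
    rintro (a | i) (b | j) h
    · exact SimpleGraph.Adj.symm (G := G) h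
    · trivial
    · trivial
    · exact h⟩
  loopless := ⟨by
    rintro (a | i) h
    · exact G.loopless.irrefl a h
    · exact h⟩

/-- the colour of a pair in the join -/
def jcol (c : Sym2 V → ℕ) (κ : V → ℕ) {m : ℕ} : V ⊕ Fin m → V ⊕ Fin m → ℕ
  | Sum.inl a, Sum.inl b => 2 * c s(a, b)
  | Sum.inl a, Sum.inr i => 2 * Nat.pair (κ a) i + 1
  | Sum.inr i, Sum.inl a => 2 * Nat.pair (κ a) i + 1
  | Sum.inr _, Sum.inr _ => 0

theorem jcol_symm (c : Sym2 V → ℕ) (κ : V → ℕ) {m : ℕ} (x y : V ⊕ Fin m) :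
    jcol c κ x y = jcol c κ y x := by
  rcases x with a | i <;> rcases y with b | j
  · simp only [jcol, Sym2.eq_swap]
  · rfl
  · rfl
  · rfl

/-- the colouring of the join -/
def JC (c : Sym2 V → ℕ) (κ : V → ℕ) (m : ℕ) : Sym2 (V ⊕ Fin m) → ℕ :=
  Sym2.lift ⟨jcol c κ, jcol_symm c κ⟩

theorem JC_ll (c : Sym2 V → ℕ) (κ : V → ℕ) (m : ℕ) (a b : V) :
    JC c κ m s(Sum.inl a, Sum.inl b) = 2 * c s(a, b) := rfl

theorem JC_lr (c : Sym2 V → ℕ) (κ : V → ℕ) (m : ℕ) (a : V) (i : Fin m) :
    JC c κ m s(Sum.inl a, Sum.inr i) = 2 * Nat.pair (κ a) i + 1 := rfl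

theorem JG_ll (G : SimpleGraph V) (m : ℕ) (a b : V) :
    (JG G m).Adj (Sum.inl a) (Sum.inl b) ↔ G.Adj a b := Iff.rfl

theorem JG_lr (G : SimpleGraph V) (m : ℕ) (a : V) (i : Fin m) :
    (JG G m).Adj (Sum.inl a) (Sum.inr i) := trivial

theorem JG_rr (G : SimpleGraph V) (m : ℕ) (i j : Fin m) :
    ¬ (JG G m).Adj (Sum.inr i) (Sum.inr j) := fun h => h

/-- the pairs inside `T ⊔ S` -/
theorem pair_cases {m : ℕ} (T : Finset V) (S : Finset (Fin m)) (x y : V ⊕ Fin m)
    (hx : x ∈ T.disjSum S) (hy : y ∈ T.disjSum S) (hxy : x ≠ y) :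
    (∃ a ∈ T, ∃ b ∈ T, a ≠ b ∧ s(x, y) = s(Sum.inl a, Sum.inl b)) ∨
    (∃ a ∈ T, ∃ i ∈ S, s(x, y) = s(Sum.inl a, Sum.inr i)) ∨
    (∃ i ∈ S, ∃ j ∈ S, i ≠ j ∧ s(x, y) = s(Sum.inr i, Sum.inr j)) := by
  rcases x with a | i <;> rcases y with b | j
  · left
    exact ⟨a, Finset.inl_mem_disjSum.mp hx, b, Finset.inl_mem_disjSum.mp hy,
      fun h => hxy (by rw [h]), rfl⟩
  · right; left
    exact ⟨a, Finset.inl_mem_disjSum.mp hx, j, Finset.inr_mem_disjSum.mp hy, rfl⟩
  · right; left
    exact ⟨b, Finset.inl_mem_disjSum.mp hy, i, Finset.inr_mem_disjSum.mp hx, Sym2.eq_swap⟩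
  · right; right
    exact ⟨i, Finset.inr_mem_disjSum.mp hx, j, Finset.inr_mem_disjSum.mp hy,
      fun h => hxy (by rw [h]), rfl⟩

/-- a criterion for rainbow cliques in modified joins -/
theorem rc_disj {m : ℕ} (κ : V → ℕ) (hκ : Function.Injective κ)
    (G' : SimpleGraph (V ⊕ Fin m)) (c' : Sym2 (V ⊕ Fin m) → ℕ)
    (T : Finset V) (S : Finset (Fin m)) (f : Sym2 V → ℕ) (α : ℕ)
    (h1 : ∀ a ∈ T, ∀ b ∈ T, a ≠ b → G'.Adj (Sum.inl a) (Sum.inl b))
    (h2 : ∀ a ∈ T, ∀ i ∈ S, G'.Adj (Sum.inl a) (Sum.inr i))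
    (h3 : ∀ i ∈ S, ∀ j ∈ S, i ≠ j → G'.Adj (Sum.inr i) (Sum.inr j))
    (c1 : ∀ a ∈ T, ∀ b ∈ T, a ≠ b → c' s(Sum.inl a, Sum.inl b) = f s(a, b))
    (c2 : ∀ a ∈ T, ∀ i ∈ S, c' s(Sum.inl a, Sum.inr i) = 2 * Nat.pair (κ a) i + 1)
    (c3 : ∀ i ∈ S, ∀ j ∈ S, i ≠ j → c' s(Sum.inr i, Sum.inr j) = α)
    (hS : S.card ≤ 2)
    (d1 : ∀ a ∈ T, ∀ b ∈ T, ∀ a' ∈ T, ∀ b' ∈ T, a ≠ b → a' ≠ b' → f s(a, b) = f s(a', b') →
      s(a, b) = s(a', b'))
    (d2 : ∀ a ∈ T, ∀ b ∈ T, a ≠ b → ∀ v ∈ T, ∀ i ∈ S, f s(a, b) ≠ 2 * Nat.pair (κ v) i + 1)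
    (d3 : ∀ i ∈ S, ∀ j ∈ S, i ≠ j → ∀ a ∈ T, ∀ b ∈ T, a ≠ b → f s(a, b) ≠ α)
    (d4 : ∀ i ∈ S, ∀ j ∈ S, i ≠ j → ∀ v ∈ T, ∀ k ∈ S, 2 * Nat.pair (κ v) k + 1 ≠ α) :
    RainbowClique G' c' (T.disjSum S) := by
  refine ⟨?_, ?_⟩
  · intro x hx y hy hxy
    rcases x with a | i <;> rcases y with b | j
    · exact h1 a (Finset.inl_mem_disjSum.mp hx) b (Finset.inl_mem_disjSum.mp hy)
        (fun h => hxy (by rw [h]))
    · exact h2 a (Finset.inl_mem_disjSum.mp hx) j (Finset.inr_mem_disjSum.mp hy)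
    · exact (h2 b (Finset.inl_mem_disjSum.mp hy) i (Finset.inr_mem_disjSum.mp hx)).symm
    · exact h3 i (Finset.inr_mem_disjSum.mp hx) j (Finset.inr_mem_disjSum.mp hy)
        (fun h => hxy (by rw [h]))
  · intro x hx y hy x' hx' y' hy' hxy hxy' he
    rcases pair_cases T S x y hx hy hxy with ⟨a, ha, b, hb, hab, e⟩ | ⟨a, ha, i, hi, e⟩ |
        ⟨i, hi, j, hj, hij, e⟩ <;>
      rcases pair_cases T S x' y' hx' hy' hxy' with ⟨a', ha', b', hb', hab', e'⟩ |
        ⟨a', ha', i', hi', e'⟩ | ⟨i', hi', j', hj', hij', e'⟩ <;>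
      rw [e, e'] at he ⊢
    · rw [c1 a ha b hb hab, c1 a' ha' b' hb' hab'] at he
      rcases Sym2.eq_iff.mp (d1 a ha b hb a' ha' b' hb' hab hab' he) with h | h
      · rw [h.1, h.2]
      · rw [h.1, h.2]; exact Sym2.eq_swap
    · rw [c1 a ha b hb hab, c2 a' ha' i' hi'] at he
      exact absurd he (d2 a ha b hb hab a' ha' i' hi')
    · rw [c1 a ha b hb hab, c3 i' hi' j' hj' hij'] at he
      exact absurd he (d3 i' hi' j' hj' hij' a ha b hb hab)
    · rw [c1 a' ha' b' hb' hab', c2 a ha i hi] at he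
      exact absurd he.symm (d2 a' ha' b' hb' hab' a ha i hi)
    · rw [c2 a ha i hi, c2 a' ha' i' hi'] at he
      have h5 : Nat.pair (κ a) i = Nat.pair (κ a') i' := by omega
      rw [Nat.pair_eq_pair] at h5
      rw [hκ h5.1, Fin.ext h5.2]
    · rw [c2 a ha i hi, c3 i' hi' j' hj' hij'] at he
      exact absurd he (d4 i' hi' j' hj' hij' a ha i hi)
    · rw [c1 a' ha' b' hb' hab', c3 i hi j hj hij] at he
      exact absurd he.symm (d3 i hi j hj hij a' ha' b' hb' hab')
    · rw [c2 a' ha' i' hi', c3 i hi j hj hij] at he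
      exact absurd he.symm (d4 i hi j hj hij a' ha' i' hi')
    · -- all of S
      have hS2 : S = {i, j} := by
        symm
        apply Finset.eq_of_subset_of_card_le
        · intro k hk
          rw [Finset.mem_insert, Finset.mem_singleton] at hk
          rcases hk with rfl | rfl <;> assumption
        · rw [Finset.card_pair hij]; exact hS
      have hi2 : i' = i ∨ i' = j := by
        have := hi'
        rw [hS2, Finset.mem_insert, Finset.mem_singleton] at this
        exact this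
      have hj2 : j' = i ∨ j' = j := by
        have := hj'
        rw [hS2, Finset.mem_insert, Finset.mem_singleton] at this
        exact this
      rcases hi2 with h | h <;> rcases hj2 with h' | h'
      · exact absurd (h.trans h'.symm) hij'
      · rw [h, h']
      · rw [h, h']; exact Sym2.eq_swap
      · exact absurd (h.trans h'.symm) hij'

/-- a colour of the new edges at a suitable new vertex can be avoided -/
theorem good_index {m : ℕ} (hm : 2 ≤ m) (κ : V → ℕ) (α : ℕ) :
    ∃ i : Fin m, ∀ v : V, 2 * Nat.pair (κ v) i + 1 ≠ α := by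
  by_contra hcon
  push Not at hcon
  obtain ⟨v, hv⟩ := hcon ⟨0, by omega⟩
  obtain ⟨w, hw⟩ := hcon ⟨1, by omega⟩
  have h : Nat.pair (κ v) 0 = Nat.pair (κ w) 1 := by
    have e1 : 2 * Nat.pair (κ v) 0 + 1 = α := hv
    have e2 : 2 * Nat.pair (κ w) 1 + 1 = α := hw
    omega
  rw [Nat.pair_eq_pair] at h
  omega

theorem mono_rc {G : SimpleGraph V} {c : Sym2 V → ℕ} {S T : Finset V} (h : RainbowClique G c T)
    (hST : S ⊆ T) : RainbowClique G c S :=
  ⟨fun a ha b hb => h.1 a (hST ha) b (hST hb), fun a ha b hb a' ha' b' hb' =>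
    h.2 a (hST ha) b (hST hb) a' (hST ha') b' (hST hb')⟩

/-- extending a rainbow clique of `G` by a new vertex -/
theorem rc_insert {G : SimpleGraph V} {c : Sym2 V → ℕ} {κ : V → ℕ} (hκ : Function.Injective κ)
    {m : ℕ} {T : Finset V} (hT : RainbowClique G c T) (i : Fin m) :
    RainbowClique (JG G m) (JC c κ m) (T.disjSum {i}) := by
  have hi : ∀ k ∈ ({i} : Finset (Fin m)), ∀ j ∈ ({i} : Finset (Fin m)), k ≠ j → False := by
    intro k hk j hj hkj
    rw [Finset.mem_singleton] at hk hj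
    exact hkj (hk.trans hj.symm)
  refine rc_disj κ hκ _ _ T {i} (fun e => 2 * c e) 0 (fun a ha b hb hab => hT.1 a ha b hb hab)
    (fun a _ k _ => JG_lr G m a k) (fun k hk j hj hkj => (hi k hk j hj hkj).elim)
    (fun a _ b _ _ => JC_ll c κ m a b) (fun a _ k _ => JC_lr c κ m a k)
    (fun k hk j hj hkj => (hi k hk j hj hkj).elim) (by simp)
    (fun a ha b hb a' ha' b' hb' hab hab' he => hT.2 a ha b hb a' ha' b' hb' hab hab' ?_)
    (fun a _ b _ _ v _ k _ h => ?_)
    (fun k hk j hj hkj => (hi k hk j hj hkj).elim)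
    (fun k hk j hj hkj => (hi k hk j hj hkj).elim)
  · have he' : 2 * c s(a, b) = 2 * c s(a', b') := he
    omega
  · have h' : 2 * c s(a, b) = 2 * Nat.pair (κ v) k + 1 := h
    omega

/-- no larger rainbow cliques in the join -/
theorem join_no {s : ℕ} {G : SimpleGraph V} {c : Sym2 V → ℕ} {κ : V → ℕ} {m : ℕ}
    (hno : ¬ HasRainbow G c (s + 1)) : ¬ HasRainbow (JG G m) (JC c κ m) (s + 2) := by
  rintro ⟨K, hK, hadj, hcol⟩
  have h1 : K.toRight.card ≤ 1 := by
    rw [Finset.card_le_one]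
    intro i hi j hj
    by_contra hij
    exact hadj (Sum.inr i) (Finset.mem_toRight.mp hi) (Sum.inr j) (Finset.mem_toRight.mp hj)
      (fun h => hij (Sum.inr.inj h))
  have h2 : K.toLeft.card + K.toRight.card = K.card := Finset.card_toLeft_add_card_toRight
  obtain ⟨T, hT1, hT2⟩ := Finset.exists_subset_card_eq (show s + 1 ≤ K.toLeft.card by omega)
  refine hno ⟨T, hT2, ?_⟩
  refine mono_rc (T := K.toLeft) ⟨fun a ha b hb hab => ?_, fun a ha b hb a' ha' b' hb' hab hab' he
    => ?_⟩ hT1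
  · exact hadj (Sum.inl a) (Finset.mem_toLeft.mp ha) (Sum.inl b) (Finset.mem_toLeft.mp hb)
      (fun h => hab (Sum.inl.inj h))
  · have h3 := hcol (Sum.inl a) (Finset.mem_toLeft.mp ha) (Sum.inl b) (Finset.mem_toLeft.mp hb)
      (Sum.inl a') (Finset.mem_toLeft.mp ha') (Sum.inl b') (Finset.mem_toLeft.mp hb')
      (fun h => hab (Sum.inl.inj h)) (fun h => hab' (Sum.inl.inj h))
      (by rw [JC_ll, JC_ll, he])
    rcases Sym2.eq_iff.mp h3 with h | h
    · rw [Sum.inl.inj h.1, Sum.inl.inj h.2]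
    · rw [Sum.inl.inj h.1, Sum.inl.inj h.2]; exact Sym2.eq_swap

/-- the join of a good graph with an independent set is good -/
theorem join_good [DecidableEq V] {s : ℕ} {G : SimpleGraph V} {c : Sym2 V → ℕ} {κ : V → ℕ}
    (hκ : Function.Injective κ) {m : ℕ} (hm : 2 ≤ m) (hG : Good s G c) :
    Good (s + 1) (JG G m) (JC c κ m) := by
  have hi0 : 0 < m := by omega
  refine ⟨⟨join_no hG.sat.1, ?_⟩, ?_, ?_⟩
  · -- saturated
    intro u v huv hn c' hc'
    set α := c' s(u, v) with hα
    rcases u with a | i <;> rcases v with b | j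
    · have hab : a ≠ b := fun h => huv (by rw [h])
      have hn' : ¬ G.Adj a b := hn
      obtain ⟨K, hK, hadj, hcol⟩ := hG.sat.2 a b hab hn' (Function.update c s(a, b) (α / 2))
        (fun e he => Function.update_of_ne he _ _)
      obtain ⟨i, hi⟩ := good_index hm κ α
      have hii : ∀ k ∈ ({i} : Finset (Fin m)), ∀ j ∈ ({i} : Finset (Fin m)), k ≠ j → False := by
        intro k hk j hj hkj
        rw [Finset.mem_singleton] at hk hj
        exact hkj (hk.trans hj.symm)
      refine ⟨K.disjSum {i}, by rw [Finset.card_disjSum, hK, Finset.card_singleton], ?_⟩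
      refine rc_disj κ hκ _ _ K {i} (fun e => if e = s(a, b) then α else 2 * c e) 0
        (fun p hp q hq hpq => ?_) (fun p _ k _ => ?_)
        (fun k hk j hj hkj => (hii k hk j hj hkj).elim) (fun p _ q _ _ => ?_)
        (fun p _ k _ => ?_) (fun k hk j hj hkj => (hii k hk j hj hkj).elim) (by simp)
        (fun p hp q hq p' hp' q' hq' hpq hpq' he => ?_) (fun p _ q _ _ w _ k hk h => ?_)
        (fun k hk j hj hkj => (hii k hk j hj hkj).elim)
        (fun k hk j hj hkj => (hii k hk j hj hkj).elim)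
      · have h1 := hadj p hp q hq hpq
        rw [SimpleGraph.sup_adj, SimpleGraph.edge_adj] at h1 ⊢
        rcases h1 with h1 | ⟨h1, h2⟩
        · exact Or.inl h1
        · right
          refine ⟨?_, fun h => h2 (Sum.inl.inj h)⟩
          rcases h1 with h1 | h1
          · left; rw [h1.1, h1.2]; exact ⟨rfl, rfl⟩
          · right; rw [h1.1, h1.2]; exact ⟨rfl, rfl⟩
      · rw [SimpleGraph.sup_adj]; exact Or.inl trivial
      · split_ifs with he
        · rw [hα]
          congr 1
          rcases Sym2.eq_iff.mp he with h | h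
          · rw [h.1, h.2]
          · rw [h.1, h.2]; exact Sym2.eq_swap
        · rw [hc' _ ?_, JC_ll]
          intro h
          apply he
          rcases Sym2.eq_iff.mp h with h | h
          · rw [Sum.inl.inj h.1, Sum.inl.inj h.2]
          · rw [Sum.inl.inj h.1, Sum.inl.inj h.2]; exact Sym2.eq_swap
      · rw [hc' _ ?_, JC_lr]
        intro h
        rcases Sym2.eq_iff.mp h with h | h
        · exact Sum.inr_ne_inl h.2
        · exact Sum.inr_ne_inl h.2
      · refine hcol p hp q hq p' hp' q' hq' hpq hpq' ?_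
        by_cases e1 : s(p, q) = s(a, b) <;> by_cases e2 : s(p', q') = s(a, b)
        · rw [e1, e2]
        · rw [if_pos e1, if_neg e2] at he
          rw [e1, Function.update_self, Function.update_of_ne e2]
          omega
        · rw [if_neg e1, if_pos e2] at he
          rw [e2, Function.update_self, Function.update_of_ne e1]
          omega
        · rw [if_neg e1, if_neg e2] at he
          rw [Function.update_of_ne e1, Function.update_of_ne e2]
          omega
      · rw [Finset.mem_singleton] at hk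
        subst hk
        split_ifs at h with he
        · exact hi w h.symm
        · omega
    · exact absurd (JG_lr G m a j) hn
    · exact absurd (JG_lr G m b i).symm hn
    · -- two new vertices
      have hij : i ≠ j := fun h => huv (by rw [h])
      obtain ⟨T, hT, hRC, hcolT, havT⟩ : ∃ T : Finset V, T.card = s ∧ RainbowClique G c T ∧
          (∀ a ∈ T, ∀ b ∈ T, a ≠ b → 2 * c s(a, b) ≠ α) ∧
          ∀ v ∈ T, ∀ k : Fin m, 2 * Nat.pair (κ v) k + 1 ≠ α := by
        by_cases h : ∃ (w : V) (k : Fin m), 2 * Nat.pair (κ w) k + 1 = α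
        · obtain ⟨w, k, hwk⟩ := h
          obtain ⟨T, h1, h2, h3⟩ := hG.avoid w
          refine ⟨T, h1, h3, fun a _ b _ _ h' => by omega, fun v hv k' h' => ?_⟩
          have h4 : Nat.pair (κ v) k' = Nat.pair (κ w) k := by omega
          rw [Nat.pair_eq_pair] at h4
          exact h2 (hκ h4.1 ▸ hv)
        · push Not at h
          obtain ⟨T, h1, h2, h3⟩ := hG.col (α / 2)
          exact ⟨T, h1, h2, fun a ha b hb hab h' => h3 a ha b hb hab (by omega),
            fun v _ k => h v k⟩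
      refine ⟨T.disjSum {i, j}, by rw [Finset.card_disjSum, hT, Finset.card_pair hij], ?_⟩
      have hsp : ∀ k ∈ ({i, j} : Finset (Fin m)), ∀ l ∈ ({i, j} : Finset (Fin m)), k ≠ l →
          s(k, l) = s(i, j) := by
        intro k hk l hl hkl
        rw [Finset.mem_insert, Finset.mem_singleton] at hk hl
        rcases hk with rfl | rfl <;> rcases hl with rfl | rfl
        · exact absurd rfl hkl
        · rfl
        · exact Sym2.eq_swap
        · exact absurd rfl hkl
      refine rc_disj κ hκ _ _ T {i, j} (fun e => 2 * c e) α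
        (fun a ha b hb hab => ?_) (fun a _ k _ => ?_) (fun k hk l hl hkl => ?_)
        (fun a _ b _ _ => ?_) (fun a _ k _ => ?_) (fun k hk l hl hkl => ?_)
        (Finset.card_le_two) (fun a ha b hb a' ha' b' hb' hab hab' he => ?_)
        (fun a _ b _ _ v _ k _ h => ?_)
        (fun k _ l _ _ a ha b hb hab => hcolT a ha b hb hab)
        (fun k _ l _ _ v hv k' _ => havT v hv k')
      · rw [SimpleGraph.sup_adj]; exact Or.inl (hRC.1 a ha b hb hab)
      · rw [SimpleGraph.sup_adj]; exact Or.inl trivial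
      · rw [SimpleGraph.sup_adj, SimpleGraph.edge_adj]
        right
        refine ⟨?_, fun h => hkl (Sum.inr.inj h)⟩
        rcases Sym2.eq_iff.mp (hsp k hk l hl hkl) with h | h
        · left; rw [h.1, h.2]; exact ⟨rfl, rfl⟩
        · right; rw [h.1, h.2]; exact ⟨rfl, rfl⟩
      · rw [hc' _ ?_, JC_ll]
        intro h
        rcases Sym2.eq_iff.mp h with h | h
        · exact Sum.inl_ne_inr h.1
        · exact Sum.inl_ne_inr h.1
      · rw [hc' _ ?_, JC_lr]
        intro h
        rcases Sym2.eq_iff.mp h with h | h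
        · exact Sum.inl_ne_inr h.1
        · exact Sum.inl_ne_inr h.1
      · rw [hα]
        congr 1
        rcases Sym2.eq_iff.mp (hsp k hk l hl hkl) with h | h
        · rw [h.1, h.2]
        · rw [h.1, h.2]; exact Sym2.eq_swap
      · refine hRC.2 a ha b hb a' ha' b' hb' hab hab' ?_
        have he' : 2 * c s(a, b) = 2 * c s(a', b') := he
        omega
      · have h' : 2 * c s(a, b) = 2 * Nat.pair (κ v) k + 1 := h
        omega
  · -- avoid
    rintro (a | i)
    · obtain ⟨T, h1, h2, h3⟩ := hG.avoid a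
      refine ⟨T.disjSum {⟨0, hi0⟩}, by rw [Finset.card_disjSum, h1, Finset.card_singleton],
        fun h => h2 (Finset.inl_mem_disjSum.mp h), rc_insert hκ h3 _⟩
    · obtain ⟨T, h1, h2, -⟩ := hG.col 0
      obtain ⟨j, hj⟩ : ∃ j : Fin m, j ≠ i := by
        by_cases h : (⟨0, hi0⟩ : Fin m) = i
        · refine ⟨⟨1, by omega⟩, fun h' => ?_⟩
          have := h.trans h'.symm
          simp at this
        · exact ⟨⟨0, hi0⟩, h⟩
      refine ⟨T.disjSum {j}, by rw [Finset.card_disjSum, h1, Finset.card_singleton],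
        fun h => ?_, rc_insert hκ h2 _⟩
      have := Finset.inr_mem_disjSum.mp h
      rw [Finset.mem_singleton] at this
      exact hj this.symm
  · -- colour
    intro α
    obtain ⟨i, hi⟩ := good_index hm κ α
    obtain ⟨T, h1, h2, h3⟩ := hG.col (α / 2)
    refine ⟨T.disjSum {i}, by rw [Finset.card_disjSum, h1, Finset.card_singleton],
      rc_insert hκ h2 _, fun x hx y hy hxy h => ?_⟩
    rcases pair_cases T {i} x y hx hy hxy with ⟨a, ha, b, hb, hab, e⟩ | ⟨a, ha, k, hk, e⟩ |
        ⟨k, hk, j, hj, hkj, e⟩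
    · rw [e, JC_ll] at h
      exact h3 a ha b hb hab (by omega)
    · rw [e, JC_lr] at h
      rw [Finset.mem_singleton] at hk
      subst hk
      exact hi a h
    · rw [Finset.mem_singleton] at hk hj
      exact hkj (hk.trans hj.symm)

end

/-- the number of edges of the join -/
theorem join_edges {V : Type} [Fintype V] [DecidableEq V] (G : SimpleGraph V) (m : ℕ) :
    (JG G m).edgeSet.ncard = G.edgeSet.ncard + Fintype.card V * m := by
  have h1 := two_edges (JG G m)
  have h2 := two_edges G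
  rw [Fintype.sum_sum_type] at h1
  have e1 : ∀ a : V, (nb (JG G m) (Sum.inl a)).card = (nb G a).card + m := by
    intro a
    have : nb (JG G m) (Sum.inl a) = (nb G a).disjSum Finset.univ := by
      ext x
      rcases x with b | i
      · rw [mem_nb, Finset.inl_mem_disjSum, mem_nb]; rfl
      · rw [mem_nb, Finset.inr_mem_disjSum]
        exact ⟨fun _ => Finset.mem_univ _, fun _ => trivial⟩
    rw [this, Finset.card_disjSum, Finset.card_univ, Fintype.card_fin]
  have e2 : ∀ i : Fin m, (nb (JG G m) (Sum.inr i)).card = Fintype.card V := by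
    intro i
    have : nb (JG G m) (Sum.inr i) = (Finset.univ : Finset V).disjSum ∅ := by
      ext x
      rcases x with b | j
      · rw [mem_nb, Finset.inl_mem_disjSum]
        exact ⟨fun _ => Finset.mem_univ _, fun _ => trivial⟩
      · rw [mem_nb, Finset.inr_mem_disjSum]
        exact ⟨fun h => h.elim, fun h => absurd h (Finset.notMem_empty _)⟩
    rw [this, Finset.card_disjSum, Finset.card_univ, Finset.card_empty, Nat.add_zero]
  simp only [e1, e2] at h1
  rw [Finset.sum_add_distrib, Finset.sum_const, Finset.sum_const, Finset.card_univ,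
    Finset.card_univ, Fintype.card_fin, smul_eq_mul, smul_eq_mul, ← h2] at h1
  have h3 : m * Fintype.card V = Fintype.card V * m := Nat.mul_comm _ _
  omega

end Pool.Agent.Lib.MP44a765.XV
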