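import Pool.Agent.Lib.MP_44a765_co.XV.Five

/-!
# MP_44a765: lower bounds for the number of edges of a saturated graph
-/

set_option autoImplicit false

namespace Pool.Agent.Lib.MP44a765.XV

open Finset Pool.Agent.Lib.MP44a765

section

variable {V : Type} [Fintype V] [DecidableEq V]

theorem inter_comm' (G : SimpleGraph V) (x y : V) : nb G y ∩ nb G x = nb G x ∩ nb G y :=
  Finset.inter_comm _ _

/-- the general bound for graphs in which non-adjacent vertices have at least `r` common
neighbours -/
theorem lower_gen (G : SimpleGraph V) (r : ℕ) (hr : 1 ≤ r) (hn : 4 * r ≤ Fintype.card V)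
    (hcom0 : ∀ u v : V, u ≠ v → ¬ G.Adj u v → r ≤ (nb G u ∩ nb G v).card) :
    r * (Fintype.card V - r) ≤ G.edgeSet.ncard := by
  have hne : Nonempty V := Fintype.card_pos_iff.mp (by omega)
  obtain ⟨x, hmin, hx⟩ := min_vertex G
  set n := Fintype.card V with hn'
  obtain ⟨m, hm⟩ : ∃ m, n = 4 * r + m := ⟨n - 4 * r, by omega⟩
  rcases hx with hx | ⟨y, hy⟩
  · have h1 : n - r = 3 * r + m := by omega
    rw [h1]
    obtain ⟨k, hk⟩ : ∃ k, n = k + 1 := ⟨n - 1, by omega⟩
    have h3 : n - 1 = k := by omega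
    rw [h3] at hx
    have h4 : k + 1 = 4 * r + m := by omega
    nlinarith
  · have hcom : ∀ y ∈ rest G x, r ≤ (nb G y ∩ nb G x).card := by
      intro z hz
      rw [inter_comm']
      exact hcom0 x z (mem_rest.mp hz).1.symm (mem_rest.mp hz).2
    have hdel : r ≤ (nb G x).card :=
      (hcom y hy).trans (Finset.card_le_card Finset.inter_subset_right)
    have h1 := murty G r x hcom hmin
    have h2 := deg_sum G x hmin
    have h3 := card_rest G x
    obtain ⟨t, ht⟩ : ∃ t, (nb G x).card = r + t := ⟨(nb G x).card - r, by omega⟩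
    rw [ht] at h1 h2 h3
    rw [← hn'] at h2 h3
    by_cases htr : r ≤ t
    · have h4 : n * (2 * r) ≤ n * (r + t) := Nat.mul_le_mul_left _ (by omega)
      have h5 : r * (n - r) ≤ r * n := Nat.mul_le_mul_left _ (Nat.sub_le _ _)
      nlinarith
    · obtain ⟨R, hR⟩ : ∃ R, (rest G x).card = R := ⟨_, rfl⟩
      rw [hR] at h1 h3
      have h5 : n - r = R + t + 1 := by omega
      rw [h5]
      have h6 : 2 * r ≤ R := by omega
      -- 2 (r + t) + R (2 r + t) ≥ 2 r (R + t + 1)
      have h7 : 2 * r * t ≤ R * t := Nat.mul_le_mul_right _ h6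
      have h7' : 2 * (r * t) ≤ R * t := by rw [← mul_assoc]; exact h7
      have h8 : R * (r + (r + t)) = 2 * (r * R) + R * t := by ring
      have h9 : r * (R + t + 1) = r * R + r * t + r := by ring
      rw [h8] at h1
      rw [h9]
      omega

/-- for every `r ≥ 5`: at least `r (n - r)` edges -/
theorem lower_r {r : ℕ} {G : SimpleGraph V} {c : Sym2 V → ℕ} (hS : Saturated r G c)
    (hr : 5 ≤ r) (hn : 4 * r ≤ Fintype.card V) :
    r * (Fintype.card V - r) ≤ G.edgeSet.ncard :=
  lower_gen G r (by omega) hn fun _ _ huv hnadj => common_ge_r hS hr huv hnadj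

theorem lower_three {G : SimpleGraph V} {c : Sym2 V → ℕ} (hS : Saturated 3 G c)
    (hn : 4 ≤ Fintype.card V) : 2 * Fintype.card V - 4 ≤ G.edgeSet.ncard := by
  have hne : Nonempty V := Fintype.card_pos_iff.mp (by omega)
  obtain ⟨x, hmin, hx⟩ := min_vertex G
  set n := Fintype.card V with hn'
  rcases hx with hx | ⟨y, hy⟩
  · obtain ⟨k, hk⟩ : ∃ k, n = k + 1 := ⟨n - 1, by omega⟩
    have h3 : n - 1 = k := by omega
    rw [h3] at hx
    have : 3 ≤ k := by omega
    have h4 : 2 * n - 4 = 2 * k - 2 := by omega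
    rw [h4]
    have h5 : 2 * (2 * k - 2) ≤ n * k := by
      have : 2 * (2 * k - 2) ≤ 4 * k := by omega
      have : 4 * k ≤ n * k := Nat.mul_le_mul_right _ (by omega)
      omega
    omega
  · have hcom : ∀ y ∈ rest G x, 2 ≤ (nb G y ∩ nb G x).card := by
      intro z hz
      rw [inter_comm']
      exact common_ge hS (le_refl 3) (mem_rest.mp hz).1.symm (mem_rest.mp hz).2
    have hdel : 2 ≤ (nb G x).card :=
      (hcom y hy).trans (Finset.card_le_card Finset.inter_subset_right)
    have h1 := murty G 2 x hcom hmin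
    have h2 := deg_sum G x hmin
    have h3 := card_rest G x
    rw [← hn'] at h2 h3
    obtain ⟨D, hD⟩ : ∃ D, (nb G x).card = D := ⟨_, rfl⟩
    obtain ⟨R, hR⟩ : ∃ R, (rest G x).card = R := ⟨_, rfl⟩
    rw [hD, hR] at h1 h3
    rw [hD] at h2 hdel
    by_cases h4 : 4 ≤ D
    · have : n * 4 ≤ n * D := Nat.mul_le_mul_left _ h4
      omega
    · have h5 : D = 2 ∨ D = 3 := by omega
      rcases h5 with h5 | h5
      · subst h5; omega
      · subst h5; omega

theorem lower_four {G : SimpleGraph V} {c : Sym2 V → ℕ} (hS : Saturated 4 G c)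
    (hn : 15 ≤ Fintype.card V) : 3 * Fintype.card V - 6 ≤ G.edgeSet.ncard := by
  have hne : Nonempty V := Fintype.card_pos_iff.mp (by omega)
  obtain ⟨x, hmin, hx⟩ := min_vertex G
  set n := Fintype.card V with hn'
  rcases hx with hx | ⟨y, hy⟩
  · have h5 : n * 14 ≤ n * (n - 1) := Nat.mul_le_mul_left _ (by omega)
    omega
  · have hcom : ∀ y ∈ rest G x, 3 ≤ (nb G y ∩ nb G x).card := by
      intro z hz
      rw [inter_comm']
      exact common_ge hS (by norm_num) (mem_rest.mp hz).1.symm (mem_rest.mp hz).2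
    have hdel : 3 ≤ (nb G x).card :=
      (hcom y hy).trans (Finset.card_le_card Finset.inter_subset_right)
    have h1 := murty G 3 x hcom hmin
    have h2 := deg_sum G x hmin
    have h3 := card_rest G x
    rw [← hn'] at h2 h3
    have hM : (nb G x).card = 3 → 6 ≤ ∑ v ∈ nb G x, (nb G v ∩ nb G x).card := by
      intro h3'
      have hW : nb G x ∩ nb G y = nb G x := by
        apply Finset.eq_of_subset_of_card_le Finset.inter_subset_left
        rw [← inter_comm', h3']
        exact hcom y hy
      have hadj : ∀ a ∈ nb G x, ∀ b ∈ nb G x, a ≠ b → G.Adj a b := by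
        intro a ha b hb hab
        obtain ⟨w, hw, hw'⟩ : ∃ w ∈ nb G x, w ∉ ({a, b} : Finset V) := by
          by_contra hcon
          push Not at hcon
          have := (Finset.card_le_card (show nb G x ⊆ {a, b} from hcon)).trans
            Finset.card_le_two
          omega
        have hF := forced hS (mem_rest.mp hy).1.symm (mem_rest.mp hy).2 (by rw [hW, h3'])
          (by rw [hW]; exact hw)
        rw [hW] at hF
        simp only [Finset.mem_insert, Finset.mem_singleton, not_or] at hw'
        exact hF.1 a (Finset.mem_insert_of_mem (Finset.mem_erase.mpr ⟨Ne.symm hw'.1, ha⟩)) b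
          (Finset.mem_insert_of_mem (Finset.mem_erase.mpr ⟨Ne.symm hw'.2, hb⟩)) hab
      have h4 : ∑ v ∈ nb G x, 2 ≤ ∑ v ∈ nb G x, (nb G v ∩ nb G x).card := by
        refine Finset.sum_le_sum fun v hv => ?_
        have h5 := nb_ge ((nb G x).erase v) v (Finset.erase_subset _ _) fun w hw =>
          hadj v hv w (Finset.mem_of_mem_erase hw) (Finset.ne_of_mem_erase hw).symm
        rw [Finset.card_erase_of_mem hv, h3'] at h5
        exact h5
      rw [Finset.sum_const, h3', smul_eq_mul] at h4
      exact h4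
    obtain ⟨M, hM'⟩ : ∃ M, ∑ v ∈ nb G x, (nb G v ∩ nb G x).card = M := ⟨_, rfl⟩
    rw [hM'] at hM h1
    obtain ⟨D, hD⟩ : ∃ D, (nb G x).card = D := ⟨_, rfl⟩
    obtain ⟨R, hR⟩ : ∃ R, (rest G x).card = R := ⟨_, rfl⟩
    rw [hD, hR] at h1 h3
    rw [hD] at h2 hdel hM
    by_cases h4 : 6 ≤ D
    · have : n * 6 ≤ n * D := Nat.mul_le_mul_left _ h4
      omega
    · have h5 : D = 3 ∨ D = 4 ∨ D = 5 := by omega
      rcases h5 with h5 | h5 | h5
      · subst h5
        have := hM rfl
        omega
      · subst h5; omega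
      · subst h5; omega

theorem lower_five {G : SimpleGraph V} {c : Sym2 V → ℕ} (hS : Saturated 5 G c)
    (hn : 33 ≤ Fintype.card V) : 5 * Fintype.card V - 16 ≤ G.edgeSet.ncard := by
  have hne : Nonempty V := Fintype.card_pos_iff.mp (by omega)
  obtain ⟨x, hmin, hx⟩ := min_vertex G
  set n := Fintype.card V with hn'
  rcases hx with hx | ⟨y, hy⟩
  · have h5 : n * 32 ≤ n * (n - 1) := Nat.mul_le_mul_left _ (by omega)
    omega
  · have hcom : ∀ y ∈ rest G x, 5 ≤ (nb G y ∩ nb G x).card := by
      intro z hz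
      rw [inter_comm']
      exact common_ge_r hS (le_refl 5) (mem_rest.mp hz).1.symm (mem_rest.mp hz).2
    have hdel : 5 ≤ (nb G x).card :=
      (hcom y hy).trans (Finset.card_le_card Finset.inter_subset_right)
    have h1 := murty G 5 x hcom hmin
    have h2 := deg_sum G x hmin
    have h3 := card_rest G x
    rw [← hn'] at h2 h3
    by_cases hD5 : (nb G x).card = 5
    · have h6 := five hS hy hD5
      have h7 := count G x
      have h8 : ∑ y ∈ rest G x, ((nb G y ∩ nb G x).card + (nb G y).card) =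
          ∑ y ∈ rest G x, (nb G y ∩ rest G x).card + (rest G x).card * 10 := by
        rw [← smul_eq_mul, ← Finset.sum_const, ← Finset.sum_add_distrib]
        refine Finset.sum_congr rfl fun z hz => ?_
        have h9 := nb_split_rest G x z hz
        have h10 : (nb G z ∩ nb G x).card = 5 := by
          apply le_antisymm
          · rw [← hD5]; exact Finset.card_le_card Finset.inter_subset_right
          · exact hcom z hz
        omega
      rw [h8] at h7
      omega
    · obtain ⟨D, hD⟩ : ∃ D, (nb G x).card = D := ⟨_, rfl⟩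
      obtain ⟨R, hR⟩ : ∃ R, (rest G x).card = R := ⟨_, rfl⟩
      rw [hD, hR] at h1 h3
      rw [hD] at h2 hdel hD5
      by_cases h4 : 10 ≤ D
      · have : n * 10 ≤ n * D := Nat.mul_le_mul_left _ h4
        omega
      · have h5 : D = 6 ∨ D = 7 ∨ D = 8 ∨ D = 9 := by omega
        rcases h5 with h5 | h5 | h5 | h5 <;> subst h5 <;> omega

end

end Pool.Agent.Lib.MP44a765.XV
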