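import Pool.Agent.Lib.MP_44a765_co.XV.Lower

/-!
# MP_44a765: exactly `r` common neighbours are possible for `r ≤ 9` only
-/

set_option autoImplicit false

namespace Pool.Agent.Lib.MP44a765.XV

open Finset Pool.Agent.Lib.MP44a765

section

variable {V : Type} [DecidableEq V]

/-- a family of sets of at most four points without a common point, for which every point of `W`
lies in a pair meeting all the sets: then `W` has at most nine points -/
theorem nine (W : Finset V) (F : Finset (Finset V)) (hF4 : ∀ Q ∈ F, Q.card ≤ 4)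
    (hno : ∀ v ∈ W, ∃ Q ∈ F, v ∉ Q)
    (hpart : ∀ w ∈ W, ∃ w' ∈ W, ∀ Q ∈ F, w ∈ Q ∨ w' ∈ Q) : W.card ≤ 9 := by
  classical
  rcases W.eq_empty_or_nonempty with hW | ⟨w0, hw0⟩
  · rw [hW, Finset.card_empty]; exact Nat.zero_le _
  -- a minimal subfamily without common point
  obtain ⟨H0, hH0, hmin⟩ := Finset.exists_min_image
    (F.powerset.filter (fun H => ∀ v ∈ W, ∃ Q ∈ H, v ∉ Q)) Finset.card
    ⟨F, Finset.mem_filter.mpr ⟨Finset.mem_powerset_self F, hno⟩⟩
  rw [Finset.mem_filter, Finset.mem_powerset] at hH0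
  obtain ⟨hsub, hH⟩ := hH0
  have hh : ∀ Q : Finset V, ∃ h : V, Q ∈ H0 →
      (h ∈ W ∧ (∀ Q' ∈ H0, Q' ≠ Q → h ∈ Q') ∧ h ∉ Q) := by
    intro Q
    by_cases hQ : Q ∈ H0
    · have h1 : ¬ ∀ v ∈ W, ∃ Q' ∈ H0.erase Q, v ∉ Q' := by
        intro hall
        have h2 := hmin (H0.erase Q) (Finset.mem_filter.mpr
          ⟨Finset.mem_powerset.mpr ((Finset.erase_subset _ _).trans hsub), hall⟩)
        rw [Finset.card_erase_of_mem hQ] at h2
        have : 0 < H0.card := Finset.card_pos.mpr ⟨Q, hQ⟩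
        omega
      push Not at h1
      obtain ⟨v, hv, hv'⟩ := h1
      refine ⟨v, fun _ => ⟨hv, fun Q' hQ' hne => hv' Q' (Finset.mem_erase.mpr ⟨hne, hQ'⟩), ?_⟩⟩
      obtain ⟨Q', hQ', hvQ'⟩ := hH v hv
      by_cases h3 : Q' = Q
      · rwa [← h3]
      · exact absurd (hv' Q' (Finset.mem_erase.mpr ⟨h3, hQ'⟩)) hvQ'
    · exact ⟨w0, fun h => absurd h hQ⟩
  choose h hh' using hh
  set H := H0.image h with hHdef
  have hinj : Set.InjOn h (H0 : Set (Finset V)) := by
    intro Q hQ Q' hQ' he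
    by_contra hne
    have h1 := (hh' Q hQ).2.1 Q' hQ' (Ne.symm hne)
    exact (hh' Q' hQ').2.2 (he ▸ h1)
  have hcard : H.card = H0.card := Finset.card_image_of_injOn hinj
  have hmem : ∀ Q ∈ H0, h Q ∈ H := fun Q hQ => Finset.mem_image_of_mem h hQ
  have hQH : ∀ Q ∈ H0, (Q \ H).card + (H0.card - 1) ≤ 4 := by
    intro Q hQ
    have h1 : H.erase (h Q) ⊆ Q ∩ H := by
      intro z hz
      have hz1 := Finset.mem_of_mem_erase hz
      obtain ⟨Q', hQ', rfl⟩ := Finset.mem_image.mp hz1
      have hne : Q ≠ Q' := fun he => Finset.ne_of_mem_erase hz (by rw [he])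
      exact Finset.mem_inter.mpr ⟨(hh' Q' hQ').2.1 Q hQ hne, hz1⟩
    have h2 := Finset.card_le_card h1
    rw [Finset.card_erase_of_mem (hmem Q hQ), hcard] at h2
    have h3 := Finset.card_sdiff_add_card_inter Q H
    have h4 := hF4 Q (hsub hQ)
    omega
  have hcover : W ⊆ H ∪ H0.biUnion (fun Q => Q \ H) := by
    intro w hw
    by_cases hwH : w ∈ H
    · exact Finset.mem_union_left _ hwH
    · apply Finset.mem_union_right
      rw [Finset.mem_biUnion]
      by_contra hcon
      push Not at hcon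
      obtain ⟨w', hw', hall⟩ := hpart w hw
      obtain ⟨Q, hQ, hwQ⟩ := hH w' hw'
      rcases hall Q (hsub hQ) with h1 | h1
      · exact hcon Q hQ (Finset.mem_sdiff.mpr ⟨h1, hwH⟩)
      · exact hwQ h1
  have h5 : W.card ≤ H0.card + ∑ Q ∈ H0, (Q \ H).card := by
    refine (Finset.card_le_card hcover).trans ((Finset.card_union_le _ _).trans ?_)
    rw [hcard]
    exact Nat.add_le_add_left Finset.card_biUnion_le _
  have h6 : ∑ Q ∈ H0, (Q \ H).card ≤ H0.card * (5 - H0.card) := by
    rw [← smul_eq_mul, ← Finset.sum_const]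
    refine Finset.sum_le_sum fun Q hQ => ?_
    have h7 := hQH Q hQ
    have : 0 < H0.card := Finset.card_pos.mpr ⟨Q, hQ⟩
    omega
  obtain ⟨Q0, hQ0, -⟩ := hH w0 hw0
  have h8 : H0.card ≤ 5 := by
    have h7 := hQH Q0 hQ0
    omega
  obtain ⟨k, hk⟩ : ∃ k, H0.card = k := ⟨_, rfl⟩
  rw [hk] at h5 h6 h8
  interval_cases k <;> omega

/-- a set which is not a rainbow clique contains at most four vertices witnessing this -/
theorem witness {G : SimpleGraph V} {c : Sym2 V → ℕ} {u : V} {X : Finset V}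
    (h : ¬ RainbowClique G c (insert u X)) :
    ∃ Q ⊆ X, Q.card ≤ 4 ∧ ¬ RainbowClique G c (insert u Q) := by
  have key : ∀ S : Finset V, S ⊆ insert u X → S.card ≤ 4 → ¬ RainbowClique G c S →
      ∃ Q ⊆ X, Q.card ≤ 4 ∧ ¬ RainbowClique G c (insert u Q) := by
    intro S hS hS4 hn
    refine ⟨S.erase u, fun z hz => ?_, (Finset.card_erase_le).trans hS4, fun hR => hn ?_⟩
    · rcases Finset.mem_insert.mp (hS (Finset.mem_of_mem_erase hz)) with h1 | h1
      · exact absurd h1 (Finset.ne_of_mem_erase hz)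
      · exact h1
    · refine ⟨fun a ha b hb => hR.1 a (sub' ha) b (sub' hb), fun a ha b hb a' ha' b' hb' =>
        hR.2 a (sub' ha) b (sub' hb) a' (sub' ha') b' (sub' hb')⟩
  by_contra hcon
  apply h
  refine ⟨fun a ha b hb hab => ?_, fun a ha b hb a' ha' b' hb' hab hab' he => ?_⟩
  · by_contra hn
    refine hcon (key {a, b} (fun z hz => ?_) (by
      rw [Finset.card_pair hab]; norm_num) fun hR => hn (hR.1 a (by simp) b (by simp) hab))
    rw [Finset.mem_insert, Finset.mem_singleton] at hz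
    rcases hz with rfl | rfl <;> assumption
  · by_contra hn
    refine hcon (key {a, b, a', b'} (fun z hz => ?_) Finset.card_le_four fun hR => hn
      (hR.2 a (by simp) b (by simp) a' (by simp) b' (by simp) hab hab' he))
    simp only [Finset.mem_insert, Finset.mem_singleton] at hz
    rcases hz with rfl | rfl | rfl | rfl <;> assumption
where
  sub' {V : Type} [DecidableEq V] {u : V} {S : Finset V} {z : V} (hz : z ∈ S) :
      z ∈ insert u (S.erase u) := by
    by_cases h : z = u
    · rw [h]; exact Finset.mem_insert_self _ _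
    · exact Finset.mem_insert_of_mem (Finset.mem_erase.mpr ⟨h, hz⟩)

end

section

variable {V : Type} [Fintype V] [DecidableEq V]

/-- for `r ≥ 10` there are at least `r + 1` common neighbours -/
theorem common_ge_succ {r : ℕ} {G : SimpleGraph V} {c : Sym2 V → ℕ} (hS : Saturated r G c)
    (hr : 10 ≤ r) {u v : V} (huv : u ≠ v) (hn : ¬ G.Adj u v) :
    r + 1 ≤ (nb G u ∩ nb G v).card := by
  classical
  have h1 := common_ge_r hS (by omega) huv hn
  by_contra hlt
  have hW : (nb G u ∩ nb G v).card = r := by omega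
  set W := nb G u ∩ nb G v with hWdef
  have huW : u ∉ W := notMem_W
  have h9 := nine W (W.powerset.filter
    (fun Q => Q.card ≤ 4 ∧ ¬ RainbowClique G c (insert u Q)))
    (fun Q hQ => (Finset.mem_filter.mp hQ).2.1) (fun w hw => ?_) (fun w hw => ?_)
  · omega
  · -- no common point
    have h2 : ¬ RainbowClique G c (insert u (W.erase w)) := by
      intro hR
      refine hS.1 ⟨insert u (W.erase w), ?_, hR⟩
      rw [Finset.card_insert_of_notMem (fun h => huW (Finset.mem_of_mem_erase h)),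
        Finset.card_erase_of_mem hw, hW]
      omega
    obtain ⟨Q, hQ, hQ4, hQn⟩ := witness h2
    refine ⟨Q, Finset.mem_filter.mpr ⟨Finset.mem_powerset.mpr
      (hQ.trans (Finset.erase_subset _ _)), hQ4, hQn⟩, fun h => ?_⟩
    exact Finset.ne_of_mem_erase (hQ h) rfl
  · obtain ⟨T, hT1, hT2, hwT, hR⟩ := sat_avoid hS huv hn w (mem_inter_ne hw)
    have h3 : (W \ T).card = 2 := by
      rw [Finset.card_sdiff_of_subset hT2, hW]; omega
    have h4 : w ∈ W \ T := Finset.mem_sdiff.mpr ⟨hw, hwT⟩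
    obtain ⟨w', hw'⟩ : ∃ w', (W \ T).erase w = {w'} := by
      rw [← Finset.card_eq_one, Finset.card_erase_of_mem h4, h3]
    have h5 : w' ∈ W \ T := Finset.mem_of_mem_erase (a := w) (by
      rw [hw']; exact Finset.mem_singleton_self _)
    refine ⟨w', (Finset.mem_sdiff.mp h5).1, fun Q hQ => ?_⟩
    rw [Finset.mem_filter, Finset.mem_powerset] at hQ
    by_contra hcon
    push Not at hcon
    apply hQ.2.2
    have h6 : Q ⊆ T := by
      intro z hz
      by_contra hzT
      have h7 : z ∈ (W \ T).erase w := Finset.mem_erase.mpr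
        ⟨fun h => hcon.1 (h ▸ hz), Finset.mem_sdiff.mpr ⟨hQ.1 hz, hzT⟩⟩
      rw [hw', Finset.mem_singleton] at h7
      exact hcon.2 (h7 ▸ hz)
    have h8 : insert u Q ⊆ insert u T := Finset.insert_subset_insert _ h6
    exact ⟨fun a ha b hb => hR.1 a (h8 ha) b (h8 hb), fun a ha b hb a' ha' b' hb' =>
      hR.2 a (h8 ha) b (h8 hb) a' (h8 ha') b' (h8 hb')⟩

/-- for every `r ≥ 10`: at least `(r + 1) (n - (r + 1))` edges -/
theorem lower_succ {r : ℕ} {G : SimpleGraph V} {c : Sym2 V → ℕ} (hS : Saturated r G c)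
    (hr : 10 ≤ r) (hn : 4 * (r + 1) ≤ Fintype.card V) :
    (r + 1) * (Fintype.card V - (r + 1)) ≤ G.edgeSet.ncard :=
  lower_gen G (r + 1) (by omega) hn fun _ _ huv hnadj => common_ge_succ hS hr huv hnadj

end

end Pool.Agent.Lib.MP44a765.XV
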