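import Pool.Agent.Lib.MP_44a765_co.Defs

/-!
# MP_44a765: common neighbours of non-adjacent vertices in saturated graphs
-/

set_option autoImplicit false

namespace Pool.Agent.Lib.MP44a765.XV

open Finset Pool.Agent.Lib.MP44a765

section

variable {V : Type} [Fintype V] [DecidableEq V]

open Classical in
/-- the neighbourhood as a finset -/
noncomputable def nb (G : SimpleGraph V) (v : V) : Finset V := univ.filter (fun w => G.Adj v w)

theorem mem_nb {G : SimpleGraph V} {v w : V} : w ∈ nb G v ↔ G.Adj v w := by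
  simp [nb]

theorem notMem_nb (G : SimpleGraph V) (v : V) : v ∉ nb G v := by
  rw [mem_nb]; exact G.loopless.irrefl v

/-- the consequence of saturation which is used everywhere -/
theorem sat_pair {r : ℕ} {G : SimpleGraph V} {c : Sym2 V → ℕ} (hS : Saturated r G c) {u v : V}
    (huv : u ≠ v) (hn : ¬ G.Adj u v) (α : ℕ) :
    ∃ T : Finset V, T.card + 2 = r ∧ T ⊆ nb G u ∩ nb G v ∧ RainbowClique G c (insert u T) ∧
      ∀ a ∈ insert u T, ∀ b ∈ insert u T, a ≠ b → c s(a, b) ≠ α := by
  obtain ⟨K, hKr, hadj, hcol⟩ := hS.2 u v huv hn (Function.update c s(u, v) α)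
    (fun e he => Function.update_of_ne he _ _)
  have hA : ∀ a b : V, (G ⊔ SimpleGraph.edge u v).Adj a b → s(a, b) ≠ s(u, v) → G.Adj a b := by
    intro a b hab hne
    rw [SimpleGraph.sup_adj, SimpleGraph.edge_adj] at hab
    rcases hab with h | h
    · exact h
    · exact absurd (Sym2.eq_iff.mpr h.1) hne
  have hRC : ∀ S : Finset V, S ⊆ K → (∀ a ∈ S, ∀ b ∈ S, s(a, b) ≠ s(u, v)) →
      RainbowClique G c S := by
    intro S hSK hne
    refine ⟨fun a ha b hb hab => hA a b (hadj a (hSK ha) b (hSK hb) hab) (hne a ha b hb),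
      fun a ha b hb a' ha' b' hb' hab hab' he => ?_⟩
    refine hcol a (hSK ha) b (hSK hb) a' (hSK ha') b' (hSK hb') hab hab' ?_
    rw [Function.update_of_ne (hne a ha b hb), Function.update_of_ne (hne a' ha' b' hb')]
    exact he
  have huK : u ∈ K := by
    by_contra h
    refine hS.1 ⟨K, hKr, hRC K (Finset.Subset.refl _) fun a ha b hb he => ?_⟩
    rcases Sym2.eq_iff.mp he with ⟨h1, -⟩ | ⟨-, h2⟩
    · exact h (h1 ▸ ha)
    · exact h (h2 ▸ hb)
  have hvK : v ∈ K := by
    by_contra h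
    refine hS.1 ⟨K, hKr, hRC K (Finset.Subset.refl _) fun a ha b hb he => ?_⟩
    rcases Sym2.eq_iff.mp he with ⟨-, h1⟩ | ⟨h2, -⟩
    · exact h (h1 ▸ hb)
    · exact h (h2 ▸ ha)
  have hsub : ∀ a ∈ K.erase v, ∀ b ∈ K.erase v, s(a, b) ≠ s(u, v) := by
    intro a ha b hb he
    rcases Sym2.eq_iff.mp he with ⟨-, h1⟩ | ⟨h2, -⟩
    · exact Finset.ne_of_mem_erase hb h1
    · exact Finset.ne_of_mem_erase ha h2
  have hins : insert u ((K.erase v).erase u) = K.erase v :=
    Finset.insert_erase (Finset.mem_erase.mpr ⟨huv, huK⟩)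
  refine ⟨(K.erase v).erase u, ?_, ?_, ?_, ?_⟩
  · rw [Finset.card_erase_of_mem (Finset.mem_erase.mpr ⟨huv, huK⟩),
      Finset.card_erase_of_mem hvK, hKr]
    have : 1 < K.card := Finset.one_lt_card.mpr ⟨u, huK, v, hvK, huv⟩
    omega
  · intro t ht
    have htu : t ≠ u := Finset.ne_of_mem_erase ht
    have htv : t ≠ v := Finset.ne_of_mem_erase (Finset.mem_of_mem_erase ht)
    have htK : t ∈ K := Finset.mem_of_mem_erase (Finset.mem_of_mem_erase ht)
    rw [Finset.mem_inter, mem_nb, mem_nb]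
    refine ⟨hA u t (hadj u huK t htK htu.symm) fun he => ?_,
      hA v t (hadj v hvK t htK htv.symm) fun he => ?_⟩
    · rcases Sym2.eq_iff.mp he with ⟨-, h1⟩ | ⟨h2, -⟩
      · exact htv h1
      · exact huv h2
    · rcases Sym2.eq_iff.mp he with ⟨h1, -⟩ | ⟨-, h2⟩
      · exact huv h1.symm
      · exact htu h2
  · rw [hins]
    exact hRC _ (Finset.erase_subset _ _) hsub
  · rw [hins]
    intro a ha b hb hab he
    have h1 := hcol a (Finset.mem_of_mem_erase ha) b (Finset.mem_of_mem_erase hb) u huK v hvK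
      hab huv (by rw [Function.update_of_ne (hsub a ha b hb), Function.update_self]; exact he)
    exact hsub a ha b hb h1

/-- a rainbow clique avoiding a given common neighbour -/
theorem sat_avoid {r : ℕ} {G : SimpleGraph V} {c : Sym2 V → ℕ} (hS : Saturated r G c) {u v : V}
    (huv : u ≠ v) (hn : ¬ G.Adj u v) (w : V) (hw : w ≠ u) :
    ∃ T : Finset V, T.card + 2 = r ∧ T ⊆ nb G u ∩ nb G v ∧ w ∉ T ∧
      RainbowClique G c (insert u T) := by
  obtain ⟨T, h1, h2, h3, h4⟩ := sat_pair hS huv hn (c s(u, w))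
  refine ⟨T, h1, h2, fun hwT => ?_, h3⟩
  exact h4 u (Finset.mem_insert_self _ _) w (Finset.mem_insert_of_mem hwT) hw.symm rfl

theorem mem_inter_ne {G : SimpleGraph V} {u v w : V} (hw : w ∈ nb G u ∩ nb G v) : w ≠ u := by
  rintro rfl
  exact notMem_nb G _ (Finset.mem_inter.mp hw).1

theorem common_ge {r : ℕ} {G : SimpleGraph V} {c : Sym2 V → ℕ} (hS : Saturated r G c)
    (hr : 3 ≤ r) {u v : V} (huv : u ≠ v) (hn : ¬ G.Adj u v) :
    r - 1 ≤ (nb G u ∩ nb G v).card := by
  obtain ⟨T, h1, h2, -, -⟩ := sat_pair hS huv hn 0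
  have hT : T.Nonempty := by rw [← Finset.card_pos]; omega
  obtain ⟨w, hw⟩ := hT
  obtain ⟨T', h1', h2', hwT', -⟩ := sat_avoid hS huv hn w (mem_inter_ne (h2 hw))
  have h3 : insert w T' ⊆ nb G u ∩ nb G v := Finset.insert_subset (h2 hw) h2'
  have h4 := Finset.card_le_card h3
  rw [Finset.card_insert_of_notMem hwT'] at h4
  omega

/-- If there are exactly `r - 1` common neighbours, the cliques avoiding one of them are
forced. -/
theorem forced {r : ℕ} {G : SimpleGraph V} {c : Sym2 V → ℕ} (hS : Saturated r G c) {u v : V}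
    (huv : u ≠ v) (hn : ¬ G.Adj u v) (hW : (nb G u ∩ nb G v).card + 1 = r) {w : V}
    (hw : w ∈ nb G u ∩ nb G v) :
    RainbowClique G c (insert u ((nb G u ∩ nb G v).erase w)) := by
  obtain ⟨T, h1, h2, h3, h4⟩ := sat_avoid hS huv hn w (mem_inter_ne hw)
  have h5 : T = (nb G u ∩ nb G v).erase w := by
    apply Finset.eq_of_subset_of_card_le
    · intro t ht
      exact Finset.mem_erase.mpr ⟨fun h => h3 (h ▸ ht), h2 ht⟩
    · rw [Finset.card_erase_of_mem hw]; omega
  rw [← h5]; exact h4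

theorem notMem_W {G : SimpleGraph V} {u v : V} : u ∉ nb G u ∩ nb G v := fun h =>
  notMem_nb G u (Finset.mem_inter.mp h).1

/-- If `W` has `r - 1 ≥ 4` elements and all the sets `u, W minus w` are rainbow cliques, there are
two equally coloured edges which together cover `W`. -/
theorem quad_pair {r : ℕ} {G : SimpleGraph V} {c : Sym2 V → ℕ} (hno : ¬ HasRainbow G c r)
    (hr : 5 ≤ r) {u : V} {W : Finset V} (huW : u ∉ W) (hW : W.card + 1 = r)
    (hF : ∀ w ∈ W, RainbowClique G c (insert u (W.erase w))) :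
    ∃ a ∈ W, ∃ b ∈ W, ∃ a' ∈ W, ∃ b' ∈ W, a ≠ b ∧ a' ≠ b' ∧ c s(a, b) = c s(a', b') ∧
      W ⊆ {a, b, a', b'} := by
  -- a set of at most `|W| - 1` elements of `W` misses one
  have hmiss : ∀ S : Finset V, S.card < W.card → ∃ w ∈ W, w ∉ S := fun S hSc => by
    by_contra hcon
    push Not at hcon
    exact absurd (Finset.card_le_card (show W ⊆ S from hcon)) (by omega)
  have hin : ∀ (w : V) (S : Finset V), w ∉ S → ∀ a ∈ insert u W, a ∈ S →
      a ∈ insert u (W.erase w) := by
    intro w S hwS a ha haS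
    rcases Finset.mem_insert.mp ha with rfl | h
    · exact Finset.mem_insert_self _ _
    · exact Finset.mem_insert_of_mem (Finset.mem_erase.mpr ⟨fun h' => hwS (h' ▸ haS), h⟩)
  have hadj : ∀ a ∈ insert u W, ∀ b ∈ insert u W, a ≠ b → G.Adj a b := by
    intro a ha b hb hab
    obtain ⟨w, hw, hwS⟩ := hmiss {a, b} (lt_of_le_of_lt Finset.card_le_two (by omega))
    exact (hF w hw).1 a (hin w _ hwS a ha (by simp)) b (hin w _ hwS b hb (by simp)) hab
  by_contra hcon
  refine hno ⟨insert u W, by rw [Finset.card_insert_of_notMem huW]; exact hW, hadj, ?_⟩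
  intro a ha b hb a' ha' b' hb' hab hab' he
  by_cases hall : W ⊆ ({a, b, a', b'} : Finset V)
  · -- all four are in W
    exfalso
    have h4 : 4 ≤ W.card := by omega
    have hc4 : ({a, b, a', b'} : Finset V).card ≤ 4 := Finset.card_le_four
    have hEq : W = {a, b, a', b'} := Finset.eq_of_subset_of_card_le hall (by omega)
    have haW : ∀ x : V, x = a ∨ x = b ∨ x = a' ∨ x = b' → x ∈ W := by
      intro x hx
      rw [hEq]; simp only [Finset.mem_insert, Finset.mem_singleton]; exact hx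
    exact hcon ⟨a, haW a (by simp), b, haW b (by simp), a', haW a' (by simp), b',
      haW b' (by simp), hab, hab', he, hall⟩
  · obtain ⟨w, hw, hwS⟩ := Finset.not_subset.mp hall
    exact (hF w hw).2 a (hin w _ hwS a ha (by simp)) b (hin w _ hwS b hb (by simp))
      a' (hin w _ hwS a' ha' (by simp)) b' (hin w _ hwS b' hb' (by simp)) hab hab' he

/-- a subset of four elements which misses one of two disjoint pairs each has at most two
elements -/
theorem card_le_two_of {T : Finset V} {a b a' b' : V} (hTs : T ⊆ {a, b, a', b'})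
    (m1 : ¬ (a ∈ T ∧ b ∈ T)) (m2 : ¬ (a' ∈ T ∧ b' ∈ T)) : T.card ≤ 2 := by
  have e1 : ∃ p, T ⊆ {p, a', b'} := by
    by_cases h : a ∈ T
    · refine ⟨a, fun t ht => ?_⟩
      have := hTs ht
      have hb' : t ≠ b := fun h' => m1 ⟨h, h' ▸ ht⟩
      simp only [Finset.mem_insert, Finset.mem_singleton] at this ⊢
      tauto
    · refine ⟨b, fun t ht => ?_⟩
      have := hTs ht
      have hb' : t ≠ a := fun h' => h (h' ▸ ht)
      simp only [Finset.mem_insert, Finset.mem_singleton] at this ⊢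
      tauto
  obtain ⟨p, hp⟩ := e1
  have e2 : ∃ q, T ⊆ {p, q} := by
    by_cases h : a' ∈ T
    · refine ⟨a', fun t ht => ?_⟩
      have := hp ht
      have hb' : t ≠ b' := fun h' => m2 ⟨h, h' ▸ ht⟩
      simp only [Finset.mem_insert, Finset.mem_singleton] at this ⊢
      tauto
    · refine ⟨b', fun t ht => ?_⟩
      have := hp ht
      have hb' : t ≠ a' := fun h' => h (h' ▸ ht)
      simp only [Finset.mem_insert, Finset.mem_singleton] at this ⊢
      tauto
  obtain ⟨q, hq⟩ := e2
  exact (Finset.card_le_card hq).trans Finset.card_le_two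

/-- a clique of `W` avoiding the colour of two equally coloured edges covering `W` has at most two
elements -/
theorem quad_two {c : Sym2 V → ℕ} {u a b a' b' : V} {T : Finset V} (hab : a ≠ b) (hab' : a' ≠ b')
    (hcc : c s(a, b) = c s(a', b')) (hsub : T ⊆ {a, b, a', b'})
    (hT : ∀ p ∈ insert u T, ∀ q ∈ insert u T, p ≠ q → c s(p, q) ≠ c s(a, b)) : T.card ≤ 2 :=
  card_le_two_of hsub
    (fun h => hT a (Finset.mem_insert_of_mem h.1) b (Finset.mem_insert_of_mem h.2) hab rfl)
    (fun h => hT a' (Finset.mem_insert_of_mem h.1) b' (Finset.mem_insert_of_mem h.2) hab'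
      hcc.symm)

/-- for `r ≥ 5` there are at least `r` common neighbours -/
theorem common_ge_r {r : ℕ} {G : SimpleGraph V} {c : Sym2 V → ℕ} (hS : Saturated r G c)
    (hr : 5 ≤ r) {u v : V} (huv : u ≠ v) (hn : ¬ G.Adj u v) :
    r ≤ (nb G u ∩ nb G v).card := by
  have h1 := common_ge hS (by omega) huv hn
  by_contra hlt
  have hW : (nb G u ∩ nb G v).card + 1 = r := by omega
  obtain ⟨a, ha, b, hb, a', ha', b', hb', hab, hab', hcc, hsub⟩ :=
    quad_pair hS.1 hr notMem_W hW (fun w hw => forced hS huv hn hW hw)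
  have h4 : (nb G u ∩ nb G v).card ≤ 4 := (Finset.card_le_card hsub).trans Finset.card_le_four
  obtain ⟨T, hT1, hT2, -, hT4⟩ := sat_pair hS huv hn (c s(a, b))
  have := quad_two hab hab' hcc (hT2.trans hsub) hT4
  omega

end

end Pool.Agent.Lib.MP44a765.XV
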