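import Pool.Agent.Lib.MP_44a765_co.XV.Nine

/-!
# MP_44a765: neighbourhoods of order `r` in saturated graphs, `6 ≤ r ≤ 9`
-/

set_option autoImplicit false

namespace Pool.Agent.Lib.MP44a765.XV

open Finset Pool.Agent.Lib.MP44a765

section

variable {V : Type} [Fintype V] [DecidableEq V]

theorem rc_mono {G : SimpleGraph V} {c : Sym2 V → ℕ} {u : V} {S T : Finset V}
    (h : RainbowClique G c (insert u T)) (hST : S ⊆ T) : RainbowClique G c (insert u S) := by
  have h8 : insert u S ⊆ insert u T := Finset.insert_subset_insert _ hST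
  exact ⟨fun a ha b hb => h.1 a (h8 ha) b (h8 hb), fun a ha b hb a' ha' b' hb' =>
    h.2 a (h8 ha) b (h8 hb) a' (h8 ha') b' (h8 hb')⟩

/-- witnesses with the shape of those of order 4 -/
theorem wit4 {G : SimpleGraph V} {c : Sym2 V → ℕ} {u : V} {X : Finset V}
    (h : ¬ RainbowClique G c (insert u X)) :
    ∃ Q ⊆ X, Q.card ≤ 4 ∧ ¬ RainbowClique G c (insert u Q) ∧
      (Q.card = 4 → ∃ a b a' b' : V, Q = {a, b, a', b'} ∧ a ≠ b ∧ a' ≠ b' ∧
        c s(a, b) = c s(a', b')) := by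
  have key : ∀ S : Finset V, S ⊆ insert u X → S.card ≤ 4 → ¬ RainbowClique G c S →
      (S.card = 4 → ∃ a b a' b' : V, S = {a, b, a', b'} ∧ a ≠ b ∧ a' ≠ b' ∧
        c s(a, b) = c s(a', b')) →
      ∃ Q ⊆ X, Q.card ≤ 4 ∧ ¬ RainbowClique G c (insert u Q) ∧
      (Q.card = 4 → ∃ a b a' b' : V, Q = {a, b, a', b'} ∧ a ≠ b ∧ a' ≠ b' ∧
        c s(a, b) = c s(a', b')) := by
    intro S hS hS4 hn hS'
    have sub' : S ⊆ insert u (S.erase u) := by
      intro z hz
      by_cases h : z = u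
      · rw [h]; exact Finset.mem_insert_self _ _
      · exact Finset.mem_insert_of_mem (Finset.mem_erase.mpr ⟨h, hz⟩)
    refine ⟨S.erase u, fun z hz => ?_, (Finset.card_erase_le).trans hS4, fun hR => hn ?_,
      fun h4 => ?_⟩
    · rcases Finset.mem_insert.mp (hS (Finset.mem_of_mem_erase hz)) with h1 | h1
      · exact absurd h1 (Finset.ne_of_mem_erase hz)
      · exact h1
    · refine ⟨fun a ha b hb => hR.1 a (sub' ha) b (sub' hb), fun a ha b hb a' ha' b' hb' =>
        hR.2 a (sub' ha) b (sub' hb) a' (sub' ha') b' (sub' hb')⟩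
    · have h5 : S.erase u = S := by
        apply Finset.eq_of_subset_of_card_le (Finset.erase_subset _ _)
        omega
      rw [h5] at h4 ⊢
      exact hS' h4
  by_contra hcon
  apply h
  refine ⟨fun a ha b hb hab => ?_, fun a ha b hb a' ha' b' hb' hab hab' he => ?_⟩
  · by_contra hn
    refine hcon (key {a, b} (fun z hz => ?_) (by
      rw [Finset.card_pair hab]; norm_num) (fun hR => hn (hR.1 a (by simp) b (by simp) hab))
      (fun h4 => ?_))
    · rw [Finset.mem_insert, Finset.mem_singleton] at hz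
      rcases hz with rfl | rfl <;> assumption
    · rw [Finset.card_pair hab] at h4
      omega
  · by_contra hn
    refine hcon (key {a, b, a', b'} (fun z hz => ?_) Finset.card_le_four (fun hR => hn
      (hR.2 a (by simp) b (by simp) a' (by simp) b' (by simp) hab hab' he))
      (fun _ => ⟨a, b, a', b', rfl, hab, hab', he⟩))
    simp only [Finset.mem_insert, Finset.mem_singleton] at hz
    rcases hz with rfl | rfl | rfl | rfl <;> assumption

/-- the situation of a vertex `u` with neighbourhood `N` of order `r` -/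
structure Hd (r : ℕ) (G : SimpleGraph V) (c : Sym2 V → ℕ) (u : V) (N : Finset V) : Prop where
  card : N.card = r
  notMem : u ∉ N
  no : ¬ HasRainbow G c r
  tri : ∀ α : ℕ, ∃ T : Finset V, T.card + 2 = r ∧ T ⊆ N ∧ RainbowClique G c (insert u T) ∧
      ∀ a ∈ insert u T, ∀ b ∈ insert u T, a ≠ b → c s(a, b) ≠ α

variable {r : ℕ} {G : SimpleGraph V} {c : Sym2 V → ℕ} {u : V} {N : Finset V}

theorem Hd.avoid (h : Hd r G c u N) {w : V} (hw : w ∈ N) : ∃ T : Finset V, T.card + 2 = r ∧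
    T ⊆ N.erase w ∧ RainbowClique G c (insert u T) := by
  obtain ⟨T, h1, h2, h3, h4⟩ := h.tri (c s(u, w))
  refine ⟨T, h1, fun t ht => Finset.mem_erase.mpr ⟨fun h' => ?_, h2 ht⟩, h3⟩
  subst h'
  exact h4 u (Finset.mem_insert_self _ _) t (Finset.mem_insert_of_mem ht)
    (fun h' => h.notMem (h' ▸ hw)) rfl

/-- `N` minus one vertex is not rainbow -/
theorem Hd.not_rc (h : Hd r G c u N) {p : V} (hp : p ∈ N) :
    ¬ RainbowClique G c (insert u (N.erase p)) := by
  intro hR
  refine h.no ⟨insert u (N.erase p), ?_, hR⟩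
  rw [Finset.card_insert_of_notMem (fun h' => h.notMem (Finset.mem_of_mem_erase h')),
    Finset.card_erase_of_mem hp, h.card]
  have : 0 < N.card := Finset.card_pos.mpr ⟨p, hp⟩
  have := h.card
  omega

/-- a clique of order `r - 2` missing three vertices is impossible -/
theorem miss3 {T : Finset V} (hc : N.card = r) (hT : T.card + 2 = r) (hTN : T ⊆ N) {a b d : V}
    (ha : a ∈ N) (hb : b ∈ N) (hd : d ∈ N) (hab : a ≠ b) (had : a ≠ d) (hbd : b ≠ d)
    (ha' : a ∉ T) (hb' : b ∉ T) (hd' : d ∉ T) : False := by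
  have h1 : T ⊆ ((N.erase a).erase b).erase d := by
    intro t ht
    exact Finset.mem_erase.mpr ⟨fun h => hd' (h ▸ ht), Finset.mem_erase.mpr
      ⟨fun h => hb' (h ▸ ht), Finset.mem_erase.mpr ⟨fun h => ha' (h ▸ ht), hTN ht⟩⟩⟩
  have h2 := Finset.card_le_card h1
  rw [Finset.card_erase_of_mem (Finset.mem_erase.mpr ⟨hbd.symm, Finset.mem_erase.mpr
      ⟨had.symm, hd⟩⟩), Finset.card_erase_of_mem (Finset.mem_erase.mpr ⟨hab.symm, hb⟩),
    Finset.card_erase_of_mem ha, hc] at h2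
  have : 0 < T.card + 2 := by omega
  have h3 : 3 ≤ N.card := by
    have h4 : ({a, b, d} : Finset V) ⊆ N := by
      intro z hz
      simp only [Finset.mem_insert, Finset.mem_singleton] at hz
      rcases hz with rfl | rfl | rfl <;> assumption
    have h5 := Finset.card_le_card h4
    have h6 : ({a, b, d} : Finset V).card = 3 := by
      rw [Finset.card_insert_of_notMem, Finset.card_pair hbd]
      simp [hab, had]
    omega
  omega

/-- a clique of order `r - 2` which misses two vertices contains all the others -/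
theorem miss2 {T : Finset V} (hc : N.card = r) (hT : T.card + 2 = r) (hTN : T ⊆ N) {a b z : V}
    (ha : a ∈ N) (hb : b ∈ N) (hab : a ≠ b) (ha' : a ∉ T) (hb' : b ∉ T) (hz : z ∈ N)
    (hza : z ≠ a) (hzb : z ≠ b) : z ∈ T := by
  by_contra hzT
  exact miss3 hc hT hTN ha hb hz hab hza.symm hzb.symm ha' hb' hzT

/-- for a non-edge `p q` and another vertex `w`: one of the pairs `w p`, `w q` can be removed -/
theorem Hd.pair (h : Hd r G c u N) {p q w : V} (hp : p ∈ N) (hq : q ∈ N) (hw : w ∈ N)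
    (hpq : p ≠ q) (hwp : w ≠ p) (hwq : w ≠ q) (hn : ¬ G.Adj p q) :
    RainbowClique G c (insert u ((N.erase w).erase p)) ∨
    RainbowClique G c (insert u ((N.erase w).erase q)) := by
  obtain ⟨T, h1, h2, h3⟩ := h.avoid hw
  have hTN : T ⊆ N := h2.trans (Finset.erase_subset _ _)
  have hwT : w ∉ T := fun h' => Finset.ne_of_mem_erase (h2 h') rfl
  by_cases hpT : p ∈ T
  · have hqT : q ∉ T := fun h' => not_both h3 hpq hn ⟨hpT, h'⟩
    right
    refine rc_mono h3 fun z hz => ?_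
    exact miss2 h.card h1 hTN hw hq hwq hwT hqT
      (Finset.mem_of_mem_erase (Finset.mem_of_mem_erase hz))
      (Finset.ne_of_mem_erase (Finset.mem_of_mem_erase hz)) (Finset.ne_of_mem_erase hz)
  · left
    refine rc_mono h3 fun z hz => ?_
    exact miss2 h.card h1 hTN hw hp hwp hwT hpT
      (Finset.mem_of_mem_erase (Finset.mem_of_mem_erase hz))
      (Finset.ne_of_mem_erase (Finset.mem_of_mem_erase hz)) (Finset.ne_of_mem_erase hz)

/-- Step 1: the vertices different from `p, q` form a rainbow clique with `u` -/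
theorem Hd.step1 (h : Hd r G c u N) (hr : 6 ≤ r) {p q : V} (hp : p ∈ N) (hq : q ∈ N)
    (hpq : p ≠ q) (hn : ¬ G.Adj p q) :
    RainbowClique G c (insert u ((N.erase p).erase q)) := by
  by_contra hR
  obtain ⟨Q, hQ1, hQ4, hQn, hQ5⟩ := wit4 hR
  have hqm : q ∈ N.erase p := Finset.mem_erase.mpr ⟨hpq.symm, hq⟩
  have hCc : ((N.erase p).erase q).card = r - 2 := by
    rw [Finset.card_erase_of_mem hqm, Finset.card_erase_of_mem hp, h.card]; omega
  have hCQ : (N.erase p).erase q ⊆ Q := by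
    intro w hw
    have hwq := Finset.ne_of_mem_erase hw
    have hwp := Finset.ne_of_mem_erase (Finset.mem_of_mem_erase hw)
    have hwN := Finset.mem_of_mem_erase (Finset.mem_of_mem_erase hw)
    by_contra hwQ
    have hQs : ∀ z ∈ Q, z ∈ N ∧ z ≠ w ∧ z ≠ p ∧ z ≠ q := fun z hz =>
      ⟨Finset.mem_of_mem_erase (Finset.mem_of_mem_erase (hQ1 hz)), fun h' => hwQ (h' ▸ hz),
        Finset.ne_of_mem_erase (Finset.mem_of_mem_erase (hQ1 hz)),
        Finset.ne_of_mem_erase (hQ1 hz)⟩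
    rcases h.pair hp hq hwN hpq hwp hwq hn with h1 | h1
    · refine hQn (rc_mono h1 fun z hz => ?_)
      obtain ⟨z1, z2, z3, z4⟩ := hQs z hz
      exact Finset.mem_erase.mpr ⟨z3, Finset.mem_erase.mpr ⟨z2, z1⟩⟩
    · refine hQn (rc_mono h1 fun z hz => ?_)
      obtain ⟨z1, z2, z3, z4⟩ := hQs z hz
      exact Finset.mem_erase.mpr ⟨z4, Finset.mem_erase.mpr ⟨z2, z1⟩⟩
  have h1 := Finset.card_le_card hCQ
  have hQc : Q.card = 4 := by omega
  have hr6 : r = 6 := by omega
  obtain ⟨a, b, a', b', hQe, hab, hab', hcc⟩ := hQ5 hQc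
  obtain ⟨T, hT1, hT2, hT3, hT4⟩ := h.tri (c s(a, b))
  have m1 : ¬ (a ∈ T ∧ b ∈ T) := fun h' =>
    hT4 a (Finset.mem_insert_of_mem h'.1) b (Finset.mem_insert_of_mem h'.2) hab rfl
  have m2 : ¬ (a' ∈ T ∧ b' ∈ T) := fun h' =>
    hT4 a' (Finset.mem_insert_of_mem h'.1) b' (Finset.mem_insert_of_mem h'.2) hab' hcc.symm
  have h2 : (T ∩ Q).card ≤ 2 := by
    apply card_le_two_of (a := a) (b := b) (a' := a') (b' := b')
    · rw [← hQe]; exact Finset.inter_subset_right
    · exact fun h' => m1 ⟨(Finset.mem_inter.mp h'.1).1, (Finset.mem_inter.mp h'.2).1⟩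
    · exact fun h' => m2 ⟨(Finset.mem_inter.mp h'.1).1, (Finset.mem_inter.mp h'.2).1⟩
  have h3 : (T \ Q).card ≤ 1 := by
    rw [Finset.card_le_one]
    have key : ∀ z ∈ T \ Q, z = p ∨ z = q := by
      intro z hz
      rw [Finset.mem_sdiff] at hz
      by_contra hcon
      push Not at hcon
      exact hz.2 (hCQ (Finset.mem_erase.mpr ⟨hcon.2, Finset.mem_erase.mpr ⟨hcon.1, hT2 hz.1⟩⟩))
    intro z hz z' hz'
    have hzT := (Finset.mem_sdiff.mp hz).1
    have hzT' := (Finset.mem_sdiff.mp hz').1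
    have hnb := not_both hT3 hpq hn
    rcases key z hz with h4 | h4 <;> rcases key z' hz' with h5 | h5
    · rw [h4, h5]
    · exact absurd ⟨h4 ▸ hzT, h5 ▸ hzT'⟩ hnb
    · exact absurd ⟨h5 ▸ hzT', h4 ▸ hzT⟩ hnb
    · rw [h4, h5]
  have h4 := Finset.card_sdiff_add_card_inter T Q
  omega

/-- the witness for `N` minus `p` contains `q` -/
theorem Hd.wit (h : Hd r G c u N) (hr : 6 ≤ r) {p q : V} (hp : p ∈ N) (hq : q ∈ N)
    (hpq : p ≠ q) (hn : ¬ G.Adj p q) :
    ∃ Q ⊆ N.erase p, Q.card ≤ 4 ∧ ¬ RainbowClique G c (insert u Q) ∧ q ∈ Q ∧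
      (Q.card = 4 → ∃ a b a' b' : V, Q = {a, b, a', b'} ∧ a ≠ b ∧ a' ≠ b' ∧
        c s(a, b) = c s(a', b')) := by
  obtain ⟨Q, hQ1, hQ4, hQn, hQ5⟩ := wit4 (h.not_rc hp)
  refine ⟨Q, hQ1, hQ4, hQn, ?_, hQ5⟩
  by_contra hqQ
  exact hQn (rc_mono (h.step1 hr hp hq hpq hn) fun z hz =>
    Finset.mem_erase.mpr ⟨fun h' => hqQ (h' ▸ hz), hQ1 hz⟩)

/-- Step 2: no two non-edges with a common vertex -/
theorem Hd.step2 (h : Hd r G c u N) (hr : 6 ≤ r) {p q q' : V} (hp : p ∈ N) (hq : q ∈ N)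
    (hq' : q' ∈ N) (hpq : p ≠ q) (hpq' : p ≠ q') (hqq : q ≠ q') (hn : ¬ G.Adj p q)
    (hn' : ¬ G.Adj p q') : False := by
  obtain ⟨Q, hQ1, hQ4, hQn, hqQ, -⟩ := h.wit hr hp hq hpq hn
  have hqQ' : q' ∈ Q := by
    by_contra hcon
    exact hQn (rc_mono (h.step1 hr hp hq' hpq' hn') fun z hz =>
      Finset.mem_erase.mpr ⟨fun h' => hcon (h' ▸ hz), hQ1 hz⟩)
  have hsub : N.erase p ⊆ Q := by
    intro w hw
    have hwp := Finset.ne_of_mem_erase hw
    have hwN := Finset.mem_of_mem_erase hw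
    by_cases hwq : w = q
    · rw [hwq]; exact hqQ
    by_cases hwq' : w = q'
    · rw [hwq']; exact hqQ'
    by_contra hwQ
    obtain ⟨T, h1, h2, h3⟩ := h.avoid hwN
    have hTN : T ⊆ N := h2.trans (Finset.erase_subset _ _)
    have hwT : w ∉ T := fun h' => Finset.ne_of_mem_erase (h2 h') rfl
    have hpT : p ∉ T := by
      intro hpT
      have hqT : q ∉ T := fun h' => not_both h3 hpq hn ⟨hpT, h'⟩
      have hqT' : q' ∉ T := fun h' => not_both h3 hpq' hn' ⟨hpT, h'⟩
      exact miss3 h.card h1 hTN hwN hq hq' hwq hwq' hqq hwT hqT hqT'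
    refine hQn (rc_mono h3 fun z hz => ?_)
    exact miss2 h.card h1 hTN hwN hp hwp hwT hpT (Finset.mem_of_mem_erase (hQ1 hz))
      (fun h' => hwQ (h' ▸ hz)) (Finset.ne_of_mem_erase (hQ1 hz))
  have h1 := Finset.card_le_card hsub
  rw [Finset.card_erase_of_mem hp, h.card] at h1
  omega

/-- there is at most one non-edge -/
theorem Hd.uniq (h : Hd r G c u N) (hr : 6 ≤ r) {p q : V} (hp : p ∈ N) (hq : q ∈ N)
    (hpq : p ≠ q) (hn : ¬ G.Adj p q) {s t : V} (hs : s ∈ N) (ht : t ∈ N) (hst : s ≠ t)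
    (hnst : ¬ G.Adj s t) : (s = p ∧ t = q) ∨ (s = q ∧ t = p) := by
  by_cases hsp : s = p
  · left
    refine ⟨hsp, ?_⟩
    by_contra htq
    subst hsp
    exact h.step2 hr hs hq ht hpq hst (Ne.symm htq) hn hnst
  by_cases hsq : s = q
  · right
    refine ⟨hsq, ?_⟩
    by_contra htp
    subst hsq
    exact h.step2 hr hs hp ht hpq.symm hst (Ne.symm htp) (fun h' => hn h'.symm) hnst
  by_cases htp : t = p
  · exfalso
    subst htp
    exact h.step2 hr ht hq hs hpq hst.symm (Ne.symm hsq) hn (fun h' => hnst h'.symm)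
  by_cases htq : t = q
  · exfalso
    subst htq
    exact h.step2 hr ht hp hs hpq.symm hst.symm (Ne.symm hsp) (fun h' => hn h'.symm)
      (fun h' => hnst h'.symm)
  exfalso
  exact hnst ((h.step1 hr hp hq hpq hn).1 s
    (Finset.mem_insert_of_mem (Finset.mem_erase.mpr ⟨hsq, Finset.mem_erase.mpr ⟨hsp, hs⟩⟩)) t
    (Finset.mem_insert_of_mem (Finset.mem_erase.mpr ⟨htq, Finset.mem_erase.mpr ⟨htp, ht⟩⟩)) hst)

open Classical in
/-- the vertices which can be removed together with `p` -/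
noncomputable def AA (G : SimpleGraph V) (c : Sym2 V → ℕ) (u : V) (N : Finset V) (p q : V) :
    Finset V :=
  ((N.erase p).erase q).filter (fun w => RainbowClique G c (insert u ((N.erase w).erase p)))

theorem mem_AA {p q w : V} : w ∈ AA G c u N p q ↔ w ∈ (N.erase p).erase q ∧
    RainbowClique G c (insert u ((N.erase w).erase p)) := by
  simp only [AA, Finset.mem_filter]

/-- the vertices removable with `p` lie in every witness for `N` minus `p` -/
theorem AA_sub {p q : V} {Q : Finset V} (hQ1 : Q ⊆ N.erase p)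
    (hQn : ¬ RainbowClique G c (insert u Q)) : AA G c u N p q ⊆ Q.erase q := by
  intro w hw
  obtain ⟨h1, h2⟩ := mem_AA.mp hw
  refine Finset.mem_erase.mpr ⟨Finset.ne_of_mem_erase h1, ?_⟩
  by_contra hwQ
  exact hQn (rc_mono h2 fun z hz => Finset.mem_erase.mpr ⟨Finset.ne_of_mem_erase (hQ1 hz),
    Finset.mem_erase.mpr ⟨fun h' => hwQ (h' ▸ hz), Finset.mem_of_mem_erase (hQ1 hz)⟩⟩)

theorem Hd.cover (h : Hd r G c u N) {p q : V} (hp : p ∈ N) (hq : q ∈ N)
    (hpq : p ≠ q) (hn : ¬ G.Adj p q) :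
    (N.erase p).erase q ⊆ AA G c u N p q ∪ AA G c u N q p := by
  intro w hw
  have hwq := Finset.ne_of_mem_erase hw
  have hwp := Finset.ne_of_mem_erase (Finset.mem_of_mem_erase hw)
  have hwN := Finset.mem_of_mem_erase (Finset.mem_of_mem_erase hw)
  rcases h.pair hp hq hwN hpq hwp hwq hn with h1 | h1
  · exact Finset.mem_union_left _ (mem_AA.mpr ⟨hw, h1⟩)
  · refine Finset.mem_union_right _ (mem_AA.mpr ⟨?_, h1⟩)
    exact Finset.mem_erase.mpr ⟨hwp, Finset.mem_erase.mpr ⟨hwq, hwN⟩⟩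

theorem Hd.card_C (h : Hd r G c u N) {p q : V} (hp : p ∈ N) (hq : q ∈ N) (hpq : p ≠ q) :
    ((N.erase p).erase q).card + 2 = r := by
  rw [Finset.card_erase_of_mem (Finset.mem_erase.mpr ⟨hpq.symm, hq⟩),
    Finset.card_erase_of_mem hp, h.card]
  have h1 : 2 ≤ N.card := by
    have h4 : ({p, q} : Finset V) ⊆ N := by
      intro z hz
      simp only [Finset.mem_insert, Finset.mem_singleton] at hz
      rcases hz with rfl | rfl <;> assumption
    have h5 := Finset.card_le_card h4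
    rwa [Finset.card_pair hpq] at h5
  have := h.card
  omega

/-- a four element witness yields a vertex removable with `p` and with `q` -/
theorem Hd.common (h : Hd r G c u N) {p q : V} (hp : p ∈ N) (hq : q ∈ N) (hpq : p ≠ q)
    (hn : ¬ G.Adj p q) {Q : Finset V} (hQ1 : Q ⊆ N.erase p) (hqQ : q ∈ Q)
    {a b a' b' : V} (hQe : Q = {a, b, a', b'}) (hQc : Q.card = 4) (hab : a ≠ b) (hab' : a' ≠ b')
    (hcc : c s(a, b) = c s(a', b')) : ∃ y ∈ Q.erase q, y ∈ AA G c u N q p := by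
  obtain ⟨T, hT1, hT2, hT3, hT4⟩ := h.tri (c s(a, b))
  have m1 : ¬ (a ∈ T ∧ b ∈ T) := fun h' =>
    hT4 a (Finset.mem_insert_of_mem h'.1) b (Finset.mem_insert_of_mem h'.2) hab rfl
  have m2 : ¬ (a' ∈ T ∧ b' ∈ T) := fun h' =>
    hT4 a' (Finset.mem_insert_of_mem h'.1) b' (Finset.mem_insert_of_mem h'.2) hab' hcc.symm
  have hQN : ∀ z ∈ Q, z ∈ N := fun z hz => Finset.mem_of_mem_erase (hQ1 hz)
  have ha : a ∈ Q := by rw [hQe]; simp
  have hb : b ∈ Q := by rw [hQe]; simp
  have ha' : a' ∈ Q := by rw [hQe]; simp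
  have hb' : b' ∈ Q := by rw [hQe]; simp
  -- the four vertices are different
  have hne : a ≠ a' ∧ a ≠ b' ∧ b ≠ a' ∧ b ≠ b' := by
    rw [hQe] at hQc
    refine ⟨?_, ?_, ?_, ?_⟩
    · rintro rfl
      have : ({a, b, a, b'} : Finset V) ⊆ {a, b, b'} := by
        intro z hz
        simp only [Finset.mem_insert, Finset.mem_singleton] at hz ⊢
        tauto
      have := (Finset.card_le_card this).trans Finset.card_le_three
      omega
    · rintro rfl
      have : ({a, b, a', a} : Finset V) ⊆ {a, b, a'} := by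
        intro z hz
        simp only [Finset.mem_insert, Finset.mem_singleton] at hz ⊢
        tauto
      have := (Finset.card_le_card this).trans Finset.card_le_three
      omega
    · rintro rfl
      have : ({a, b, b, b'} : Finset V) ⊆ {a, b, b'} := by
        intro z hz
        simp only [Finset.mem_insert, Finset.mem_singleton] at hz ⊢
        tauto
      have := (Finset.card_le_card this).trans Finset.card_le_three
      omega
    · rintro rfl
      have : ({a, b, a', b} : Finset V) ⊆ {a, b, a'} := by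
        intro z hz
        simp only [Finset.mem_insert, Finset.mem_singleton] at hz ⊢
        tauto
      have := (Finset.card_le_card this).trans Finset.card_le_three
      omega
  obtain ⟨n1, n2, n3, n4⟩ := hne
  -- one missing vertex in each pair
  obtain ⟨e, he, heT⟩ : ∃ e, (e = a ∨ e = b) ∧ e ∉ T := by
    by_cases h1 : a ∈ T
    · exact ⟨b, Or.inr rfl, fun h2 => m1 ⟨h1, h2⟩⟩
    · exact ⟨a, Or.inl rfl, h1⟩
  obtain ⟨f, hf, hfT⟩ : ∃ f, (f = a' ∨ f = b') ∧ f ∉ T := by
    by_cases h1 : a' ∈ T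
    · exact ⟨b', Or.inr rfl, fun h2 => m2 ⟨h1, h2⟩⟩
    · exact ⟨a', Or.inl rfl, h1⟩
  have hef : e ≠ f := by
    rcases he with rfl | rfl <;> rcases hf with rfl | rfl <;> assumption
  have heQ : e ∈ Q := by rcases he with rfl | rfl <;> assumption
  have hfQ : f ∈ Q := by rcases hf with rfl | rfl <;> assumption
  -- p is in T, so q is not
  have hpT : p ∈ T := by
    refine miss2 h.card hT1 hT2 (hQN e heQ) (hQN f hfQ) hef heT hfT hp ?_ ?_
    · exact fun h' => Finset.ne_of_mem_erase (hQ1 heQ) h'.symm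
    · exact fun h' => Finset.ne_of_mem_erase (hQ1 hfQ) h'.symm
  have hqT : q ∉ T := fun h' => not_both hT3 hpq hn ⟨hpT, h'⟩
  -- so q is one of the two missing vertices
  have hqef : q = e ∨ q = f := by
    by_contra hcon
    push Not at hcon
    exact miss3 h.card hT1 hT2 (hQN e heQ) (hQN f hfQ) hq hef (Ne.symm hcon.1) (Ne.symm hcon.2)
      heT hfT hqT
  have hfin : ∀ y : V, y ∈ Q → y ≠ q → y ∉ T → y ∈ AA G c u N q p := by
    intro y hyQ hyq hyT
    have hyp : y ≠ p := Finset.ne_of_mem_erase (hQ1 hyQ)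
    refine mem_AA.mpr ⟨Finset.mem_erase.mpr ⟨hyp, Finset.mem_erase.mpr ⟨hyq, hQN y hyQ⟩⟩, ?_⟩
    refine rc_mono hT3 fun z hz => ?_
    exact miss2 h.card hT1 hT2 (hQN y hyQ) hq hyq hyT hqT
      (Finset.mem_of_mem_erase (Finset.mem_of_mem_erase hz))
      (Finset.ne_of_mem_erase (Finset.mem_of_mem_erase hz)) (Finset.ne_of_mem_erase hz)
  rcases hqef with h1 | h1
  · refine ⟨f, Finset.mem_erase.mpr ⟨fun h2 => hef (h1.symm.trans h2.symm), hfQ⟩, hfin f hfQ ?_
      hfT⟩
    exact fun h2 => hef (h1.symm.trans h2.symm)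
  · refine ⟨e, Finset.mem_erase.mpr ⟨fun h2 => hef (h2.trans h1), heQ⟩, hfin e heQ ?_ heT⟩
    exact fun h2 => hef (h2.trans h1)

/-- Step 3: a non-edge is possible for `r ≤ 7` only -/
theorem Hd.le_seven (h : Hd r G c u N) (hr : 6 ≤ r) {p q : V} (hp : p ∈ N) (hq : q ∈ N)
    (hpq : p ≠ q) (hn : ¬ G.Adj p q) : r ≤ 7 := by
  obtain ⟨Q, hQ1, hQ4, hQn, hqQ, hQ5⟩ := h.wit hr hp hq hpq hn
  obtain ⟨Q', hQ1', hQ4', hQn', hpQ', hQ5'⟩ := h.wit hr hq hp hpq.symm (fun h' => hn h'.symm)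
  have h1 := Finset.card_le_card (AA_sub (q := q) hQ1 hQn)
  have h2 := Finset.card_le_card (AA_sub (q := p) hQ1' hQn')
  rw [Finset.card_erase_of_mem hqQ] at h1
  rw [Finset.card_erase_of_mem hpQ'] at h2
  have h3 := Finset.card_le_card (h.cover hp hq hpq hn)
  have h4 := h.card_C hp hq hpq
  have h5 := Finset.card_union_add_card_inter (AA G c u N p q) (AA G c u N q p)
  by_contra h7
  have hA3 : (AA G c u N p q).card = 3 := by omega
  have hB3 : (AA G c u N q p).card = 3 := by omega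
  have hQc : Q.card = 4 := by omega
  have hI : (AA G c u N p q ∩ AA G c u N q p).card = 0 := by omega
  obtain ⟨a, b, a', b', hQe, hab, hab', hcc⟩ := hQ5 hQc
  obtain ⟨y, hy1, hy2⟩ := h.common hp hq hpq hn hQ1 hqQ hQe hQc hab hab' hcc
  have hAe : AA G c u N p q = Q.erase q := by
    apply Finset.eq_of_subset_of_card_le (AA_sub hQ1 hQn)
    rw [Finset.card_erase_of_mem hqQ]; omega
  have : y ∈ AA G c u N p q ∩ AA G c u N q p :=
    Finset.mem_inter.mpr ⟨by rw [hAe]; exact hy1, hy2⟩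
  rw [Finset.card_eq_zero] at hI
  rw [hI] at this
  exact absurd this (Finset.notMem_empty _)

end

end Pool.Agent.Lib.MP44a765.XV
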