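import Pool.Agent.Lib.MP_44a765_co.XV.Six

/-!
# MP_44a765: vertices of degree `r` in saturated graphs, `6 ≤ r ≤ 9`
-/

set_option autoImplicit false

namespace Pool.Agent.Lib.MP44a765.XV

open Finset Pool.Agent.Lib.MP44a765

section

variable {V : Type} [Fintype V] [DecidableEq V]

/-- the consequence of saturation for both vertices -/
theorem sat_pair2 {r : ℕ} {G : SimpleGraph V} {c : Sym2 V → ℕ} (hS : Saturated r G c) {u v : V}
    (huv : u ≠ v) (hn : ¬ G.Adj u v) (α : ℕ) :
    ∃ T : Finset V, T.card + 2 = r ∧ T ⊆ nb G u ∩ nb G v ∧ RainbowClique G c (insert u T) ∧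
      RainbowClique G c (insert v T) ∧
      (∀ a ∈ insert u T, ∀ b ∈ insert u T, a ≠ b → c s(a, b) ≠ α) ∧
      (∀ a ∈ insert v T, ∀ b ∈ insert v T, a ≠ b → c s(a, b) ≠ α) := by
  obtain ⟨K, hKr, hadj, hcol⟩ := hS.2 u v huv hn (Function.update c s(u, v) α)
    (fun e he => Function.update_of_ne he _ _)
  have hA : ∀ a b : V, (G ⊔ SimpleGraph.edge u v).Adj a b → s(a, b) ≠ s(u, v) → G.Adj a b := by
    intro a b hab hne
    rw [SimpleGraph.sup_adj, SimpleGraph.edge_adj] at hab
    rcases hab with h | h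
    · exact h
    · exact absurd (Sym2.eq_iff.mpr h.1) hne
  have hRC : ∀ S : Finset V, S ⊆ K → (∀ a ∈ S, ∀ b ∈ S, s(a, b) ≠ s(u, v)) →
      RainbowClique G c S := by
    intro S hSK hne
    refine ⟨fun a ha b hb hab => hA a b (hadj a (hSK ha) b (hSK hb) hab) (hne a ha b hb),
      fun a ha b hb a' ha' b' hb' hab hab' he => ?_⟩
    refine hcol a (hSK ha) b (hSK hb) a' (hSK ha') b' (hSK hb') hab hab' ?_
    rw [Function.update_of_ne (hne a ha b hb), Function.update_of_ne (hne a' ha' b' hb')]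
    exact he
  have huK : u ∈ K := by
    by_contra h
    refine hS.1 ⟨K, hKr, hRC K (Finset.Subset.refl _) fun a ha b hb he => ?_⟩
    rcases Sym2.eq_iff.mp he with ⟨h1, -⟩ | ⟨-, h2⟩
    · exact h (h1 ▸ ha)
    · exact h (h2 ▸ hb)
  have hvK : v ∈ K := by
    by_contra h
    refine hS.1 ⟨K, hKr, hRC K (Finset.Subset.refl _) fun a ha b hb he => ?_⟩
    rcases Sym2.eq_iff.mp he with ⟨-, h1⟩ | ⟨h2, -⟩
    · exact h (h1 ▸ hb)
    · exact h (h2 ▸ ha)
  have hsub : ∀ a ∈ K.erase v, ∀ b ∈ K.erase v, s(a, b) ≠ s(u, v) := by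
    intro a ha b hb he
    rcases Sym2.eq_iff.mp he with ⟨-, h1⟩ | ⟨h2, -⟩
    · exact Finset.ne_of_mem_erase hb h1
    · exact Finset.ne_of_mem_erase ha h2
  have hsub' : ∀ a ∈ K.erase u, ∀ b ∈ K.erase u, s(a, b) ≠ s(u, v) := by
    intro a ha b hb he
    rcases Sym2.eq_iff.mp he with ⟨h1, -⟩ | ⟨-, h2⟩
    · exact Finset.ne_of_mem_erase ha h1
    · exact Finset.ne_of_mem_erase hb h2
  have hcolne : ∀ S : Finset V, S ⊆ K → (∀ a ∈ S, ∀ b ∈ S, s(a, b) ≠ s(u, v)) →
      ∀ a ∈ S, ∀ b ∈ S, a ≠ b → c s(a, b) ≠ α := by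
    intro S hSK hne a ha b hb hab he
    have h1 := hcol a (hSK ha) b (hSK hb) u huK v hvK
      hab huv (by rw [Function.update_of_ne (hne a ha b hb), Function.update_self]; exact he)
    exact hne a ha b hb h1
  have hins : insert u ((K.erase v).erase u) = K.erase v :=
    Finset.insert_erase (Finset.mem_erase.mpr ⟨huv, huK⟩)
  have hins' : insert v ((K.erase v).erase u) = K.erase u := by
    rw [Finset.erase_right_comm]
    exact Finset.insert_erase (Finset.mem_erase.mpr ⟨huv.symm, hvK⟩)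
  refine ⟨(K.erase v).erase u, ?_, ?_, ?_, ?_, ?_, ?_⟩
  · rw [Finset.card_erase_of_mem (Finset.mem_erase.mpr ⟨huv, huK⟩),
      Finset.card_erase_of_mem hvK, hKr]
    have : 1 < K.card := Finset.one_lt_card.mpr ⟨u, huK, v, hvK, huv⟩
    omega
  · intro t ht
    have htu : t ≠ u := Finset.ne_of_mem_erase ht
    have htv : t ≠ v := Finset.ne_of_mem_erase (Finset.mem_of_mem_erase ht)
    have htK : t ∈ K := Finset.mem_of_mem_erase (Finset.mem_of_mem_erase ht)
    rw [Finset.mem_inter, mem_nb, mem_nb]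
    refine ⟨hA u t (hadj u huK t htK htu.symm) fun he => ?_,
      hA v t (hadj v hvK t htK htv.symm) fun he => ?_⟩
    · rcases Sym2.eq_iff.mp he with ⟨-, h1⟩ | ⟨h2, -⟩
      · exact htv h1
      · exact huv h2
    · rcases Sym2.eq_iff.mp he with ⟨h1, -⟩ | ⟨-, h2⟩
      · exact huv h1.symm
      · exact htu h2
  · rw [hins]
    exact hRC _ (Finset.erase_subset _ _) hsub
  · rw [hins']
    exact hRC _ (Finset.erase_subset _ _) hsub'
  · rw [hins]
    exact hcolne _ (Finset.erase_subset _ _) hsub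
  · rw [hins']
    exact hcolne _ (Finset.erase_subset _ _) hsub'

theorem distinct4 {a b a' b' : V} (h : ({a, b, a', b'} : Finset V).card = 4) :
    a ≠ a' ∧ a ≠ b' ∧ b ≠ a' ∧ b ≠ b' := by
  refine ⟨?_, ?_, ?_, ?_⟩
  · rintro rfl
    have : ({a, b, a, b'} : Finset V) ⊆ {a, b, b'} := by
      intro z hz
      simp only [Finset.mem_insert, Finset.mem_singleton] at hz ⊢
      tauto
    have := (Finset.card_le_card this).trans Finset.card_le_three
    omega
  · rintro rfl
    have : ({a, b, a', a} : Finset V) ⊆ {a, b, a'} := by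
      intro z hz
      simp only [Finset.mem_insert, Finset.mem_singleton] at hz ⊢
      tauto
    have := (Finset.card_le_card this).trans Finset.card_le_three
    omega
  · rintro rfl
    have : ({a, b, b, b'} : Finset V) ⊆ {a, b, b'} := by
      intro z hz
      simp only [Finset.mem_insert, Finset.mem_singleton] at hz ⊢
      tauto
    have := (Finset.card_le_card this).trans Finset.card_le_three
    omega
  · rintro rfl
    have : ({a, b, a', b} : Finset V) ⊆ {a, b, a'} := by
      intro z hz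
      simp only [Finset.mem_insert, Finset.mem_singleton] at hz ⊢
      tauto
    have := (Finset.card_le_card this).trans Finset.card_le_three
    omega

/-- the situation of `x` of degree `r`, all other vertices outside `N` joined to `N` and pairwise
non-adjacent -/
structure Ind (r : ℕ) (G : SimpleGraph V) (c : Sym2 V → ℕ) (x : V) : Prop where
  sat : Saturated r G c
  card : (nb G x).card = r
  ne : (rest G x).Nonempty
  all : ∀ y ∈ rest G x, nb G x ⊆ nb G y
  ind : ∀ y ∈ rest G x, ∀ z ∈ rest G x, ¬ G.Adj y z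

variable {r : ℕ} {G : SimpleGraph V} {c : Sym2 V → ℕ} {x : V}

theorem hd_x (hS : Saturated r G c) (hc : (nb G x).card = r) (hne : (rest G x).Nonempty) :
    Hd r G c x (nb G x) := by
  obtain ⟨y, hy⟩ := hne
  refine ⟨hc, notMem_nb G x, hS.1, fun α => ?_⟩
  obtain ⟨T, h1, h2, h3, h4⟩ := sat_pair hS (mem_rest.mp hy).1.symm (mem_rest.mp hy).2 α
  exact ⟨T, h1, h2.trans Finset.inter_subset_left, h3, h4⟩

theorem hd_rest (hS : Saturated r G c) (hc : (nb G x).card = r) {y : V} (hy : y ∈ rest G x) :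
    Hd r G c y (nb G x) := by
  refine ⟨hc, fun h => (mem_rest.mp hy).2 (mem_nb.mp h), hS.1, fun α => ?_⟩
  obtain ⟨T, h1, h2, h3, h4⟩ := sat_pair hS (mem_rest.mp hy).1
    (fun h => (mem_rest.mp hy).2 h.symm) α
  exact ⟨T, h1, h2.trans Finset.inter_subset_right, h3, h4⟩

/-- vertices outside `N` are `x` or in the rest -/
theorem out_cases {z : V} (hz : z ∉ nb G x) : z = x ∨ z ∈ rest G x := by
  by_cases h : z = x
  · exact Or.inl h
  · exact Or.inr (mem_rest.mpr ⟨h, fun h' => hz (mem_nb.mpr h')⟩)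

theorem Ind.out (h : Ind r G c x) {T : Finset V} {p : V} (hT : RainbowClique G c (insert p T)) :
    (T \ nb G x).card ≤ 1 := by
  rw [Finset.card_le_one]
  intro z hz z' hz'
  by_contra hne
  rw [Finset.mem_sdiff] at hz hz'
  have hadj : G.Adj z z' := hT.1 z (Finset.mem_insert_of_mem hz.1) z'
    (Finset.mem_insert_of_mem hz'.1) hne
  rcases out_cases hz.2 with h1 | h1 <;> rcases out_cases hz'.2 with h2 | h2
  · exact hne (h1.trans h2.symm)
  · exact (mem_rest.mp h2).2 (h1 ▸ hadj)
  · exact (mem_rest.mp h1).2 (h2 ▸ hadj.symm)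
  · exact h.ind z h1 z' h2 hadj

/-- the cliques for a non-edge inside `N` -/
theorem Ind.pq (h : Ind r G c x) {p q : V} (hpq : p ≠ q) (hn : ¬ G.Adj p q) (α : ℕ) :
    ∃ T : Finset V, T.card + 2 = r ∧ RainbowClique G c (insert p T) ∧
      RainbowClique G c (insert q T) ∧
      (∀ a ∈ insert p T, ∀ b ∈ insert p T, a ≠ b → c s(a, b) ≠ α) ∧
      (∀ a ∈ insert q T, ∀ b ∈ insert q T, a ≠ b → c s(a, b) ≠ α) ∧
      (T \ nb G x).card ≤ 1 ∧ T ∩ nb G x ⊆ ((nb G x).erase p).erase q := by
  obtain ⟨T, h1, h2, h3, h4, h5, h6⟩ := sat_pair2 h.sat hpq hn α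
  refine ⟨T, h1, h3, h4, h5, h6, h.out h3, fun z hz => ?_⟩
  obtain ⟨hz1, hz2⟩ := Finset.mem_inter.mp hz
  obtain ⟨hz3, hz4⟩ := Finset.mem_inter.mp (h2 hz1)
  exact Finset.mem_erase.mpr ⟨fun h' => notMem_nb G q (h' ▸ hz4),
    Finset.mem_erase.mpr ⟨fun h' => notMem_nb G p (h' ▸ hz3), hz2⟩⟩

/-- a vertex of `C` missing from `T`, together with a second one, is impossible -/
theorem miss_C {C T N' : Finset V} (hC : C.card + 2 = r) (hT : T.card + 2 = r)
    (hout : (T \ N').card ≤ 1) (hin : T ∩ N' ⊆ C) {a b : V} (ha : a ∈ C) (hb : b ∈ C)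
    (hab : a ≠ b) (haT : a ∉ T) (hbT : b ∉ T) : False := by
  have h1 : T ∩ N' ⊆ (C.erase a).erase b := by
    intro z hz
    have hzT := (Finset.mem_inter.mp hz).1
    exact Finset.mem_erase.mpr ⟨fun h => hbT (h ▸ hzT), Finset.mem_erase.mpr
      ⟨fun h => haT (h ▸ hzT), hin hz⟩⟩
  have h2 := Finset.card_le_card h1
  rw [Finset.card_erase_of_mem (Finset.mem_erase.mpr ⟨hab.symm, hb⟩),
    Finset.card_erase_of_mem ha] at h2
  have h3 := Finset.card_sdiff_add_card_inter T N'
  have h4 : 1 < C.card := Finset.one_lt_card.mpr ⟨a, ha, b, hb, hab⟩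
  omega

/-- `r = 7` -/
theorem Ind.seven_half (h : Ind 7 G c x) {p q : V} (hp : p ∈ nb G x) (hq : q ∈ nb G x)
    (hpq : p ≠ q) (hn : ¬ G.Adj p q) (hA : 3 ≤ (AA G c x (nb G x) p q).card) : False := by
  have hH := hd_x h.sat h.card h.ne
  obtain ⟨Q, hQ1, hQ4, hQn, hqQ, hQ5⟩ := hH.wit (by norm_num) hp hq hpq hn
  have h1 := Finset.card_le_card (AA_sub (q := q) hQ1 hQn)
  rw [Finset.card_erase_of_mem hqQ] at h1
  have hQc : Q.card = 4 := by omega
  obtain ⟨a, b, a', b', hQe, hab, hab', hcc⟩ := hQ5 hQc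
  have hC := hH.card_C hp hq hpq
  have hCQ : ∀ z ∈ Q, z ≠ q → z ∈ ((nb G x).erase p).erase q := fun z hz hzq =>
    Finset.mem_erase.mpr ⟨hzq, hQ1 hz⟩
  obtain ⟨n1, n2, n3, n4⟩ := distinct4 (hQe ▸ hQc)
  have ha : a ∈ Q := by rw [hQe]; simp
  have hb : b ∈ Q := by rw [hQe]; simp
  have ha' : a' ∈ Q := by rw [hQe]; simp
  have hb' : b' ∈ Q := by rw [hQe]; simp
  -- `q e` and `f g` have the same colour
  have key : ∀ e f g : V, e ∈ Q → f ∈ Q → g ∈ Q → q ≠ e → q ≠ f → q ≠ g → e ≠ f → e ≠ g →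
      f ≠ g → c s(q, e) = c s(f, g) → False := by
    intro e f g he hf hg hqe hqf hqg hef heg hfg hc2
    obtain ⟨T, t1, -, -, -, t5, t6, t7⟩ := h.pq hpq hn (c s(q, e))
    have heT : e ∉ T := fun h' => t5 q (Finset.mem_insert_self _ _) e
      (Finset.mem_insert_of_mem h') hqe rfl
    have hfg' : ¬ (f ∈ T ∧ g ∈ T) := fun h' => t5 f (Finset.mem_insert_of_mem h'.1) g
      (Finset.mem_insert_of_mem h'.2) hfg hc2.symm
    by_cases hfT : f ∈ T
    · exact miss_C hC t1 t6 t7 (hCQ e he hqe.symm) (hCQ g hg hqg.symm) heg heT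
        (fun h' => hfg' ⟨hfT, h'⟩)
    · exact miss_C hC t1 t6 t7 (hCQ e he hqe.symm) (hCQ f hf hqf.symm) hef heT hfT
  have hq4 : q = a ∨ q = b ∨ q = a' ∨ q = b' := by
    have := hqQ
    rw [hQe] at this
    simpa only [Finset.mem_insert, Finset.mem_singleton] using this
  rcases hq4 with h2 | h2 | h2 | h2
  · subst h2
    exact key b a' b' hb ha' hb' hab n1 n2 n3 n4 hab' hcc
  · subst h2
    exact key a a' b' ha ha' hb' hab.symm n3 n4 n1 n2 hab' (by rw [Sym2.eq_swap]; exact hcc)
  · subst h2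
    exact key b' a b hb' ha hb hab' n1.symm n3.symm n2.symm n4.symm hab hcc.symm
  · subst h2
    exact key a' a b ha' ha hb hab'.symm n2.symm n4.symm n1.symm n3.symm hab
      (by rw [Sym2.eq_swap]; exact hcc.symm)

theorem Ind.seven (h : Ind 7 G c x) {p q : V} (hp : p ∈ nb G x) (hq : q ∈ nb G x)
    (hpq : p ≠ q) (hn : ¬ G.Adj p q) : False := by
  have hH := hd_x h.sat h.card h.ne
  have h3 := Finset.card_le_card (hH.cover hp hq hpq hn)
  have h4 := hH.card_C hp hq hpq
  have h5 := Finset.card_union_le (AA G c x (nb G x) p q) (AA G c x (nb G x) q p)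
  by_cases hA : 3 ≤ (AA G c x (nb G x) p q).card
  · exact h.seven_half hp hq hpq hn hA
  · exact h.seven_half hq hp hpq.symm (fun h' => hn h'.symm) (by omega)

/-- `r = 6`: a witness has at most three elements -/
theorem noQ4 {N Q : Finset V} {p q : V} (hN : N.card = 6) (hp : p ∈ N) (hq : q ∈ N)
    (hpq : p ≠ q) (hQ1 : Q ⊆ N.erase p) (hqQ : q ∈ Q)
    (hQ5 : Q.card = 4 → ∃ a b a' b' : V, Q = {a, b, a', b'} ∧ a ≠ b ∧ a' ≠ b' ∧
        c s(a, b) = c s(a', b'))
    (hQ4 : Q.card ≤ 4)
    (hall : ∀ i ∈ (N.erase p).erase q,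
      RainbowClique G c (insert q (((N.erase p).erase q).erase i))) : Q.card ≤ 3 := by
  by_contra hcon
  have hQc : Q.card = 4 := by omega
  obtain ⟨a, b, a', b', hQe, hab, hab', hcc⟩ := hQ5 hQc
  obtain ⟨n1, n2, n3, n4⟩ := distinct4 (hQe ▸ hQc)
  have hqm : q ∈ N.erase p := Finset.mem_erase.mpr ⟨hpq.symm, hq⟩
  -- an element of `C` outside `Q`
  obtain ⟨i, hi, hiQ⟩ : ∃ i ∈ N.erase p, i ∉ Q := by
    by_contra hc2
    push Not at hc2
    have := Finset.card_le_card (show N.erase p ⊆ Q from hc2)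
    rw [Finset.card_erase_of_mem hp, hN] at this
    omega
  have hiq : i ≠ q := fun h => hiQ (h ▸ hqQ)
  have hR := hall i (Finset.mem_erase.mpr ⟨hiq, hi⟩)
  have hin : ∀ z ∈ Q, z ∈ insert q (((N.erase p).erase q).erase i) := by
    intro z hz
    by_cases hzq : z = q
    · rw [hzq]; exact Finset.mem_insert_self _ _
    · exact Finset.mem_insert_of_mem (Finset.mem_erase.mpr ⟨fun h => hiQ (h ▸ hz),
        Finset.mem_erase.mpr ⟨hzq, hQ1 hz⟩⟩)
  have ha : a ∈ Q := by rw [hQe]; simp
  have hb : b ∈ Q := by rw [hQe]; simp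
  have ha' : a' ∈ Q := by rw [hQe]; simp
  have hb' : b' ∈ Q := by rw [hQe]; simp
  have h1 := hR.2 a (hin a ha) b (hin b hb) a' (hin a' ha') b' (hin b' hb') hab hab' hcc
  rcases Sym2.eq_iff.mp h1 with ⟨h2, -⟩ | ⟨h2, -⟩
  · exact n1 h2
  · exact n2 h2

theorem Ind.six (h : Ind 6 G c x) {p q : V} (hp : p ∈ nb G x) (hq : q ∈ nb G x)
    (hpq : p ≠ q) (hn : ¬ G.Adj p q) : False := by
  have hHx := hd_x h.sat h.card h.ne
  have hC := hHx.card_C hp hq hpq
  set C := ((nb G x).erase p).erase q with hCdef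
  -- the clique for `i`
  have hi : ∀ i ∈ C, ∃ u : V, u ∉ nb G x ∧
      RainbowClique G c (insert p (insert u (C.erase i))) ∧
      RainbowClique G c (insert q (insert u (C.erase i))) := by
    intro i hiC
    have hpi : p ≠ i := fun h' => Finset.ne_of_mem_erase (Finset.mem_of_mem_erase hiC) h'.symm
    obtain ⟨T, t1, t2, t3, t4, -, t6, t7⟩ := h.pq hpq hn (c s(p, i))
    have hiT : i ∉ T := fun h' => t4 p (Finset.mem_insert_self _ _) i
      (Finset.mem_insert_of_mem h') hpi rfl
    have hsub : T ∩ nb G x ⊆ C.erase i := fun z hz => Finset.mem_erase.mpr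
      ⟨fun h' => hiT (h' ▸ (Finset.mem_inter.mp hz).1), t7 hz⟩
    have hcard := Finset.card_le_card hsub
    rw [Finset.card_erase_of_mem hiC] at hcard
    have hsum := Finset.card_sdiff_add_card_inter T (nb G x)
    have ho : (T \ nb G x).card = 1 := by omega
    obtain ⟨u, hu⟩ := Finset.card_eq_one.mp ho
    have huT : u ∈ T \ nb G x := by rw [hu]; exact Finset.mem_singleton_self _
    rw [Finset.mem_sdiff] at huT
    have hEq : T ∩ nb G x = C.erase i := by
      apply Finset.eq_of_subset_of_card_le hsub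
      rw [Finset.card_erase_of_mem hiC]; omega
    have hTe : insert u (C.erase i) ⊆ T := by
      intro z hz
      rcases Finset.mem_insert.mp hz with rfl | h'
      · exact huT.1
      · rw [← hEq] at h'
        exact (Finset.mem_inter.mp h').1
    exact ⟨u, huT.2, rc_mono t2 hTe, rc_mono t3 hTe⟩
  have hall_q : ∀ i ∈ C, RainbowClique G c (insert q (C.erase i)) := by
    intro i hiC
    obtain ⟨u, -, -, h3⟩ := hi i hiC
    exact rc_mono h3 (Finset.subset_insert _ _)
  have hall_p : ∀ i ∈ ((nb G x).erase q).erase p,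
      RainbowClique G c (insert p ((((nb G x).erase q).erase p).erase i)) := by
    intro i hiC
    have hCC : ((nb G x).erase q).erase p = C := Finset.erase_right_comm
    rw [hCC] at hiC ⊢
    obtain ⟨u, -, h3, -⟩ := hi i hiC
    exact rc_mono h3 (Finset.subset_insert _ _)
  obtain ⟨i0, hi0⟩ : C.Nonempty := by rw [← Finset.card_pos]; omega
  obtain ⟨u, hu, hup, huq⟩ := hi i0 hi0
  have hH : Hd 6 G c u (nb G x) := by
    rcases out_cases hu with h1 | h1
    · rw [h1]; exact hHx
    · exact hd_rest h.sat h.card h1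
  obtain ⟨Q, hQ1, hQ4, hQn, hqQ, hQ5⟩ := hH.wit (le_refl 6) hp hq hpq hn
  obtain ⟨Q', hQ1', hQ4', hQn', hpQ', hQ5'⟩ := hH.wit (le_refl 6) hq hp hpq.symm
    (fun h' => hn h'.symm)
  have hQ3 := noQ4 h.card hp hq hpq hQ1 hqQ hQ5 hQ4 hall_q
  have hQ3' := noQ4 h.card hq hp hpq.symm hQ1' hpQ' hQ5' hQ4' hall_p
  -- i0 is in both witnesses
  have hi0q : i0 ≠ q := Finset.ne_of_mem_erase hi0
  have hi0p : i0 ≠ p := Finset.ne_of_mem_erase (Finset.mem_of_mem_erase hi0)
  have hiQ : i0 ∈ Q := by
    by_contra hcon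
    apply hQn
    have hsub : insert u Q ⊆ insert q (insert u (C.erase i0)) := by
      intro z hz
      rcases Finset.mem_insert.mp hz with h1 | h1
      · rw [h1]
        exact Finset.mem_insert_of_mem (Finset.mem_insert_self _ _)
      · by_cases hzq : z = q
        · rw [hzq]; exact Finset.mem_insert_self _ _
        · exact Finset.mem_insert_of_mem (Finset.mem_insert_of_mem (Finset.mem_erase.mpr
            ⟨fun h' => hcon (h' ▸ h1), Finset.mem_erase.mpr ⟨hzq, hQ1 h1⟩⟩))
    exact ⟨fun a ha b hb => huq.1 a (hsub ha) b (hsub hb), fun a ha b hb a' ha' b' hb' =>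
      huq.2 a (hsub ha) b (hsub hb) a' (hsub ha') b' (hsub hb')⟩
  have hiQ' : i0 ∈ Q' := by
    by_contra hcon
    apply hQn'
    have hsub : insert u Q' ⊆ insert p (insert u (C.erase i0)) := by
      intro z hz
      rcases Finset.mem_insert.mp hz with h1 | h1
      · rw [h1]
        exact Finset.mem_insert_of_mem (Finset.mem_insert_self _ _)
      · by_cases hzp : z = p
        · rw [hzp]; exact Finset.mem_insert_self _ _
        · exact Finset.mem_insert_of_mem (Finset.mem_insert_of_mem (Finset.mem_erase.mpr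
            ⟨fun h' => hcon (h' ▸ h1), Finset.mem_erase.mpr
              ⟨Finset.ne_of_mem_erase (hQ1' h1), Finset.mem_erase.mpr
                ⟨hzp, Finset.mem_of_mem_erase (hQ1' h1)⟩⟩⟩))
    exact ⟨fun a ha b hb => hup.1 a (hsub ha) b (hsub hb), fun a ha b hb a' ha' b' hb' =>
      hup.2 a (hsub ha) b (hsub hb) a' (hsub ha') b' (hsub hb')⟩
  have h1 := Finset.card_le_card (AA_sub (q := q) hQ1 hQn)
  have h2 := Finset.card_le_card (AA_sub (q := p) hQ1' hQn')
  rw [Finset.card_erase_of_mem hqQ] at h1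
  rw [Finset.card_erase_of_mem hpQ'] at h2
  have h3 := Finset.card_le_card (hH.cover hp hq hpq hn)
  rw [← hCdef] at h3
  have h5 := Finset.card_union_add_card_inter (AA G c u (nb G x) p q) (AA G c u (nb G x) q p)
  have hI : (AA G c u (nb G x) p q ∩ AA G c u (nb G x) q p).card = 0 := by omega
  have hAe : AA G c u (nb G x) p q = Q.erase q := by
    apply Finset.eq_of_subset_of_card_le (AA_sub hQ1 hQn)
    rw [Finset.card_erase_of_mem hqQ]; omega
  have hBe : AA G c u (nb G x) q p = Q'.erase p := by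
    apply Finset.eq_of_subset_of_card_le (AA_sub hQ1' hQn')
    rw [Finset.card_erase_of_mem hpQ']; omega
  have hmem : i0 ∈ AA G c u (nb G x) p q ∩ AA G c u (nb G x) q p := by
    rw [hAe, hBe]
    exact Finset.mem_inter.mpr ⟨Finset.mem_erase.mpr ⟨hi0q, hiQ⟩,
      Finset.mem_erase.mpr ⟨hi0p, hiQ'⟩⟩
  rw [Finset.card_eq_zero] at hI
  rw [hI] at hmem
  exact absurd hmem (Finset.notMem_empty _)

/-- an edge in the rest contributes two -/
theorem rest_two {y z : V} (hy : y ∈ rest G x) (hz : z ∈ rest G x) (hyz : G.Adj y z) :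
    2 ≤ ∑ v ∈ rest G x, (nb G v ∩ rest G x).card := by
  have hne : y ≠ z := hyz.ne
  have h3 : ∑ v ∈ ({y, z} : Finset V), (nb G v ∩ rest G x).card ≤
      ∑ v ∈ rest G x, (nb G v ∩ rest G x).card := by
    apply Finset.sum_le_sum_of_subset
    intro w hw
    simp only [Finset.mem_insert, Finset.mem_singleton] at hw
    rcases hw with rfl | rfl <;> assumption
  rw [Finset.sum_pair hne] at h3
  have h4 : 0 < (nb G y ∩ rest G x).card :=
    Finset.card_pos.mpr ⟨z, Finset.mem_inter.mpr ⟨mem_nb.mpr hyz, hz⟩⟩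
  have h6 : 0 < (nb G z ∩ rest G x).card :=
    Finset.card_pos.mpr ⟨y, Finset.mem_inter.mpr ⟨mem_nb.mpr hyz.symm, hy⟩⟩
  omega

/-- the number of edges near a vertex of degree `r`, `6 ≤ r` -/
theorem six (hS : Saturated r G c) (hr : 6 ≤ r) (hc : (nb G x).card = r)
    (hne : (rest G x).Nonempty) (hall : ∀ y ∈ rest G x, nb G x ⊆ nb G y) :
    r * (r - 1) ≤ ∑ v ∈ nb G x, (nb G v ∩ nb G x).card +
      ∑ v ∈ rest G x, (nb G v ∩ rest G x).card := by
  have hH := hd_x hS hc hne
  by_cases h1 : ∃ p ∈ nb G x, ∃ q ∈ nb G x, p ≠ q ∧ ¬ G.Adj p q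
  · obtain ⟨p, hp, q, hq, hpq, hn⟩ := h1
    have h7 := hH.le_seven hr hp hq hpq hn
    have hR : 2 ≤ ∑ v ∈ rest G x, (nb G v ∩ rest G x).card := by
      by_contra hlt
      have hind : ∀ y ∈ rest G x, ∀ z ∈ rest G x, ¬ G.Adj y z := fun y hy z hz hyz =>
        hlt (rest_two hy hz hyz)
      have hr67 : r = 6 ∨ r = 7 := by omega
      rcases hr67 with h2 | h2
      · subst h2
        exact Ind.six ⟨hS, hc, hne, hall, hind⟩ hp hq hpq hn
      · subst h2
        exact Ind.seven ⟨hS, hc, hne, hall, hind⟩ hp hq hpq hn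
    have hM : ∑ v ∈ nb G x, (r - 1) ≤ ∑ v ∈ nb G x, ((nb G v ∩ nb G x).card +
        ((if v = p then 1 else 0) + (if v = q then 1 else 0))) := by
      refine Finset.sum_le_sum fun v hv => ?_
      have hgen : ∀ p' q' : V, p' ∈ nb G x → q' ∈ nb G x → p' ≠ q' → ¬ G.Adj p' q' →
          r - 1 ≤ (nb G p' ∩ nb G x).card + 1 := by
        intro p' q' hp' hq' hne' hn'
        have h3 := nb_ge (G := G) (((nb G x).erase p').erase q') p'
          ((Finset.erase_subset _ _).trans (Finset.erase_subset _ _)) fun w hw => by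
            by_contra hnw
            have hw1 := Finset.mem_of_mem_erase hw
            rcases hH.uniq hr hp' hq' hne' hn' hp' (Finset.mem_of_mem_erase hw1)
              (Finset.ne_of_mem_erase hw1).symm hnw with h | h
            · exact Finset.ne_of_mem_erase hw h.2
            · exact hne' h.1
        rw [Finset.card_erase_of_mem (Finset.mem_erase.mpr ⟨hne'.symm, hq'⟩),
          Finset.card_erase_of_mem hp', hc] at h3
        omega
      by_cases hvp : v = p
      · subst hvp
        have := hgen v q hv hq hpq hn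
        simp only [if_true]
        omega
      · by_cases hvq : v = q
        · subst hvq
          have := hgen v p hv hp hpq.symm (fun h => hn h.symm)
          simp only [if_true]
          omega
        · have h3 := nb_ge (G := G) ((nb G x).erase v) v (Finset.erase_subset _ _) fun w hw => by
            by_contra hnw
            rcases hH.uniq hr hp hq hpq hn hv (Finset.mem_of_mem_erase hw)
              (Finset.ne_of_mem_erase hw).symm hnw with h | h
            · exact hvp h.1
            · exact hvq h.1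
          rw [Finset.card_erase_of_mem hv, hc] at h3
          omega
    rw [Finset.sum_const, hc, smul_eq_mul, Finset.sum_add_distrib, Finset.sum_add_distrib,
      Finset.sum_ite_eq', Finset.sum_ite_eq', if_pos hp, if_pos hq] at hM
    omega
  · push Not at h1
    have hM : ∑ v ∈ nb G x, (r - 1) ≤ ∑ v ∈ nb G x, (nb G v ∩ nb G x).card := by
      refine Finset.sum_le_sum fun v hv => ?_
      have h2 := nb_ge (G := G) ((nb G x).erase v) v (Finset.erase_subset _ _) fun w hw =>
        h1 v hv w (Finset.mem_of_mem_erase hw) (Finset.ne_of_mem_erase hw).symm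
      rwa [Finset.card_erase_of_mem hv, hc] at h2
    rw [Finset.sum_const, hc, smul_eq_mul] at hM
    omega

/-- the lower bound `r n - r (r + 1)/2` for `6 ≤ r` and large `n` -/
theorem lower_six (hS : Saturated r G c) (hr : 6 ≤ r)
    (hn : r * (r + 2) ≤ Fintype.card V) :
    2 * r * Fintype.card V ≤ 2 * G.edgeSet.ncard + r * (r + 1) := by
  have hrr : r * 8 ≤ r * (r + 2) := Nat.mul_le_mul_left _ (by omega)
  have hne : Nonempty V := Fintype.card_pos_iff.mp (by omega)
  obtain ⟨x, hmin, hx⟩ := min_vertex G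
  set n := Fintype.card V with hn'
  rcases hx with hx | hy
  · obtain ⟨k, hk⟩ : ∃ k, n = k + 1 := ⟨n - 1, by omega⟩
    have h3 : n - 1 = k := by omega
    rw [h3] at hx
    have h4 : 2 * r ≤ k := by omega
    have h5 : n * (2 * r) ≤ n * k := Nat.mul_le_mul_left _ h4
    nlinarith
  · obtain ⟨y, hy⟩ := hy
    have hcom : ∀ y ∈ rest G x, r ≤ (nb G y ∩ nb G x).card := by
      intro z hz
      rw [inter_comm']
      exact common_ge_r hS (by omega) (mem_rest.mp hz).1.symm (mem_rest.mp hz).2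
    have hdel : r ≤ (nb G x).card :=
      (hcom y hy).trans (Finset.card_le_card Finset.inter_subset_right)
    have h1 := murty G r x hcom hmin
    have h2 := deg_sum G x hmin
    have h3 := card_rest G x
    rw [← hn'] at h2 h3
    by_cases hD : (nb G x).card = r
    · have hall : ∀ y ∈ rest G x, nb G x ⊆ nb G y := by
        intro z hz
        have h4 : nb G z ∩ nb G x = nb G x := by
          apply Finset.eq_of_subset_of_card_le Finset.inter_subset_right
          rw [hD]; exact hcom z hz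
        rw [← h4]
        exact Finset.inter_subset_left
      have h6 := six hS hr hD ⟨y, hy⟩ hall
      have h7 := count G x
      have h8 : ∑ y ∈ rest G x, ((nb G y ∩ nb G x).card + (nb G y).card) =
          ∑ y ∈ rest G x, (nb G y ∩ rest G x).card + (rest G x).card * (2 * r) := by
        rw [← smul_eq_mul, ← Finset.sum_const, ← Finset.sum_add_distrib]
        refine Finset.sum_congr rfl fun z hz => ?_
        have h9 := nb_split_rest G x z hz
        have h10 : (nb G z ∩ nb G x).card = r := by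
          apply le_antisymm
          · rw [← hD]; exact Finset.card_le_card Finset.inter_subset_right
          · exact hcom z hz
        omega
      rw [h8] at h7
      obtain ⟨R, hR⟩ : ∃ R, (rest G x).card = R := ⟨_, rfl⟩
      rw [hR, hD] at h7
      rw [hR, hD] at h3
      obtain ⟨s, hs⟩ : ∃ s, r = s + 1 := ⟨r - 1, by omega⟩
      have h11 : r - 1 = s := by omega
      rw [h11] at h6
      have h12 : n = R + r + 1 := by omega
      rw [h12]
      have e1 : 2 * r * (R + r + 1) = R * (2 * r) + 2 * (r * r) + 2 * r := by ring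
      have e2 : r * (r + 1) = r * r + r := by ring
      have e3 : r * s + r = r * r := by rw [hs]; ring
      rw [e1, e2]
      omega
    · obtain ⟨t, ht⟩ : ∃ t, (nb G x).card = r + t := ⟨(nb G x).card - r, by omega⟩
      rw [ht] at h1 h2 h3 hD
      have ht1 : 1 ≤ t := by omega
      by_cases htr : r ≤ t
      · have h4 : n * (2 * r) ≤ n * (r + t) := Nat.mul_le_mul_left _ (by omega)
        nlinarith
      · obtain ⟨R, hR⟩ : ∃ R, (rest G x).card = R := ⟨_, rfl⟩
        rw [hR] at h1 h3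
        have h12 : n = R + r + t + 1 := by omega
        rw [h12]
        have e1 : 2 * r * (R + r + t + 1) = 2 * (r * R) + 2 * (r * r) + 2 * (r * t) + 2 * r := by
          ring
        have e2 : r * (r + 1) = r * r + r := by ring
        have e3 : R * (r + (r + t)) = 2 * (r * R) + R * t := by ring
        rw [e3] at h1
        rw [e1, e2]
        -- need r² + 2 r t + r ≤ 2 t + R t + 2 r
        have h13 : r * r + 2 * r ≤ R + r + t + 1 := by
          have : r * (r + 2) = r * r + 2 * r := by ring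
          omega
        have h14 : r * r + 2 * (r * t) ≤ R * t + 2 * t + r := by
          have hR2 : r * r + r ≤ R + t + 1 := by omega
          -- (R + t + 1) t ≥ (r r + r) t
          have h15 : (r * r + r) * t ≤ (R + t + 1) * t := Nat.mul_le_mul_right _ hR2
          have h16 : t * t + r + 1 ≤ r * t + t + 1 := by
            -- t ≤ r - 1, 1 ≤ t : t² + r ≤ r t + t  <=> (t - 1)(r - t) ≥ 0 ...
            nlinarith
          have h17 : 1 * (r * r) ≤ t * (r * r) := Nat.mul_le_mul_right _ ht1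
          nlinarith
        omega

end

end Pool.Agent.Lib.MP44a765.XV
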