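import Pool.Agent.Lib.MP_44a765_co.XV.Gad
import Pool.Agent.Lib.MP_44a765_co.XV.Nine

/-!
# MP_44a765: the triangle gadget, transfer to `Fin n`, upper bounds
-/

set_option autoImplicit false

namespace Pool.Agent.Lib.MP44a765.XV

open Finset Pool.Agent.Lib.MP44a765

/-- the colouring of the triangle: two edges of the colour 1, one of the colour 2 -/
def tc : Sym2 (Fin 3) → ℕ := fun e => if e = s(0, 2) then 2 else 1

theorem rc_pair {V : Type} [DecidableEq V] (c : Sym2 V → ℕ) {p q : V} (hpq : p ≠ q) :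
    RainbowClique (⊤ : SimpleGraph V) c {p, q} := by
  have key : ∀ a ∈ ({p, q} : Finset V), ∀ b ∈ ({p, q} : Finset V), a ≠ b → s(a, b) = s(p, q) := by
    intro a ha b hb hab
    rw [Finset.mem_insert, Finset.mem_singleton] at ha hb
    rcases ha with rfl | rfl <;> rcases hb with rfl | rfl
    · exact absurd rfl hab
    · rfl
    · exact Sym2.eq_swap
    · exact absurd rfl hab
  exact ⟨fun a _ b _ hab => hab, fun a ha b hb a' ha' b' hb' hab hab' _ =>
    (key a ha b hb hab).trans (key a' ha' b' hb' hab').symm⟩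

theorem good_tri : Good 2 (⊤ : SimpleGraph (Fin 3)) tc := by
  refine ⟨⟨?_, fun u v huv hn => absurd huv hn⟩, fun w => ?_, fun α => ?_⟩
  · rintro ⟨K, hK, -, hcol⟩
    have hKu : K = univ := by
      rw [← Finset.card_eq_iff_eq_univ, hK, Fintype.card_fin]
    have h := hcol 0 (by rw [hKu]; simp) 1 (by rw [hKu]; simp) 1 (by rw [hKu]; simp) 2
      (by rw [hKu]; simp) (by decide) (by decide) (by decide)
    exact absurd h (by decide)
  · fin_cases w
    · exact ⟨{1, 2}, by decide, by decide, rc_pair tc (by decide)⟩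
    · exact ⟨{0, 2}, by decide, by decide, rc_pair tc (by decide)⟩
    · exact ⟨{0, 1}, by decide, by decide, rc_pair tc (by decide)⟩
  · by_cases hα : α = 1
    · subst hα
      exact ⟨{0, 2}, by decide, rc_pair tc (by decide), by decide⟩
    · have key : ∀ a ∈ ({0, 1} : Finset (Fin 3)), ∀ b ∈ ({0, 1} : Finset (Fin 3)), a ≠ b →
          tc s(a, b) = 1 := by decide
      refine ⟨{0, 1}, by decide, rc_pair tc (by decide), fun a ha b hb hab he => hα ?_⟩
      rw [← he]
      exact key a ha b hb hab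

/-! ## transfer -/

theorem rc_map {V W : Type} (e : V ≃ W) {G : SimpleGraph V}
    {G' : SimpleGraph W} {c : Sym2 V → ℕ} {c' : Sym2 W → ℕ}
    (hG : ∀ a b, G'.Adj (e a) (e b) ↔ G.Adj a b) (hc : ∀ a b, c' s(e a, e b) = c s(a, b))
    (K : Finset V) : RainbowClique G' c' (K.map e.toEmbedding) ↔ RainbowClique G c K := by
  constructor
  · rintro ⟨h1, h2⟩
    refine ⟨fun a ha b hb hab => (hG a b).mp (h1 _ (Finset.mem_map_of_mem _ ha) _
      (Finset.mem_map_of_mem _ hb) fun h => hab (e.injective h)), ?_⟩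
    intro a ha b hb a' ha' b' hb' hab hab' he
    have h := h2 _ (Finset.mem_map_of_mem _ ha) _ (Finset.mem_map_of_mem _ hb) _
      (Finset.mem_map_of_mem _ ha') _ (Finset.mem_map_of_mem _ hb')
      (fun h => hab (e.injective h)) (fun h => hab' (e.injective h)) (by
        show c' s(e a, e b) = c' s(e a', e b')
        rw [hc, hc, he])
    rcases Sym2.eq_iff.mp h with ⟨h3, h4⟩ | ⟨h3, h4⟩
    · rw [e.injective h3, e.injective h4]
    · rw [e.injective h3, e.injective h4]; exact Sym2.eq_swap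
  · rintro ⟨h1, h2⟩
    refine ⟨fun x hx y hy hxy => ?_, fun x hx y hy x' hx' y' hy' hxy hxy' he => ?_⟩
    · obtain ⟨a, ha, rfl⟩ := Finset.mem_map.mp hx
      obtain ⟨b, hb, rfl⟩ := Finset.mem_map.mp hy
      exact (hG a b).mpr (h1 a ha b hb fun h => hxy (by rw [h]))
    · obtain ⟨a, ha, rfl⟩ := Finset.mem_map.mp hx
      obtain ⟨b, hb, rfl⟩ := Finset.mem_map.mp hy
      obtain ⟨a', ha', rfl⟩ := Finset.mem_map.mp hx'
      obtain ⟨b', hb', rfl⟩ := Finset.mem_map.mp hy'
      have he' : c' s(e a, e b) = c' s(e a', e b') := he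
      rw [hc, hc] at he'
      rcases Sym2.eq_iff.mp (h2 a ha b hb a' ha' b' hb' (fun h => hxy (by rw [h]))
        (fun h => hxy' (by rw [h])) he') with ⟨h3, h4⟩ | ⟨h3, h4⟩
      · rw [h3, h4]
      · rw [h3, h4]; exact Sym2.eq_swap

theorem has_map {V W : Type} (e : V ≃ W) {G : SimpleGraph V}
    {G' : SimpleGraph W} {c : Sym2 V → ℕ} {c' : Sym2 W → ℕ}
    (hG : ∀ a b, G'.Adj (e a) (e b) ↔ G.Adj a b) (hc : ∀ a b, c' s(e a, e b) = c s(a, b))
    (r : ℕ) : HasRainbow G' c' r ↔ HasRainbow G c r := by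
  constructor
  · rintro ⟨K, hK, hR⟩
    have hKe : (K.map e.symm.toEmbedding).map e.toEmbedding = K := by
      rw [Finset.map_map]
      ext x
      simp
    refine ⟨K.map e.symm.toEmbedding, by rw [Finset.card_map, hK], ?_⟩
    rw [← rc_map e hG hc, hKe]
    exact hR
  · rintro ⟨K, hK, hR⟩
    exact ⟨K.map e.toEmbedding, by rw [Finset.card_map, hK], (rc_map e hG hc K).mpr hR⟩

theorem sat_map {V W : Type} (e : V ≃ W) {G : SimpleGraph V}
    {G' : SimpleGraph W} {c : Sym2 V → ℕ} {c' : Sym2 W → ℕ}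
    (hG : ∀ a b, G'.Adj (e a) (e b) ↔ G.Adj a b) (hc : ∀ a b, c' s(e a, e b) = c s(a, b))
    {r : ℕ} (hS : Saturated r G c) : Saturated r G' c' := by
  refine ⟨fun h => hS.1 ((has_map e hG hc r).mp h), fun x y hxy hn c1 hc1 => ?_⟩
  obtain ⟨u, rfl⟩ := e.surjective x
  obtain ⟨v, rfl⟩ := e.surjective y
  have huv : u ≠ v := fun h => hxy (by rw [h])
  have h := hS.2 u v huv (fun h => hn ((hG u v).mpr h)) (fun z => c1 (z.map e)) (fun z hz => by
    induction z using Sym2.ind with
    | _ a b =>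
      show c1 s(e a, e b) = c s(a, b)
      rw [hc1 _ fun h => hz ?_, hc]
      rcases Sym2.eq_iff.mp h with ⟨h3, h4⟩ | ⟨h3, h4⟩
      · rw [e.injective h3, e.injective h4]
      · rw [e.injective h3, e.injective h4]; exact Sym2.eq_swap)
  refine (has_map e (fun a b => ?_) (fun a b => rfl) r).mpr h
  rw [SimpleGraph.sup_adj, SimpleGraph.sup_adj, SimpleGraph.edge_adj, SimpleGraph.edge_adj, hG]
  constructor
  · rintro (h1 | ⟨h1, h2⟩)
    · exact Or.inl h1
    · refine Or.inr ⟨?_, fun h3 => h2 (by rw [h3])⟩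
      rcases h1 with ⟨h3, h4⟩ | ⟨h3, h4⟩
      · exact Or.inl ⟨e.injective h3, e.injective h4⟩
      · exact Or.inr ⟨e.injective h3, e.injective h4⟩
  · rintro (h1 | ⟨h1, h2⟩)
    · exact Or.inl h1
    · refine Or.inr ⟨?_, fun h3 => h2 (e.injective h3)⟩
      rcases h1 with ⟨h3, h4⟩ | ⟨h3, h4⟩
      · exact Or.inl ⟨by rw [h3], by rw [h4]⟩
      · exact Or.inr ⟨by rw [h3], by rw [h4]⟩

theorem edges_map {V W : Type} [Fintype V] [Fintype W] [DecidableEq V] [DecidableEq W]
    (e : V ≃ W) {G : SimpleGraph V} {G' : SimpleGraph W}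
    (hG : ∀ a b, G'.Adj (e a) (e b) ↔ G.Adj a b) : G'.edgeSet.ncard = G.edgeSet.ncard := by
  have h1 := two_edges G
  have h2 := two_edges G'
  have h3 : ∑ w, (nb G' w).card = ∑ v, (nb G v).card := by
    rw [← Equiv.sum_comp e]
    refine Finset.sum_congr rfl fun v _ => ?_
    have : nb G' (e v) = (nb G v).map e.toEmbedding := by
      ext w
      obtain ⟨u, rfl⟩ := e.surjective w
      rw [mem_nb, hG]
      constructor
      · intro h; exact Finset.mem_map_of_mem _ (mem_nb.mpr h)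
      · intro h
        obtain ⟨u', hu', he⟩ := Finset.mem_map.mp h
        rw [← e.injective he]; exact mem_nb.mp hu'
    rw [this, Finset.card_map]
  omega

/-- a saturated graph on `n` vertices bounds the saturation number -/
theorem sat_exists {V : Type} [Fintype V] [DecidableEq V] {n r : ℕ} (hn : Fintype.card V = n)
    {G : SimpleGraph V} {c : Sym2 V → ℕ} (hS : Saturated r G c) :
    ∃ (G' : SimpleGraph (Fin n)) (c' : Sym2 (Fin n) → ℕ), Saturated r G' c' ∧
      G'.edgeSet.ncard = G.edgeSet.ncard := by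
  let e : V ≃ Fin n := Fintype.equivFinOfCardEq hn
  have hG : ∀ a b, (G.comap e.symm).Adj (e a) (e b) ↔ G.Adj a b := by
    intro a b
    rw [SimpleGraph.comap_adj, Equiv.symm_apply_apply, Equiv.symm_apply_apply]
  have hc : ∀ a b, (fun z : Sym2 (Fin n) => c (z.map e.symm)) s(e a, e b) = c s(a, b) := by
    intro a b
    show c s(e.symm (e a), e.symm (e b)) = c s(a, b)
    rw [Equiv.symm_apply_apply, Equiv.symm_apply_apply]
  exact ⟨G.comap e.symm, fun z => c (z.map e.symm), sat_map e hG hc hS, edges_map e hG⟩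

theorem sat_le {V : Type} [Fintype V] [DecidableEq V] {n r : ℕ} (hn : Fintype.card V = n)
    {G : SimpleGraph V} {c : Sym2 V → ℕ} (hS : Saturated r G c) : sat n r ≤ G.edgeSet.ncard := by
  obtain ⟨G', c', h1, h2⟩ := sat_exists hn hS
  exact Nat.sInf_le ⟨G', c', h1, h2⟩

/-- a lower bound valid for all saturated graphs, if there is one -/
theorem le_sat {V : Type} [Fintype V] [DecidableEq V] {n r k : ℕ} (hn : Fintype.card V = n)
    {G : SimpleGraph V} {c : Sym2 V → ℕ} (hS : Saturated r G c)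
    (hk : ∀ (G' : SimpleGraph (Fin n)) (c' : Sym2 (Fin n) → ℕ), Saturated r G' c' →
      k ≤ G'.edgeSet.ncard) : k ≤ sat n r := by
  obtain ⟨G', c', h1, h2⟩ := sat_exists hn hS
  refine le_csInf ⟨_, G', c', h1, rfl⟩ ?_
  rintro m ⟨G'', c'', h3, rfl⟩
  exact hk G'' c'' h3

/-- the number of edges of a complete graph -/
theorem top_edges (d : ℕ) : 2 * (⊤ : SimpleGraph (Fin d)).edgeSet.ncard = d * (d - 1) := by
  rw [two_edges]
  have : ∀ v : Fin d, (nb (⊤ : SimpleGraph (Fin d)) v).card = d - 1 := by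
    intro v
    have h : nb (⊤ : SimpleGraph (Fin d)) v = univ.erase v := by
      ext w
      rw [mem_nb, SimpleGraph.top_adj, Finset.mem_erase]
      exact ⟨fun h => ⟨Ne.symm h, Finset.mem_univ _⟩, fun h => Ne.symm h.1⟩
    rw [h, Finset.card_erase_of_mem (Finset.mem_univ _), Finset.card_univ, Fintype.card_fin]
  simp only [this]
  rw [Finset.sum_const, Finset.card_univ, Fintype.card_fin, smul_eq_mul]

end Pool.Agent.Lib.MP44a765.XV
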