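import Pool.Agent.Lib.MP_44a765_co.XV.Tri
import Pool.Agent.Lib.MP_44a765_co.XV.Gad2
import Pool.Agent.Lib.MP_44a765_co.XV.Six2

/-!
# MP_44a765: the values and bounds which follow from the gadgets and the lower bounds
-/

set_option autoImplicit false

namespace Pool.Agent.Lib.MP44a765.XV

open Finset Pool.Agent.Lib.MP44a765

/-- an injection into the natural numbers -/
noncomputable def ka (V : Type) [Fintype V] (v : V) : ℕ := (Fintype.equivFin V v).val

theorem ka_inj (V : Type) [Fintype V] : Function.Injective (ka V) := fun _ _ h =>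
  (Fintype.equivFin V).injective (Fin.ext h)

theorem pack_le {V : Type} [Fintype V] [DecidableEq V] {s : ℕ} {G : SimpleGraph V}
    {c : Sym2 V → ℕ} (hG : Good s G c) {n : ℕ} (hn : Fintype.card V + 2 ≤ n) :
    sat n (s + 2) ≤ G.edgeSet.ncard + Fintype.card V * (n - Fintype.card V) := by
  have h := join_good (ka_inj V) (m := n - Fintype.card V) (by omega) hG
  have h1 := sat_le (n := n) (by
    rw [Fintype.card_sum, Fintype.card_fin]; omega) h.sat
  rwa [join_edges] at h1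

theorem pack_ge {V : Type} [Fintype V] [DecidableEq V] {s : ℕ} {G : SimpleGraph V}
    {c : Sym2 V → ℕ} (hG : Good s G c) {n k : ℕ} (hn : Fintype.card V + 2 ≤ n)
    (hk : ∀ (G' : SimpleGraph (Fin n)) (c' : Sym2 (Fin n) → ℕ), Saturated (s + 2) G' c' →
      k ≤ G'.edgeSet.ncard) : k ≤ sat n (s + 2) := by
  have h := join_good (ka_inj V) (m := n - Fintype.card V) (by omega) hG
  exact le_sat (n := n) (by rw [Fintype.card_sum, Fintype.card_fin]; omega) h.sat hk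

/-! ## the gadgets with their orders and sizes -/

/-- two isolated vertices -/
theorem g1 : ∃ (V : Type) (_ : Fintype V) (_ : DecidableEq V) (G : SimpleGraph V)
    (c : Sym2 V → ℕ), Good 1 G c ∧ Fintype.card V = 2 ∧ G.edgeSet.ncard = 0 := by
  refine ⟨Fin 0 ⊕ Fin 2, inferInstance, inferInstance, JG ⊥ 2, JC (fun _ => 0) (ka (Fin 0)) 2,
    join_good (ka_inj (Fin 0)) (le_refl 2) good_zero, by simp, ?_⟩
  rw [join_edges]
  simp

/-- adding two independent vertices to a gadget -/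
theorem g_step {s d k : ℕ} (h : ∃ (V : Type) (_ : Fintype V) (_ : DecidableEq V)
    (G : SimpleGraph V) (c : Sym2 V → ℕ), Good s G c ∧ Fintype.card V = d ∧
      G.edgeSet.ncard = k) :
    ∃ (V : Type) (_ : Fintype V) (_ : DecidableEq V) (G : SimpleGraph V)
      (c : Sym2 V → ℕ), Good (s + 1) G c ∧ Fintype.card V = d + 2 ∧
        G.edgeSet.ncard = k + 2 * d := by
  obtain ⟨V, i1, i2, G, c, hG, hd, hk⟩ := h
  refine ⟨V ⊕ Fin 2, inferInstance, inferInstance, JG G 2, JC c (ka V) 2,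
    join_good (ka_inj V) (le_refl 2) hG, ?_, ?_⟩
  · rw [Fintype.card_sum, hd, Fintype.card_fin]
  · rw [join_edges, hk, hd, Nat.mul_comm]

theorem g2 : ∃ (V : Type) (_ : Fintype V) (_ : DecidableEq V) (G : SimpleGraph V)
    (c : Sym2 V → ℕ), Good 2 G c ∧ Fintype.card V = 3 ∧ G.edgeSet.ncard = 3 := by
  refine ⟨Fin 3, inferInstance, inferInstance, ⊤, tc, good_tri, by simp, ?_⟩
  have := top_edges 3
  omega

theorem g_top {d s : ℕ} {f : ℕ → ℕ → ℕ} {L : List (List ℕ)} {Q : List (ℕ × ℕ × ℕ × ℕ)}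
    (h : KG d s f L Q) : ∃ (V : Type) (_ : Fintype V) (_ : DecidableEq V) (G : SimpleGraph V)
    (c : Sym2 V → ℕ), Good s G c ∧ Fintype.card V = d ∧ 2 * G.edgeSet.ncard = d * (d - 1) :=
  ⟨Fin d, inferInstance, inferInstance, ⊤, kc d f, kg_good h, by simp, top_edges d⟩

/-- the gadgets of order `2 k + 3` -/
theorem g_all (k : ℕ) : ∃ (V : Type) (_ : Fintype V) (_ : DecidableEq V) (G : SimpleGraph V)
    (c : Sym2 V → ℕ), Good (k + 2) G c ∧ Fintype.card V = 2 * k + 3 ∧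
      G.edgeSet.ncard ≤ (2 * k + 3) * (2 * k + 3) := by
  have h : ∃ e, ∃ (V : Type) (_ : Fintype V) (_ : DecidableEq V) (G : SimpleGraph V)
    (c : Sym2 V → ℕ), Good (k + 2) G c ∧ Fintype.card V = 2 * k + 3 ∧
      G.edgeSet.ncard = e ∧ e ≤ (2 * k + 3) * (2 * k + 3) := by
    induction k with
    | zero =>
      obtain ⟨V, i1, i2, G, c, h1, h2, h3⟩ := g2
      exact ⟨3, V, i1, i2, G, c, h1, h2, h3, by norm_num⟩
    | succ k ih =>
      obtain ⟨e, V, i1, i2, G, c, h1, h2, h3, h4⟩ := ih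
      obtain ⟨V', i1', i2', G', c', h1', h2', h3'⟩ := g_step ⟨V, i1, i2, G, c, h1, h2, h3⟩
      refine ⟨e + 2 * (2 * k + 3), V', i1', i2', G', c', h1', by omega, h3', ?_⟩
      nlinarith
  obtain ⟨e, V, i1, i2, G, c, h1, h2, h3, h4⟩ := h
  exact ⟨V, i1, i2, G, c, h1, h2, by omega⟩

/-! ## the values -/

theorem val3 (n : ℕ) (hn : 4 ≤ n) : sat n 3 = 2 * n - 4 := by
  obtain ⟨V, i1, i2, G, c, h1, h2, h3⟩ := g1
  apply le_antisymm
  · have h := pack_le (n := n) h1 (by omega)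
    rw [h2, h3] at h
    have h' : sat n 3 ≤ 0 + 2 * (n - 2) := h
    omega
  · refine pack_ge (n := n) h1 (by omega) fun G' c' hS => ?_
    have h := lower_three hS (by rw [Fintype.card_fin]; exact hn)
    rwa [Fintype.card_fin] at h

theorem val4 (n : ℕ) (hn : 15 ≤ n) : sat n 4 = 3 * n - 6 := by
  obtain ⟨V, i1, i2, G, c, h1, h2, h3⟩ := g2
  apply le_antisymm
  · have h := pack_le (n := n) h1 (by omega)
    rw [h2, h3] at h
    have h' : sat n 4 ≤ 3 + 3 * (n - 3) := h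
    omega
  · refine pack_ge (n := n) h1 (by omega) fun G' c' hS => ?_
    have h := lower_four hS (by rw [Fintype.card_fin]; exact hn)
    rwa [Fintype.card_fin] at h

theorem val5 (n : ℕ) (hn : 33 ≤ n) : sat n 5 = 5 * n - 16 := by
  obtain ⟨V, i1, i2, G, c, h1, h2, h3⟩ := g_step g2
  apply le_antisymm
  · have h := pack_le (n := n) h1 (by omega)
    rw [h2, h3] at h
    have h' : sat n 5 ≤ 3 + 2 * 3 + (3 + 2) * (n - (3 + 2)) := h
    omega
  · refine pack_ge (n := n) h1 (by omega) fun G' c' hS => ?_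
    have h := lower_five hS (by rw [Fintype.card_fin]; exact hn)
    rwa [Fintype.card_fin] at h

/-- upper bounds for `6 ≤ r ≤ 15` -/
theorem up6 (n : ℕ) (hn : 8 ≤ n) : sat n 6 ≤ 6 * n - 21 := by
  obtain ⟨V, i1, i2, G, c, h1, h2, h3⟩ := g_top kg6
  have h := pack_le (n := n) h1 (by omega)
  rw [h2] at h
  have h' : sat n 6 ≤ G.edgeSet.ncard + 6 * (n - 6) := h
  omega

theorem up7 (n : ℕ) (hn : 9 ≤ n) : sat n 7 ≤ 7 * n - 28 := by
  obtain ⟨V, i1, i2, G, c, h1, h2, h3⟩ := g_top kg7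
  have h := pack_le (n := n) h1 (by omega)
  rw [h2] at h
  have h' : sat n 7 ≤ G.edgeSet.ncard + 7 * (n - 7) := h
  omega

theorem up8 (n : ℕ) (hn : 10 ≤ n) : sat n 8 ≤ 8 * n - 36 := by
  obtain ⟨V, i1, i2, G, c, h1, h2, h3⟩ := g_top kg8
  have h := pack_le (n := n) h1 (by omega)
  rw [h2] at h
  have h' : sat n 8 ≤ G.edgeSet.ncard + 8 * (n - 8) := h
  omega

theorem up9 (n : ℕ) (hn : 11 ≤ n) : sat n 9 ≤ 9 * n - 45 := by
  obtain ⟨V, i1, i2, G, c, h1, h2, h3⟩ := g_top kg9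
  have h := pack_le (n := n) h1 (by omega)
  rw [h2] at h
  have h' : sat n 9 ≤ G.edgeSet.ncard + 9 * (n - 9) := h
  omega

theorem up10 (n : ℕ) (hn : 13 ≤ n) : sat n 10 ≤ 11 * n - 67 := by
  obtain ⟨V0, j1, j2, G0, c0, k1, k2, k3⟩ := g_top kg9
  obtain ⟨V, i1, i2, G, c, h1, h2, h3⟩ := g_step ⟨V0, j1, j2, G0, c0, k1, k2, rfl⟩
  have h := pack_le (n := n) h1 (by omega)
  rw [h2, h3] at h
  have h' : sat n 10 ≤ G0.edgeSet.ncard + 2 * 9 + (9 + 2) * (n - (9 + 2)) := h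
  omega

theorem up11 (n : ℕ) (hn : 14 ≤ n) : sat n 11 ≤ 12 * n - 78 := by
  obtain ⟨V, i1, i2, G, c, h1, h2, h3⟩ := g_top kg12
  have h := pack_le (n := n) h1 (by omega)
  rw [h2] at h
  have h' : sat n 11 ≤ G.edgeSet.ncard + 12 * (n - 12) := h
  omega

theorem up12 (n : ℕ) (hn : 15 ≤ n) : sat n 12 ≤ 13 * n - 91 := by
  obtain ⟨V, i1, i2, G, c, h1, h2, h3⟩ := g_top (ks_kg ks13)
  have h := pack_le (n := n) h1 (by omega)
  rw [h2] at h
  have h' : sat n 12 ≤ G.edgeSet.ncard + 13 * (n - 13) := h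
  omega

theorem up13 (n : ℕ) (hn : 16 ≤ n) : sat n 13 ≤ 14 * n - 105 := by
  obtain ⟨V, i1, i2, G, c, h1, h2, h3⟩ := g_top (ks_kg ks14)
  have h := pack_le (n := n) h1 (by omega)
  rw [h2] at h
  have h' : sat n 13 ≤ G.edgeSet.ncard + 14 * (n - 14) := h
  omega

theorem up14 (n : ℕ) (hn : 17 ≤ n) : sat n 14 ≤ 15 * n - 120 := by
  obtain ⟨V, i1, i2, G, c, h1, h2, h3⟩ := g_top (ks_kg ks15)
  have h := pack_le (n := n) h1 (by omega)
  rw [h2] at h
  have h' : sat n 14 ≤ G.edgeSet.ncard + 15 * (n - 15) := h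
  omega

theorem up15 (n : ℕ) (hn : 18 ≤ n) : sat n 15 ≤ 16 * n - 136 := by
  obtain ⟨V, i1, i2, G, c, h1, h2, h3⟩ := g_top (ks_kg ks16)
  have h := pack_le (n := n) h1 (by omega)
  rw [h2] at h
  have h' : sat n 15 ≤ G.edgeSet.ncard + 16 * (n - 16) := h
  omega

theorem up_all (r n : ℕ) (hr : 4 ≤ r) (hn : 2 * r - 3 ≤ n) : sat n r ≤ (2 * r - 5) * n := by
  obtain ⟨k, rfl⟩ : ∃ k, r = k + 4 := ⟨r - 4, by omega⟩
  obtain ⟨V, i1, i2, G, c, h1, h2, h3⟩ := g_all k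
  have h := pack_le (n := n) h1 (by omega)
  rw [h2] at h
  have h' : sat n (k + 4) ≤ G.edgeSet.ncard + (2 * k + 3) * (n - (2 * k + 3)) := h
  refine h'.trans ((Nat.add_le_add_right h3 _).trans (le_of_eq ?_))
  rw [← Nat.mul_add]
  have e1 : 2 * k + 3 + (n - (2 * k + 3)) = n := by omega
  have e2 : 2 * (k + 4) - 5 = 2 * k + 3 := by omega
  rw [e1, e2]

theorem low_r (r n : ℕ) (hr : 5 ≤ r) (hn : 4 * r ≤ n) : r * (n - r) ≤ sat n r := by
  obtain ⟨k, rfl⟩ : ∃ k, r = k + 4 := ⟨r - 4, by omega⟩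
  obtain ⟨V, i1, i2, G, c, h1, h2, -⟩ := g_all k
  refine pack_ge (n := n) h1 (by omega) fun G' c' hS => ?_
  have h := lower_r hS hr (by rw [Fintype.card_fin]; exact hn)
  rwa [Fintype.card_fin] at h

theorem low_succ (r n : ℕ) (hr : 10 ≤ r) (hn : 4 * (r + 1) ≤ n) :
    (r + 1) * (n - (r + 1)) ≤ sat n r := by
  obtain ⟨k, rfl⟩ : ∃ k, r = k + 4 := ⟨r - 4, by omega⟩
  obtain ⟨V, i1, i2, G, c, h1, h2, -⟩ := g_all k
  refine pack_ge (n := n) h1 (by omega) fun G' c' hS => ?_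
  have h := lower_succ hS hr (by rw [Fintype.card_fin]; exact hn)
  rwa [Fintype.card_fin] at h

/-- the lower bound `r n - r (r + 1)/2` -/
theorem low_six (r n : ℕ) (hr : 6 ≤ r) (hn : r * (r + 2) ≤ n) :
    2 * r * n ≤ 2 * sat n r + r * (r + 1) := by
  obtain ⟨k, rfl⟩ : ∃ k, r = k + 4 := ⟨r - 4, by omega⟩
  obtain ⟨V, i1, i2, G, c, h1, h2, -⟩ := g_all k
  have hrr : (k + 4) * 8 ≤ (k + 4) * (k + 4 + 2) := Nat.mul_le_mul_left _ (by omega)
  have h := pack_ge (n := n) (k := (2 * (k + 4) * n - (k + 4) * (k + 4 + 1) + 1) / 2) h1 (by omega)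
    fun G' c' hS => by
      have h := lower_six (r := k + 4) hS hr (by rw [Fintype.card_fin]; exact hn)
      rw [Fintype.card_fin] at h
      omega
  have h' : (2 * (k + 4) * n - (k + 4) * (k + 4 + 1) + 1) / 2 ≤ sat n (k + 4) := h
  omega

theorem conj_iff (r : ℕ) (hr : 3 ≤ r) :
    (∃ (C : ℤ) (n0 : ℕ), ∀ n : ℕ, n0 ≤ n → (sat n r : ℤ) = 2 * ((r : ℤ) - 2) * n + C) ↔
      r = 3 := by
  constructor
  · rintro ⟨C, n0, h⟩
    by_contra hne
    have hr4 : 4 ≤ r := by omega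
    set n := n0 + 2 * r + C.natAbs + 1 with hn
    have h1 := h n (by omega)
    have h2 := up_all r n hr4 (by omega)
    have h3 : (sat n r : ℤ) ≤ (2 * (r : ℤ) - 5) * n := by
      have h4 : ((2 * r - 5 : ℕ) : ℤ) = 2 * (r : ℤ) - 5 := by omega
      rw [← h4]
      exact_mod_cast h2
    have h5 : -(C.natAbs : ℤ) ≤ C := by omega
    have h6 : (n : ℤ) = n0 + 2 * r + C.natAbs + 1 := by rw [hn]; push_cast; ring
    rw [h1] at h3
    have h7 : (n : ℤ) + C ≤ 0 := by linarith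
    have h8 : (0 : ℤ) ≤ n0 := Int.natCast_nonneg _
    have h9 : (0 : ℤ) ≤ r := Int.natCast_nonneg _
    linarith
  · rintro rfl
    refine ⟨-4, 4, fun n hn => ?_⟩
    rw [val3 n hn]
    push_cast
    omega

/-- upper bound for `10 ≤ r ≤ 15` -/
theorem up_succ (r n : ℕ) (hr : 10 ≤ r) (hr' : r ≤ 15) (hn : r + 3 ≤ n) :
    2 * sat n r + (r + 1) * (r + 2) ≤ 2 * (r + 1) * n := by
  have h1 := up10 n
  have h2 := up11 n
  have h3 := up12 n
  have h4 := up13 n
  have h5 := up14 n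
  have h6 := up15 n
  interval_cases r <;> omega

end Pool.Agent.Lib.MP44a765.XV
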